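import Pool.Agent.Lib.MP_b16327_pr.Defs
import Pool.Agent.Lib.MP_a137af_pr.DiscIso

/-!
# G1b: geometry of a disc action
-/

set_option autoImplicit false
open MeasureTheory Set Filter Topology
open scoped ENNReal ComplexConjugate

namespace Pool.Agent.Lib.KLG

open Pool.Agent.Lib.KLP

variable {Γ : Type*} [Group Γ] (A : Act Γ)

private theorem ag_den {a z : ℂ} (ha : ‖a‖ < 1) (hz : ‖z‖ ≤ 1) : 0 < ‖1 - conj a * z‖ := by
  have h1 : ‖conj a * z‖ < 1 := by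
    rw [norm_mul, RCLike.norm_conj]
    calc ‖a‖ * ‖z‖ ≤ ‖a‖ * 1 := mul_le_mul_of_nonneg_left hz (norm_nonneg _)
      _ < 1 := by rw [mul_one]; exact ha
  have h2 := norm_sub_norm_le (1 : ℂ) (conj a * z)
  rw [norm_one] at h2
  linarith

private theorem ag_tau {z : ℂ} (hz : ‖z‖ < 1) : 0 < 1 - ‖z‖ ^ 2 := by
  have := norm_nonneg z
  nlinarith

namespace Act

theorem norm_act_le (g : Γ) {z : ℂ} (hz : ‖z‖ ≤ 1) : ‖A.act g z‖ ≤ 1 :=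
  (A.iso g).norm_le_one hz

theorem norm_act_lt (g : Γ) {z : ℂ} (hz : ‖z‖ < 1) : ‖A.act g z‖ < 1 :=
  (A.iso g).norm_lt_one hz

theorem norm_act_eq (g : Γ) {z : ℂ} (hz : ‖z‖ = 1) : ‖A.act g z‖ = 1 :=
  (A.iso g).norm_eq_one hz

theorem measurable_act (g : Γ) : Measurable (A.act g) := (A.iso g).measurable

theorem inv_act_act (g : Γ) {z : ℂ} (hz : ‖z‖ ≤ 1) : A.act g⁻¹ (A.act g z) = z := by
  rw [← A.mul g⁻¹ g z hz, inv_mul_cancel, A.one z hz]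

theorem act_inv_act (g : Γ) {z : ℂ} (hz : ‖z‖ ≤ 1) : A.act g (A.act g⁻¹ z) = z := by
  rw [← A.mul g g⁻¹ z hz, mul_inv_cancel, A.one z hz]

private theorem ag_zero_lt (g : Γ) : ‖A.act g 0‖ < 1 := A.norm_act_lt g (by simp)

theorem t_pos (g : Γ) : 0 < A.t g := ag_tau (A.ag_zero_lt g)

theorem t_le_one (g : Γ) : A.t g ≤ 1 := by
  unfold t
  have : 0 ≤ ‖A.act g 0‖ ^ 2 := by positivity
  linarith

theorem t_one : A.t 1 = 1 := by
  unfold t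
  rw [A.one 0 (by simp)]
  simp

private theorem ag_key (g : Γ) : A.t g = 1 - ‖A.act g⁻¹ 0‖ ^ 2 ∧
    (∀ z w : ℂ, ‖z‖ ≤ 1 → ‖w‖ ≤ 1 →
      ‖A.act g z - A.act g w‖ ^ 2 = A.J g z * A.J g w * ‖z - w‖ ^ 2) ∧
    (∀ z : ℂ, ‖z‖ ≤ 1 → 1 - ‖A.act g z‖ ^ 2 = A.J g z * (1 - ‖z‖ ^ 2)) := by
  obtain ⟨a, ha, ha0, hn, hd, ht⟩ := (A.iso g).exists_zero
  have h1 : A.act g⁻¹ 0 = a := by
    rw [← ha0]
    exact A.inv_act_act g ha.le
  have h2 : A.t g = 1 - ‖a‖ ^ 2 := by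
    unfold t
    rw [hn]
  have hJ : ∀ z, A.J g z = (1 - ‖a‖ ^ 2) / ‖1 - conj a * z‖ ^ 2 := by
    intro z
    unfold J
    rw [h1, h2]
  refine ⟨by rw [h1]; exact h2, fun z w hz hw => ?_, fun z hz => ?_⟩
  · rw [hJ, hJ]
    exact hd z w hz hw
  · rw [hJ]
    exact ht z hz

theorem t_inv (g : Γ) : A.t g⁻¹ = A.t g := by
  rw [(A.ag_key g).1]
  rfl

theorem J_pos (g : Γ) {z : ℂ} (hz : ‖z‖ ≤ 1) : 0 < A.J g z := by
  have h1 := ag_den (A.ag_zero_lt g⁻¹) hz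
  exact div_pos (A.t_pos g) (by positivity)

theorem J_zero (g : Γ) : A.J g 0 = A.t g := by
  unfold J
  simp

theorem J_lower (g : Γ) {z : ℂ} (hz : ‖z‖ ≤ 1) : A.t g / 4 ≤ A.J g z := by
  have h1 := ag_den (A.ag_zero_lt g⁻¹) hz
  unfold J
  apply div_le_div_of_nonneg_left (A.t_pos g).le (by positivity)
  have h2 : ‖1 - conj (A.act g⁻¹ 0) * z‖ ≤ 2 := by
    refine (norm_sub_le _ _).trans ?_
    rw [norm_one, norm_mul, RCLike.norm_conj]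
    have h3 := (A.ag_zero_lt g⁻¹).le
    have h4 := norm_nonneg z
    nlinarith [norm_nonneg (A.act g⁻¹ 0)]
  nlinarith

theorem J_upper (g : Γ) {z : ℂ} (hz : ‖z‖ < 1) : A.J g z ≤ A.t g / (1 - ‖z‖) ^ 2 := by
  have h1 := ag_den (A.ag_zero_lt g⁻¹) hz.le
  unfold J
  have h5 : 0 < 1 - ‖z‖ := by linarith
  apply div_le_div_of_nonneg_left (A.t_pos g).le (by positivity)
  have h2 : 1 - ‖z‖ ≤ ‖1 - conj (A.act g⁻¹ 0) * z‖ := by
    have h3 := norm_sub_norm_le (1 : ℂ) (conj (A.act g⁻¹ 0) * z)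
    rw [norm_one, norm_mul, RCLike.norm_conj] at h3
    have h4 := (A.ag_zero_lt g⁻¹).le
    nlinarith [norm_nonneg z]
  exact pow_le_pow_left₀ h5.le h2 2

private theorem ag_circle_norm {a η : ℂ} (hη : ‖η‖ = 1) : ‖1 - conj a * η‖ = ‖η - a‖ := by
  have h1 := norm_one_sub_conj_mul_sq a η
  rw [hη, one_pow, sub_self, mul_zero, add_zero, norm_sub_rev a η] at h1
  exact (pow_left_inj₀ (norm_nonneg _) (norm_nonneg _) two_ne_zero).1 h1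

theorem J_circle (g : Γ) {η : ℂ} (hη : ‖η‖ = 1) :
    A.J g η = A.t g / ‖η - A.act g⁻¹ 0‖ ^ 2 := by
  unfold J
  rw [ag_circle_norm hη]

theorem dist_act (g : Γ) {z w : ℂ} (hz : ‖z‖ ≤ 1) (hw : ‖w‖ ≤ 1) :
    ‖A.act g z - A.act g w‖ ^ 2 = A.J g z * A.J g w * ‖z - w‖ ^ 2 :=
  (A.ag_key g).2.1 z w hz hw

theorem tau_act (g : Γ) {z : ℂ} (hz : ‖z‖ ≤ 1) :
    1 - ‖A.act g z‖ ^ 2 = A.J g z * (1 - ‖z‖ ^ 2) :=
  (A.ag_key g).2.2 z hz

/-- `|g η - g 0| |η - g⁻¹ 0| = t(g)` for `η` on the circle. -/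
theorem circle_dist (g : Γ) {η : ℂ} (hη : ‖η‖ = 1) :
    ‖A.act g η - A.act g 0‖ * ‖η - A.act g⁻¹ 0‖ = A.t g := by
  have h1 := A.dist_act g hη.le (by simp : ‖(0 : ℂ)‖ ≤ 1)
  rw [A.J_circle g hη, A.J_zero, sub_zero, hη, one_pow, mul_one] at h1
  have h2 : 0 < ‖η - A.act g⁻¹ 0‖ := by
    have h3 := norm_sub_norm_le η (A.act g⁻¹ 0)
    have h4 := A.ag_zero_lt g⁻¹
    rw [hη] at h3
    linarith
  have h3 : (‖A.act g η - A.act g 0‖ * ‖η - A.act g⁻¹ 0‖) ^ 2 = A.t g ^ 2 := by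
    rw [mul_pow, h1]
    field_simp
  exact (pow_left_inj₀ (by positivity) (A.t_pos g).le two_ne_zero).1 h3

theorem kap_act (g : Γ) {z w : ℂ} (hz : ‖z‖ < 1) (hw : ‖w‖ < 1) :
    kap (A.act g z) (A.act g w) = kap z w := by
  unfold kap
  rw [norm_one_sub_conj_mul_sq, A.dist_act g hz.le hw.le, A.tau_act g hz.le, A.tau_act g hw.le,
    norm_one_sub_conj_mul_sq z w]
  have h1 := A.J_pos g hz.le
  have h2 := A.J_pos g hw.le
  have h3 := ag_tau hz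
  have h4 := ag_tau hw
  have h5 : 0 < ‖z - w‖ ^ 2 + (1 - ‖z‖ ^ 2) * (1 - ‖w‖ ^ 2) := by positivity
  rw [div_eq_div_iff (by positivity) h5.ne']
  ring

theorem kap_orbit (g h : Γ) : kap (A.act g 0) (A.act h 0) = A.t (g⁻¹ * h) := by
  have h0 : ‖(0 : ℂ)‖ ≤ 1 := by simp
  rw [← A.kap_act g⁻¹ (A.ag_zero_lt g) (A.ag_zero_lt h), A.inv_act_act g h0,
    ← A.mul g⁻¹ h 0 h0]
  unfold kap t
  simp

theorem kap_orbit_left (g : Γ) {z : ℂ} (hz : ‖z‖ < 1) :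
    kap (A.act g 0) z = 1 - ‖A.act g⁻¹ z‖ ^ 2 := by
  have h0 : ‖(0 : ℂ)‖ ≤ 1 := by simp
  rw [← A.kap_act g⁻¹ (A.ag_zero_lt g) hz, A.inv_act_act g h0]
  unfold kap
  simp

theorem t_mul_lower (g h : Γ) : A.t g * A.t h / 4 ≤ A.t (g * h) := by
  have h0 : ‖(0 : ℂ)‖ ≤ 1 := by simp
  have h1 : A.t (g * h) = A.J g (A.act h 0) * A.t h := by
    have h2 := A.tau_act g (A.ag_zero_lt h).le
    rw [← A.mul g h 0 h0] at h2
    exact h2
  rw [h1]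
  calc A.t g * A.t h / 4 = A.t g / 4 * A.t h := by ring
    _ ≤ _ := mul_le_mul_of_nonneg_right (A.J_lower g (A.ag_zero_lt h).le) (A.t_pos h).le

theorem finite_t {ε : ℝ} (hε : 0 < ε) : {g | ε ≤ A.t g}.Finite := by
  have h1 : Real.sqrt (1 - ε) < 1 := by
    rw [Real.sqrt_lt' one_pos]
    linarith
  refine (A.discrete _ h1).subset ?_
  intro g hg
  have hg' : ε ≤ A.t g := hg
  apply Real.le_sqrt_of_sq_le
  unfold t at hg'
  linarith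

end Act

theorem kap_pos {z w : ℂ} (hz : ‖z‖ < 1) (hw : ‖w‖ < 1) : 0 < kap z w := by
  have h3 := ag_tau hz
  have h4 := ag_tau hw
  have h5 := ag_den hz hw.le
  unfold kap
  positivity

theorem kap_le_one {z w : ℂ} (hz : ‖z‖ < 1) (hw : ‖w‖ < 1) : kap z w ≤ 1 := by
  have h3 := ag_tau hz
  have h4 := ag_tau hw
  have h5 := ag_den hz hw.le
  unfold kap
  rw [div_le_one (by positivity), norm_one_sub_conj_mul_sq]
  have : 0 ≤ ‖z - w‖ ^ 2 := by positivity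
  linarith

end Pool.Agent.Lib.KLG
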