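import Pool.Agent.Lib.MP_a137af_pr.Defs

/-!
# MP_b16327_pr, MP_90a4ef_pr: definitions

Generalisation of `MP_a137af_pr` to discrete (not necessarily cocompact) groups and to finitely
supported measures whose support generates the group only as a group.

* `Act Γ`: a discrete action of a group by isometries of the hyperbolic disc.
* `Walk Γ`: a finitely supported step distribution; `P`, `hit`, `F`, `bd`.
* `Stationary`, `pf`, `Std`.
* `Tst`, `Hyp`: test functions of small scale.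
* `th`: the Hellinger function.
-/

set_option autoImplicit false
open MeasureTheory Set Filter Topology
open scoped ENNReal ComplexConjugate

namespace Pool.Agent.Lib.KLG

open Pool.Agent.Lib.KLP (mob IsMob IsAntiMob IsDiscIso circ pk kap LebPt)

/-- A discrete action of the group `Γ` on the closed unit disc by isometries of the hyperbolic
disc. -/
structure Act (Γ : Type*) [Group Γ] where
  act : Γ → ℂ → ℂ
  iso : ∀ g, IsDiscIso (act g)
  one : ∀ z, ‖z‖ ≤ 1 → act 1 z = z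
  mul : ∀ g h z, ‖z‖ ≤ 1 → act (g * h) z = act g (act h z)
  discrete : ∀ ρ : ℝ, ρ < 1 → {g | ‖act g 0‖ ≤ ρ}.Finite

section geometry

variable {Γ : Type*} [Group Γ]

/-- The height `1 - |g 0|²` of the orbit point `g 0`. -/
noncomputable def Act.t (A : Act Γ) (g : Γ) : ℝ := 1 - ‖A.act g 0‖ ^ 2

/-- The conformal factor `|g'(z)|`. -/
noncomputable def Act.J (A : Act Γ) (g : Γ) (z : ℂ) : ℝ :=
  A.t g / ‖1 - conj (A.act g⁻¹ 0) * z‖ ^ 2

/-- Elements of `Γ` whose orbit point is within `r` of `ξ`. -/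
def Act.U (A : Act Γ) (ξ : ℂ) (r : ℝ) : Set Γ := {y | ‖A.act y 0 - ξ‖ < r}

/-- The action is cocompact. -/
def Act.Coc (A : Act Γ) : Prop := ∃ ρ : ℝ, ρ < 1 ∧ ∀ z, ‖z‖ < 1 → ∃ g, ‖A.act g z‖ ≤ ρ

/-- A cocompact action as a `KLP.DAct`. -/
def Act.toDAct (A : Act Γ) (h : A.Coc) : KLP.DAct Γ where
  act := A.act
  iso := A.iso
  one := A.one
  mul := A.mul
  discrete := A.discrete
  cocompact := h

end geometry

/-- A finitely supported probability measure on `Γ`. -/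
structure Walk (Γ : Type*) [Group Γ] where
  S : Finset Γ
  μ : Γ → ℝ
  pos : ∀ s ∈ S, 0 < μ s
  sum_eq : ∑ s ∈ S, μ s = 1

namespace Walk

variable {Γ : Type*} [Group Γ] (W : Walk Γ)

/-- The Markov operator `P f (w) = ∑ μ(s) f(w s)`. -/
noncomputable def P (f : Γ → ℝ≥0∞) (w : Γ) : ℝ≥0∞ :=
  ∑ s ∈ W.S, ENNReal.ofReal (W.μ s) * f (w * s)

open Classical in
/-- `hitN U f n w = E_w[f(X_τ); τ ≤ n]`, `τ` the hitting time of `U`. -/
noncomputable def hitN (U : Set Γ) (f : Γ → ℝ≥0∞) : ℕ → Γ → ℝ≥0∞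
  | 0, w => if w ∈ U then f w else 0
  | n + 1, w => if w ∈ U then f w else W.P (hitN U f n) w

/-- `hit U f w = E_w[f(X_τ); τ < ∞]`, `τ` the hitting time of `U`. -/
noncomputable def hit (U : Set Γ) (f : Γ → ℝ≥0∞) (w : Γ) : ℝ≥0∞ := ⨆ n, W.hitN U f n w

/-- Hitting probability of a point. -/
noncomputable def F (w x : Γ) : ℝ≥0∞ := W.hit {x} (fun _ => 1) w

/-- The (inner) boundary of `U` for the walk. -/
def bd (U : Set Γ) : Set Γ := {y | y ∈ U ∧ ∃ s ∈ W.S, y * s⁻¹ ∉ U}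

/-- The walk visits every point with probability tending to `0` (transience). -/
def Transient : Prop :=
  ∀ g w : Γ, Tendsto (fun n : ℕ => (W.P^[n] (Set.indicator {g} (fun _ => (1 : ℝ≥0∞)))) w)
    atTop (𝓝 0)

end Walk

section stationary

variable {Γ : Type*} [Group Γ]

/-- `ν` is `μ`-stationary. -/
def Stationary (A : Act Γ) (W : Walk Γ) (ν : Measure ℂ) : Prop :=
  ν = ∑ s ∈ W.S, ENNReal.ofReal (W.μ s) • ν.map (A.act s)

/-- `pf A ν E w = (w_* ν)(E)`. -/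
noncomputable def pf (A : Act Γ) (ν : Measure ℂ) (E : Set ℂ) (w : Γ) : ℝ≥0∞ :=
  ν.map (A.act w) E

/-- Standing assumptions. -/
structure Std (A : Act Γ) (W : Walk Γ) (ν : Measure ℂ) : Prop where
  prob : IsProbabilityMeasure ν
  onT : ∀ᵐ z ∂ν, ‖z‖ = 1
  stat : Stationary A W ν
  na : ∀ z, ν {z} = 0
  nofix : ∀ ζ : ℂ, ‖ζ‖ = 1 → ∃ s ∈ W.S, A.act s ζ ≠ ζ
  inf : Infinite (Subgroup.closure (W.S : Set Γ))

/-- The probability that the walk started at `1` enters `A.U ξ₀ ρ` at `y`. -/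
noncomputable def hm (A : Act Γ) (W : Walk Γ) (ξ₀ : ℂ) (ρ : ℝ) (y : Γ) : ℝ≥0∞ :=
  W.hit (A.U ξ₀ ρ) (Set.indicator {y} (fun _ => 1)) 1

end stationary

section test

/-- The closed polygon `{z | ∀ i, Re (z * conj (v i)) ≤ c i}`. -/
def poly {n : ℕ} (v : Fin n → ℂ) (c : Fin n → ℝ) : Set ℂ := {z | ∀ i, (z * conj (v i)).re ≤ c i}

/-- Test functions of scale `ε`: bounded by one, with integral at most `(n + 1) ε` over the part
of the circle inside any intersection of `n` half-planes. -/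
structure Tst (ε : ℝ) (ψ : ℂ → ℂ) : Prop where
  meas : Measurable ψ
  bdd : ∀ z, ‖ψ z‖ ≤ 1
  small : ∀ (n : ℕ) (v : Fin n → ℂ) (c : Fin n → ℝ),
    ‖∫ z in poly v c, ψ z ∂circ‖ ≤ ((n : ℝ) + 1) * ε

/-- `ν` tests all functions of scale `ε` to at most `ω`. -/
def Hyp (ν : Measure ℂ) (ε ω : ℝ) : Prop := ∀ ψ : ℂ → ℂ, Tst ε ψ → ‖∫ z, ψ z ∂ν‖ ≤ ω

/-- The Hellinger function `∫ ν(B(ξ,r))^{1/2} dm(ξ)`. -/
noncomputable def th (ν : Measure ℂ) (r : ℝ) : ℝ≥0∞ :=
  ∫⁻ ξ, (ν (Metric.closedBall ξ r)) ^ (1 / 2 : ℝ) ∂circ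

end test

end Pool.Agent.Lib.KLG
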