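import Pool.Agent.Lib.MP_b16327_pr.Defs
import Pool.Agent.Lib.MP_b16327_pr.ActGeom
import Pool.Agent.Lib.MP_a137af_pr.CircMap
import Pool.Agent.Lib.MP_a137af_pr.IsomClass

section

section

/-!
# M1: hitting operators, basic properties
-/

set_option autoImplicit false
open MeasureTheory Set Filter Topology
open scoped ENNReal ComplexConjugate

namespace Pool.Agent.Lib.KLG

open Pool.Agent.Lib.KLP

variable {Γ : Type*} [Group Γ] (W : Walk Γ)

namespace Walk

theorem P_mono {f g : Γ → ℝ≥0∞} (h : ∀ w, f w ≤ g w) (w : Γ) : W.P f w ≤ W.P g w := by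
  unfold P
  gcongr
  exact h _

private theorem sum_ofReal : ∑ s ∈ W.S, ENNReal.ofReal (W.μ s) = 1 := by
  rw [← ENNReal.ofReal_sum_of_nonneg (fun s hs => (W.pos s hs).le), W.sum_eq, ENNReal.ofReal_one]

theorem P_const (a : ℝ≥0∞) (w : Γ) : W.P (fun _ => a) w = a := by
  unfold P
  rw [← Finset.sum_mul, sum_ofReal, one_mul]

private theorem hitN_mem {U : Set Γ} {f : Γ → ℝ≥0∞} {w : Γ} (h : w ∈ U) (n : ℕ) :
    W.hitN U f n w = f w := by
  cases n <;> simp [hitN, h]

private theorem hitN_not_mem_zero {U : Set Γ} {f : Γ → ℝ≥0∞} {w : Γ} (h : w ∉ U) :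
    W.hitN U f 0 w = 0 := by
  simp [hitN, h]

private theorem hitN_not_mem_succ {U : Set Γ} {f : Γ → ℝ≥0∞} {w : Γ} (h : w ∉ U) (n : ℕ) :
    W.hitN U f (n + 1) w = W.P (W.hitN U f n) w := by
  simp [hitN, h]

theorem hitN_mono (U : Set Γ) (f : Γ → ℝ≥0∞) (w : Γ) : Monotone (fun n => W.hitN U f n w) := by
  have key : ∀ n, ∀ w, W.hitN U f n w ≤ W.hitN U f (n + 1) w := by
    intro n
    induction n with
    | zero =>
      intro w
      by_cases hw : w ∈ U
      · rw [hitN_mem W hw, hitN_mem W hw]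
      · rw [hitN_not_mem_zero W hw]
        exact zero_le
    | succ n ih =>
      intro w
      by_cases hw : w ∈ U
      · rw [hitN_mem W hw, hitN_mem W hw]
      · rw [hitN_not_mem_succ W hw, hitN_not_mem_succ W hw]
        exact W.P_mono ih w
  exact monotone_nat_of_le_succ fun n => key n w

theorem hit_of_mem {U : Set Γ} {f : Γ → ℝ≥0∞} {w : Γ} (h : w ∈ U) : W.hit U f w = f w := by
  unfold hit
  simp only [hitN_mem W h]
  exact ciSup_const

theorem hit_of_not_mem {U : Set Γ} {f : Γ → ℝ≥0∞} {w : Γ} (h : w ∉ U) :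
    W.hit U f w = W.P (W.hit U f) w := by
  have h1 : W.hit U f w = ⨆ n, W.hitN U f (n + 1) w := by
    unfold hit
    exact ((W.hitN_mono U f w).iSup_nat_add 1).symm
  rw [h1]
  simp only [hitN_not_mem_succ W h]
  unfold P hit
  rw [← ENNReal.finsetSum_iSup_of_monotone]
  · refine Finset.sum_congr rfl fun s _ => ?_
    rw [ENNReal.mul_iSup]
  · intro s a b hab
    exact mul_le_mul_right (W.hitN_mono U f (w * s) hab) _

theorem hit_le {U : Set Γ} {f g : Γ → ℝ≥0∞} (h1 : ∀ w ∈ U, f w ≤ g w)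
    (h2 : ∀ w, w ∉ U → W.P g w ≤ g w) (w : Γ) : W.hit U f w ≤ g w := by
  have key : ∀ n, ∀ w, W.hitN U f n w ≤ g w := by
    intro n
    induction n with
    | zero =>
      intro w
      by_cases hw : w ∈ U
      · rw [hitN_mem W hw]; exact h1 w hw
      · rw [hitN_not_mem_zero W hw]
        exact zero_le
    | succ n ih =>
      intro w
      by_cases hw : w ∈ U
      · rw [hitN_mem W hw]; exact h1 w hw
      · rw [hitN_not_mem_succ W hw]
        exact (W.P_mono ih w).trans (h2 w hw)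
  exact iSup_le fun n => key n w

theorem hit_mono {U : Set Γ} {f g : Γ → ℝ≥0∞} (h : ∀ w ∈ U, f w ≤ g w) (w : Γ) :
    W.hit U f w ≤ W.hit U g w := by
  refine hit_le W (fun w hw => ?_) (fun w hw => ?_) w
  · rw [hit_of_mem W hw]; exact h w hw
  · rw [← hit_of_not_mem W hw]

private theorem hitN_const_mul (a : ℝ≥0∞) (U : Set Γ) (f : Γ → ℝ≥0∞) (n : ℕ) (w : Γ) :
    W.hitN U (fun x => a * f x) n w = a * W.hitN U f n w := by
  induction n generalizing w with
  | zero =>
    by_cases hw : w ∈ U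
    · rw [hitN_mem W hw, hitN_mem W hw]
    · rw [hitN_not_mem_zero W hw, hitN_not_mem_zero W hw, mul_zero]
  | succ n ih =>
    by_cases hw : w ∈ U
    · rw [hitN_mem W hw, hitN_mem W hw]
    · rw [hitN_not_mem_succ W hw, hitN_not_mem_succ W hw]
      unfold P
      rw [Finset.mul_sum]
      refine Finset.sum_congr rfl fun s _ => ?_
      rw [ih]
      ring

theorem hit_const_mul (a : ℝ≥0∞) (U : Set Γ) (f : Γ → ℝ≥0∞) (w : Γ) :
    W.hit U (fun x => a * f x) w = a * W.hit U f w := by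
  unfold hit
  simp only [hitN_const_mul]
  rw [ENNReal.mul_iSup]

private theorem hitN_add (U : Set Γ) (f g : Γ → ℝ≥0∞) (n : ℕ) (w : Γ) :
    W.hitN U (fun x => f x + g x) n w = W.hitN U f n w + W.hitN U g n w := by
  induction n generalizing w with
  | zero =>
    by_cases hw : w ∈ U
    · simp only [hitN_mem W hw]
    · simp only [hitN_not_mem_zero W hw, add_zero]
  | succ n ih =>
    by_cases hw : w ∈ U
    · simp only [hitN_mem W hw]
    · simp only [hitN_not_mem_succ W hw]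
      unfold P
      rw [← Finset.sum_add_distrib]
      refine Finset.sum_congr rfl fun s _ => ?_
      rw [ih]
      ring

theorem hit_add (U : Set Γ) (f g : Γ → ℝ≥0∞) (w : Γ) :
    W.hit U (fun x => f x + g x) w = W.hit U f w + W.hit U g w := by
  unfold hit
  simp only [hitN_add]
  rw [ENNReal.iSup_add_iSup_of_monotone (W.hitN_mono U f w) (W.hitN_mono U g w)]

private theorem hitN_eq_tsum (U : Set Γ) (f : Γ → ℝ≥0∞) (n : ℕ) (w : Γ) :
    W.hitN U f n w = ∑' y, f y * W.hitN U (Set.indicator {y} (fun _ => 1)) n w := by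
  have hmem : ∀ n (w : Γ), w ∈ U →
      W.hitN U f n w = ∑' y, f y * W.hitN U (Set.indicator {y} (fun _ => 1)) n w := by
    intro n w hw
    rw [hitN_mem W hw, tsum_eq_single w]
    · rw [hitN_mem W hw]
      simp
    · intro y hy
      rw [hitN_mem W hw, Set.indicator_of_notMem (by simpa using hy.symm), mul_zero]
  induction n generalizing w with
  | zero =>
    by_cases hw : w ∈ U
    · exact hmem 0 w hw
    · simp only [hitN_not_mem_zero W hw, mul_zero, tsum_zero]
  | succ n ih =>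
    by_cases hw : w ∈ U
    · exact hmem _ w hw
    · simp only [hitN_not_mem_succ W hw]
      unfold P
      simp only [Finset.mul_sum]
      rw [Summable.tsum_finsetSum (fun _ _ => ENNReal.summable)]
      refine Finset.sum_congr rfl fun s _ => ?_
      rw [ih, ← ENNReal.tsum_mul_left]
      refine tsum_congr fun y => ?_
      ring

theorem hit_eq_tsum (U : Set Γ) (f : Γ → ℝ≥0∞) (w : Γ) :
    W.hit U f w = ∑' y, f y * W.hit U (Set.indicator {y} (fun _ => 1)) w := by
  have h1 : W.hit U f w =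
      ⨆ n, ∑' y, f y * W.hitN U (Set.indicator {y} (fun _ => 1)) n w := by
    unfold hit
    simp only [← hitN_eq_tsum]
  rw [h1]
  unfold hit
  simp only [ENNReal.mul_iSup]
  let _ : MeasurableSpace Γ := ⊤
  have h2 : ∀ g : Γ → ℝ≥0∞, ∑' y, g y = ∫⁻ y, g y ∂(Measure.count : Measure Γ) := fun g =>
    (lintegral_count g).symm
  simp only [h2]
  rw [lintegral_iSup (fun n => measurable_from_top)]
  intro a b hab y
  exact mul_le_mul_right (W.hitN_mono U _ w hab) _

end Walk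

end Pool.Agent.Lib.KLG
end

section

/-!
# M2: hitting operators and hitting probabilities
-/

set_option autoImplicit false
open MeasureTheory Set Filter Topology
open scoped ENNReal ComplexConjugate

namespace Pool.Agent.Lib.KLG

open Pool.Agent.Lib.KLP

variable {Γ : Type*} [Group Γ] (W : Walk Γ)

namespace Walk

private theorem hitN_mem' {U : Set Γ} {f : Γ → ℝ≥0∞} {w : Γ} (h : w ∈ U) (n : ℕ) :
    W.hitN U f n w = f w := by
  cases n <;> simp [hitN, h]

private theorem hitN_zero' {U : Set Γ} {f : Γ → ℝ≥0∞} {w : Γ} (h : w ∉ U) :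
    W.hitN U f 0 w = 0 := by
  simp [hitN, h]

private theorem hitN_succ' {U : Set Γ} {f : Γ → ℝ≥0∞} {w : Γ} (h : w ∉ U) (n : ℕ) :
    W.hitN U f (n + 1) w = W.P (W.hitN U f n) w := by
  simp [hitN, h]

theorem hit_bd {U : Set Γ} {f : Γ → ℝ≥0∞} {w : Γ} (hw : w ∉ U) :
    W.hit U f w = W.hit U (Set.indicator (W.bd U) f) w := by
  have key : ∀ n, ∀ w, w ∉ U → W.hitN U f n w = W.hitN U (Set.indicator (W.bd U) f) n w := by
    intro n
    induction n with
    | zero =>
      intro w hw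
      rw [hitN_zero' W hw, hitN_zero' W hw]
    | succ n ih =>
      intro w hw
      rw [hitN_succ' W hw, hitN_succ' W hw]
      unfold P
      refine Finset.sum_congr rfl fun s hs => ?_
      by_cases h : w * s ∈ U
      · rw [hitN_mem' W h, hitN_mem' W h, Set.indicator_of_mem]
        exact ⟨h, s, hs, by rwa [mul_inv_cancel_right]⟩
      · rw [ih _ h]
  unfold hit
  exact iSup_congr fun n => key n w hw

theorem F_self (w : Γ) : W.F w w = 1 := by
  unfold F
  rw [hit_of_mem W (mem_singleton w)]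

theorem F_le_one (w x : Γ) : W.F w x ≤ 1 := by
  unfold F
  exact hit_le W (fun _ _ => le_rfl) (fun v _ => (W.P_const 1 v).le) w

theorem F_harmonic {w x : Γ} (h : w ≠ x) : W.F w x = W.P (fun v => W.F v x) w := by
  unfold F
  exact hit_of_not_mem W h

theorem F_superharmonic (w x : Γ) : W.P (fun v => W.F v x) w ≤ W.F w x := by
  by_cases h : w = x
  · subst h
    rw [F_self]
    calc W.P (fun v => W.F v w) w ≤ W.P (fun _ => 1) w := W.P_mono (fun v => W.F_le_one v w) w
      _ = 1 := W.P_const 1 w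
  · exact (F_harmonic W h).symm.le

theorem F_mul_le {f : Γ → ℝ≥0∞} (hf : ∀ w, W.P f w ≤ f w) (w y : Γ) :
    W.F w y * f y ≤ f w := by
  have h1 : W.F w y * f y = W.hit {y} (fun _ => f y * 1) w := by
    rw [hit_const_mul W (f y) {y} (fun _ => 1) w, mul_comm]
    rfl
  rw [h1]
  refine hit_le W (fun v hv => ?_) (fun v _ => hf v) w
  rw [mem_singleton_iff] at hv
  rw [hv, mul_one]

theorem F_mul_F_le (w y x : Γ) : W.F w y * W.F y x ≤ W.F w x :=
  F_mul_le W (f := fun v => W.F v x) (fun v => F_superharmonic W v x) w y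

theorem F_mul_left (g w x : Γ) : W.F (g * w) (g * x) = W.F w x := by
  have key : ∀ n, ∀ w, W.hitN {g * x} (fun _ => 1) n (g * w) = W.hitN {x} (fun _ => 1) n w := by
    intro n
    induction n with
    | zero =>
      intro w
      by_cases h : w = x
      · subst h
        rw [hitN_mem' W (mem_singleton _), hitN_mem' W (mem_singleton _)]
      · rw [hitN_zero' W (by rw [mem_singleton_iff, mul_right_inj]; exact h),
          hitN_zero' W (by rw [mem_singleton_iff]; exact h)]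
    | succ n ih =>
      intro w
      by_cases h : w = x
      · subst h
        rw [hitN_mem' W (mem_singleton _), hitN_mem' W (mem_singleton _)]
      · rw [hitN_succ' W (by rw [mem_singleton_iff, mul_right_inj]; exact h),
          hitN_succ' W (by rw [mem_singleton_iff]; exact h)]
        unfold P
        refine Finset.sum_congr rfl fun s _ => ?_
        rw [mul_assoc, ih]
  unfold F hit
  exact iSup_congr fun n => key n w

theorem le_F_step {s : Γ} (hs : s ∈ W.S) (w : Γ) : ENNReal.ofReal (W.μ s) ≤ W.F w (w * s) := by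
  by_cases h : w = w * s
  · rw [← h, F_self, ← ENNReal.ofReal_one]
    apply ENNReal.ofReal_le_ofReal
    rw [← W.sum_eq]
    exact Finset.single_le_sum (f := W.μ) (fun t ht => (W.pos t ht).le) hs
  · rw [F_harmonic W h]
    unfold P
    have h1 : ENNReal.ofReal (W.μ s) * W.F (w * s) (w * s) ≤
        ∑ t ∈ W.S, ENNReal.ofReal (W.μ t) * W.F (w * t) (w * s) :=
      Finset.single_le_sum (f := fun t => ENNReal.ofReal (W.μ t) * W.F (w * t) (w * s))
        (fun _ _ => zero_le) hs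
    rwa [F_self, mul_one] at h1

theorem F_step_ne_zero {s : Γ} (hs : s ∈ W.S) (w : Γ) : W.F w (w * s) ≠ 0 := by
  intro h
  have h1 := W.le_F_step hs w
  rw [h] at h1
  exact absurd h1 (not_le.2 (ENNReal.ofReal_pos.2 (W.pos s hs)))

theorem hit_single_le_F {V : Set Γ} {y : Γ} (hy : y ∈ V) (w : Γ) :
    W.hit V (Set.indicator {y} (fun _ => 1)) w ≤ W.F w y := by
  refine hit_le W (g := fun v => W.F v y) (fun v hv => ?_) (fun v _ => F_superharmonic W v y) w
  by_cases h : v = y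
  · subst h
    rw [F_self]
    simp
  · rw [Set.indicator_of_notMem (by rwa [mem_singleton_iff])]
    exact zero_le

theorem hit_le_tsum (U : Set Γ) (f : Γ → ℝ≥0∞) (w : Γ) :
    W.hit U f w ≤ ∑' y, Set.indicator U (fun y => W.F w y * f y) y := by
  rw [hit_eq_tsum]
  refine ENNReal.tsum_le_tsum fun y => ?_
  by_cases hy : y ∈ U
  · rw [Set.indicator_of_mem hy, mul_comm (f y)]
    exact mul_le_mul_left (W.hit_single_le_F hy w) _
  · rw [Set.indicator_of_notMem hy]
    have h0 : W.hit U (Set.indicator {y} (fun _ => 1)) w ≤ 0 := by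
      refine hit_le W (g := fun _ => 0) (fun v hv => ?_) (fun v _ => (W.P_const 0 v).le) w
      rw [Set.indicator_of_notMem]
      rw [mem_singleton_iff]
      rintro rfl
      exact hy hv
    rw [nonpos_iff_eq_zero] at h0
    rw [h0, mul_zero]

theorem hit_le_tsum_bd {U : Set Γ} (f : Γ → ℝ≥0∞) {w : Γ} (hw : w ∉ U) :
    W.hit U f w ≤ ∑' y, Set.indicator (W.bd U) (fun y => W.F w y * f y) y := by
  rw [hit_bd W hw]
  refine (hit_le_tsum W U _ w).trans ?_
  refine ENNReal.tsum_le_tsum fun y => ?_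
  by_cases hy : y ∈ W.bd U
  · rw [Set.indicator_of_mem hy, Set.indicator_of_mem hy.1, Set.indicator_of_mem hy]
  · by_cases hyU : y ∈ U
    · rw [Set.indicator_of_mem hyU, Set.indicator_of_notMem hy, Set.indicator_of_notMem hy, mul_zero]
    · rw [Set.indicator_of_notMem hyU]
      exact zero_le

end Walk

end Pool.Agent.Lib.KLG
end

section

/-!
# M3: decomposition at the hitting time
-/

set_option autoImplicit false
open MeasureTheory Set Filter Topology
open scoped ENNReal ComplexConjugate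

namespace Pool.Agent.Lib.KLG

open Pool.Agent.Lib.KLP

variable {Γ : Type*} [Group Γ]

private theorem decomp_P_add (W : Walk Γ) (f g : Γ → ℝ≥0∞) (w : Γ) :
    W.P (fun v => f v + g v) w = W.P f w + W.P g w := by
  unfold Walk.P
  rw [← Finset.sum_add_distrib]
  exact Finset.sum_congr rfl fun s _ => mul_add _ _ _

private theorem decomp_P_sum (W : Walk Γ) (K : Finset Γ) (C : ℝ≥0∞) (h : Γ → Γ → ℝ≥0∞) (w : Γ) :
    W.P (fun v => ∑ g ∈ K, C * h g v) w = ∑ g ∈ K, C * W.P (h g) w := by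
  unfold Walk.P
  simp_rw [Finset.mul_sum]
  rw [Finset.sum_comm]
  refine Finset.sum_congr rfl fun g _ => Finset.sum_congr rfl fun s _ => ?_
  ring

private theorem decomp_iter (W : Walk Γ) (K : Finset Γ) (ε C : ℝ≥0∞) (h : Γ → Γ → ℝ≥0∞) (n : ℕ) :
    (W.P^[n] (fun v => ε + ∑ g ∈ K, C * h g v)) =
      fun w => ε + ∑ g ∈ K, C * (W.P^[n] (h g)) w := by
  induction n with
  | zero => rfl
  | succ n ih =>
    rw [Function.iterate_succ_apply', ih]
    funext w
    rw [decomp_P_add W (fun _ => ε), W.P_const, decomp_P_sum W K C (fun g => W.P^[n] (h g))]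
    simp only [Function.iterate_succ_apply']

private theorem decomp_iter_mono (W : Walk Γ) {f g : Γ → ℝ≥0∞} (h : ∀ w, f w ≤ g w) (n : ℕ) :
    ∀ w, (W.P^[n] f) w ≤ (W.P^[n] g) w := by
  induction n with
  | zero => exact h
  | succ n ih =>
    intro w
    rw [Function.iterate_succ_apply', Function.iterate_succ_apply']
    exact W.P_mono ih w

theorem Walk.le_hit (W : Walk Γ) (htr : W.Transient) {U : Set Γ} {f : Γ → ℝ≥0∞} {C : ℝ≥0∞}
    (hC : C ≠ ∞) (hb : ∀ w, f w ≤ C) (harm : ∀ w, w ∉ U → f w = W.P f w)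
    (hvan : ∀ ε : ℝ≥0∞, 0 < ε → {w | w ∉ U ∧ ε ≤ f w}.Finite) (w : Γ) :
    f w ≤ W.hit U f w := by
  classical
  have h1 : ∀ n : ℕ, ∀ v, f v ≤ W.hitN U f n v + (W.P^[n] (Set.indicator Uᶜ f)) v := by
    intro n
    induction n with
    | zero =>
      intro v
      by_cases hv : v ∈ U
      · simp [Walk.hitN, hv]
      · simp [Walk.hitN, hv]
    | succ n ih =>
      intro v
      by_cases hv : v ∈ U
      · simp [Walk.hitN, hv]
      · rw [Function.iterate_succ_apply']
        simp only [Walk.hitN, hv, if_false]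
        rw [harm v hv, ← decomp_P_add]
        exact W.P_mono ih v
  apply ENNReal.le_of_forall_pos_le_add
  intro ε hε _
  have hε' : (0 : ℝ≥0∞) < ε := by exact_mod_cast hε
  set K := (hvan ε hε').toFinset with hK
  have h2 : ∀ v, Set.indicator Uᶜ f v ≤
      (ε : ℝ≥0∞) + ∑ g ∈ K, C * Set.indicator {g} (fun _ => (1 : ℝ≥0∞)) v := by
    intro v
    by_cases hv : v ∈ U
    · simp [hv]
    · rw [Set.indicator_of_mem (show v ∈ Uᶜ from hv)]
      by_cases he : (ε : ℝ≥0∞) ≤ f v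
      · have hvK : v ∈ K := by
          rw [hK, Set.Finite.mem_toFinset]
          exact ⟨hv, he⟩
        have h3 : C * Set.indicator {v} (fun _ => (1 : ℝ≥0∞)) v ≤
            ∑ g ∈ K, C * Set.indicator {g} (fun _ => (1 : ℝ≥0∞)) v :=
          Finset.single_le_sum (f := fun g => C * Set.indicator {g} (fun _ => (1 : ℝ≥0∞)) v)
            (fun _ _ => bot_le) hvK
        rw [Set.indicator_of_mem (Set.mem_singleton v), mul_one] at h3
        exact (hb v).trans (h3.trans le_add_self)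
      · exact (not_le.1 he).le.trans le_self_add
  have h3 : ∀ n : ℕ, f w ≤ W.hit U f w + ((ε : ℝ≥0∞) +
      ∑ g ∈ K, C * (W.P^[n] (Set.indicator {g} (fun _ => (1 : ℝ≥0∞)))) w) := by
    intro n
    refine (h1 n w).trans (add_le_add ?_ ?_)
    · exact le_iSup (fun n => W.hitN U f n w) n
    · have h4 := decomp_iter_mono W h2 n w
      rwa [decomp_iter W K (ε : ℝ≥0∞) C (fun g => Set.indicator {g} (fun _ => (1 : ℝ≥0∞))) n] at h4
  have h4 : Tendsto (fun n : ℕ => ∑ g ∈ K,
      C * (W.P^[n] (Set.indicator {g} (fun _ => (1 : ℝ≥0∞)))) w) atTop (𝓝 0) := by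
    have h5 : Tendsto (fun n : ℕ => ∑ g ∈ K,
        C * (W.P^[n] (Set.indicator {g} (fun _ => (1 : ℝ≥0∞)))) w) atTop
        (𝓝 (∑ g ∈ K, C * 0)) := by
      apply tendsto_finsetSum
      intro g _
      exact ENNReal.Tendsto.const_mul (htr g w) (Or.inr hC)
    simpa using h5
  have h5 : Tendsto (fun n : ℕ => W.hit U f w + ((ε : ℝ≥0∞) +
      ∑ g ∈ K, C * (W.P^[n] (Set.indicator {g} (fun _ => (1 : ℝ≥0∞)))) w)) atTop
      (𝓝 (W.hit U f w + ((ε : ℝ≥0∞) + 0))) :=
    tendsto_const_nhds.add (tendsto_const_nhds.add h4)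
  rw [add_zero] at h5
  exact ge_of_tendsto h5 (Eventually.of_forall h3)

end Pool.Agent.Lib.KLG
end
end

section

section

/-!
# G3: points at comparable height near a boundary point
-/

set_option autoImplicit false
open MeasureTheory Set Filter Topology
open scoped ENNReal ComplexConjugate

namespace Pool.Agent.Lib.KLG

open Pool.Agent.Lib.KLP

variable {Γ : Type*} [Group Γ]

theorem near_finite (A : Act Γ) {δ R : ℝ} (hδ : 0 < δ) (hR : 0 < R) :
    ∃ T : Finset Γ, ∀ (ξ : ℂ) (r : ℝ), ‖ξ‖ = 1 → 0 < r → ∀ y y' : Γ,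
      δ * r ≤ A.t y → δ * r ≤ A.t y' → ‖A.act y 0 - ξ‖ ≤ R * r → ‖A.act y' 0 - ξ‖ ≤ R * r →
      y⁻¹ * y' ∈ T := by
  have hε : 0 < δ ^ 2 / (8 * R ^ 2) := by positivity
  refine ⟨(A.finite_t hε).toFinset, fun ξ r hξ hr y y' h1 h2 h3 h4 => ?_⟩
  rw [Set.Finite.mem_toFinset, Set.mem_setOf_eq, ← A.kap_orbit]
  have hup : ∀ g : Γ, ‖A.act g 0 - ξ‖ ≤ R * r → A.t g ≤ 2 * R * r := by
    intro g hg
    have e1 : 1 - ‖A.act g 0‖ ≤ ‖A.act g 0 - ξ‖ := by
      have := norm_sub_norm_le ξ (A.act g 0)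
      rw [hξ, norm_sub_rev] at this
      exact this
    have e2 := A.norm_act_lt g (by simp : ‖(0 : ℂ)‖ < 1)
    have e3 := norm_nonneg (A.act g 0)
    have e4 : A.t g ≤ 2 * (1 - ‖A.act g 0‖) := by
      unfold Act.t
      nlinarith
    linarith
  have hy := hup y h3
  have hy' := hup y' h4
  have hty := A.t_pos y
  have hty' := A.t_pos y'
  have hd : ‖A.act y 0 - A.act y' 0‖ ≤ 2 * R * r := by
    have : A.act y 0 - A.act y' 0 = (A.act y 0 - ξ) - (A.act y' 0 - ξ) := by ring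
    rw [this]
    refine (norm_sub_le _ _).trans ?_
    linarith
  unfold kap
  rw [norm_one_sub_conj_mul_sq]
  have e1 : (1 - ‖A.act y 0‖ ^ 2) * (1 - ‖A.act y' 0‖ ^ 2) = A.t y * A.t y' := rfl
  rw [e1]
  have e2 : (δ * r) ^ 2 ≤ A.t y * A.t y' := by
    rw [sq]
    exact mul_le_mul h1 h2 (by positivity) hty.le
  have e3 : A.t y * A.t y' ≤ (2 * R * r) ^ 2 := by
    rw [sq]
    exact mul_le_mul hy hy' hty'.le (by positivity)
  have e4 : ‖A.act y 0 - A.act y' 0‖ ^ 2 ≤ (2 * R * r) ^ 2 :=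
    pow_le_pow_left₀ (norm_nonneg _) hd 2
  rw [div_le_div_iff₀ (by positivity) (by positivity)]
  have e5 : ‖A.act y 0 - A.act y' 0‖ ^ 2 + A.t y * A.t y' ≤ 8 * R ^ 2 * r ^ 2 := by nlinarith
  calc δ ^ 2 * (‖A.act y 0 - A.act y' 0‖ ^ 2 + A.t y * A.t y')
      ≤ δ ^ 2 * (8 * R ^ 2 * r ^ 2) := mul_le_mul_of_nonneg_left e5 (by positivity)
    _ = (δ * r) ^ 2 * (8 * R ^ 2) := by ring
    _ ≤ A.t y * A.t y' * (8 * R ^ 2) := mul_le_mul_of_nonneg_right e2 (by positivity)

end Pool.Agent.Lib.KLG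
end

section

/-!
# G2: one step of the walk
-/

set_option autoImplicit false
open MeasureTheory Set Filter Topology
open scoped ENNReal ComplexConjugate

namespace Pool.Agent.Lib.KLG

open Pool.Agent.Lib.KLP

variable {Γ : Type*} [Group Γ]

private theorem step_bounds_single (A : Act Γ) (s : Γ) :
    ∃ c C : ℝ, 0 < c ∧ c ≤ 1 ∧ 1 ≤ C ∧ ∀ w : Γ,
      c * A.t w ≤ A.t (w * s) ∧ A.t (w * s) ≤ C * A.t w ∧
      ‖A.act (w * s) 0 - A.act w 0‖ ≤ C * A.t w ∧
      ∀ ξ : ℂ, ‖ξ‖ = 1 → c * ‖A.act w 0 - ξ‖ ≤ ‖A.act (w * s) 0 - ξ‖ := by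
  have hz0 : ‖(0 : ℂ)‖ ≤ 1 := by simp
  set z : ℂ := A.act s 0 with hz
  have ha1 : ‖z‖ < 1 := A.norm_act_lt s (by simp)
  set a : ℝ := ‖z‖ with ha
  have ha0 : 0 ≤ a := norm_nonneg z
  have hts : A.t s = 1 - a ^ 2 := rfl
  have hts0 := A.t_pos s
  have hts1 := A.t_le_one s
  have h1a : 0 < 1 - a := by linarith
  have hC1 : 1 ≤ 1 / (1 - a) ^ 2 := by
    rw [one_le_div (by positivity)]
    nlinarith
  refine ⟨min (A.t s / 4) ((1 - a) / 2), 1 / (1 - a) ^ 2, lt_min (by positivity) (by positivity),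
    (min_le_left _ _).trans (by linarith), hC1, fun w => ?_⟩
  have hact : A.act (w * s) 0 = A.act w z := A.mul w s 0 hz0
  have htw := A.t_pos w
  have hJl := A.J_lower w ha1.le
  have hJu := A.J_upper w ha1
  have hJ0 := A.J_zero w
  have hJp := A.J_pos w ha1.le
  have htws : A.t (w * s) = A.J w z * A.t s := by
    have h1 := A.tau_act w ha1.le
    rw [← hact] at h1
    exact h1
  have hle1 : A.t (w * s) ≤ 1 / (1 - a) ^ 2 * A.t w := by
    rw [htws]
    calc A.J w z * A.t s ≤ A.J w z * 1 := mul_le_mul_of_nonneg_left hts1 hJp.le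
      _ ≤ A.t w / (1 - a) ^ 2 := by rw [mul_one]; exact hJu
      _ = _ := by ring
  refine ⟨?_, hle1, ?_, fun ξ hξ => ?_⟩
  · rw [htws]
    calc min (A.t s / 4) ((1 - a) / 2) * A.t w ≤ A.t s / 4 * A.t w :=
          mul_le_mul_of_nonneg_right (min_le_left _ _) htw.le
      _ = A.t w / 4 * A.t s := by ring
      _ ≤ _ := mul_le_mul_of_nonneg_right hJl hts0.le
  · rw [hact]
    have h1 := A.dist_act w ha1.le hz0
    rw [hJ0, sub_zero] at h1
    have h2 : ‖A.act w z - A.act w 0‖ ^ 2 ≤ (1 / (1 - a) ^ 2 * A.t w) ^ 2 := by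
      rw [h1]
      have h3 : ‖z‖ ^ 2 ≤ 1 := by
        have : ‖z‖ ^ 2 ≤ 1 ^ 2 := pow_le_pow_left₀ ha0 ha1.le 2
        simpa using this
      calc A.J w z * A.t w * ‖z‖ ^ 2 ≤ A.J w z * A.t w * 1 :=
            mul_le_mul_of_nonneg_left h3 (by positivity)
        _ ≤ A.t w / (1 - a) ^ 2 * A.t w := by
            rw [mul_one]; exact mul_le_mul_of_nonneg_right hJu htw.le
        _ = 1 / (1 - a) ^ 2 * A.t w ^ 2 := by ring
        _ ≤ (1 / (1 - a) ^ 2) ^ 2 * A.t w ^ 2 := by
            apply mul_le_mul_of_nonneg_right _ (by positivity)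
            nlinarith
        _ = _ := by ring
    exact (pow_le_pow_iff_left₀ (norm_nonneg _) (by positivity) two_ne_zero).1 h2
  · rw [hact]
    set η : ℂ := A.act w⁻¹ ξ with hη
    have hη1 : ‖η‖ = 1 := A.norm_act_eq w⁻¹ hξ
    have hwη : A.act w η = ξ := A.act_inv_act w hξ.le
    have hJη := A.J_pos w hη1.le
    have h1 := A.dist_act w ha1.le hη1.le
    have h2 := A.dist_act w hz0 hη1.le
    rw [hwη] at h1 h2
    rw [hJ0, zero_sub, norm_neg, hη1, one_pow, mul_one] at h2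
    have h3 : 1 - a ≤ ‖z - η‖ := by
      have := norm_sub_norm_le η z
      rw [hη1, norm_sub_rev] at this
      exact this
    have h4 : (min (A.t s / 4) ((1 - a) / 2) * ‖A.act w 0 - ξ‖) ^ 2 ≤ ‖A.act w z - ξ‖ ^ 2 := by
      have h5 : (0 : ℝ) ≤ min (A.t s / 4) ((1 - a) / 2) := le_min (by positivity) (by positivity)
      calc (min (A.t s / 4) ((1 - a) / 2) * ‖A.act w 0 - ξ‖) ^ 2
          ≤ ((1 - a) / 2 * ‖A.act w 0 - ξ‖) ^ 2 := by
            apply pow_le_pow_left₀ (by positivity)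
            exact mul_le_mul_of_nonneg_right (min_le_right _ _) (norm_nonneg _)
        _ = (1 - a) ^ 2 / 4 * ‖A.act w 0 - ξ‖ ^ 2 := by ring
        _ = A.t w / 4 * A.J w η * (1 - a) ^ 2 := by rw [h2]; ring
        _ ≤ A.J w z * A.J w η * ‖z - η‖ ^ 2 := by gcongr
        _ = _ := h1.symm
    exact (pow_le_pow_iff_left₀ (by positivity) (norm_nonneg _) two_ne_zero).1 h4

theorem step_bounds (A : Act Γ) (S : Finset Γ) :
    ∃ c C : ℝ, 0 < c ∧ c ≤ 1 ∧ 1 ≤ C ∧ ∀ w : Γ, ∀ s ∈ S,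
      c * A.t w ≤ A.t (w * s) ∧ A.t (w * s) ≤ C * A.t w ∧
      ‖A.act (w * s) 0 - A.act w 0‖ ≤ C * A.t w ∧
      ∀ ξ : ℂ, ‖ξ‖ = 1 → c * ‖A.act w 0 - ξ‖ ≤ ‖A.act (w * s) 0 - ξ‖ := by
  classical
  induction S using Finset.induction_on with
  | empty => exact ⟨1, 1, one_pos, le_rfl, le_rfl, fun w s hs => absurd hs (Finset.notMem_empty s)⟩
  | insert b S _ ih =>
    obtain ⟨c1, C1, h1, h2, h3, h4⟩ := ih
    obtain ⟨c2, C2, k1, k2, k3, k4⟩ := step_bounds_single A b
    refine ⟨min c1 c2, max C1 C2, lt_min h1 k1, (min_le_left _ _).trans h2,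
      h3.trans (le_max_left _ _), fun w s hs => ?_⟩
    have htw := (A.t_pos w).le
    rcases Finset.mem_insert.1 hs with rfl | hs
    · obtain ⟨e1, e2, e3, e4⟩ := k4 w
      refine ⟨(mul_le_mul_of_nonneg_right (min_le_right _ _) htw).trans e1,
        e2.trans (mul_le_mul_of_nonneg_right (le_max_right _ _) htw),
        e3.trans (mul_le_mul_of_nonneg_right (le_max_right _ _) htw), fun ξ hξ =>
        (mul_le_mul_of_nonneg_right (min_le_right _ _) (norm_nonneg _)).trans (e4 ξ hξ)⟩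
    · obtain ⟨e1, e2, e3, e4⟩ := h4 w s hs
      refine ⟨(mul_le_mul_of_nonneg_right (min_le_left _ _) htw).trans e1,
        e2.trans (mul_le_mul_of_nonneg_right (le_max_left _ _) htw),
        e3.trans (mul_le_mul_of_nonneg_right (le_max_left _ _) htw), fun ξ hξ =>
        (mul_le_mul_of_nonneg_right (min_le_left _ _) (norm_nonneg _)).trans (e4 ξ hξ)⟩

end Pool.Agent.Lib.KLG
end

section

/-!
# Lebesgue points, almost everywhere
-/

set_option autoImplicit false
open MeasureTheory Set Filter Topology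
open scoped ENNReal ComplexConjugate

namespace Pool.Agent.Lib.KLG

open Pool.Agent.Lib.KLP

theorem ae_lebPt (ν : Measure ℂ) [IsProbabilityMeasure ν] (hac : ν ≪ circ) :
    ∀ᵐ ξ ∂ν, ∃ L : ℝ, LebPt ν ξ L := by
  set φ : ℂ → ℝ := fun z => (ν.rnDeriv circ z).toReal with hφ
  have hint : Integrable φ circ := Measure.integrable_toReal_rnDeriv
  have hleb : ∀ᵐ x ∂circ, Tendsto (fun a => ⨍ y in a, ‖φ y - φ x‖ ∂circ)
      ((Besicovitch.vitaliFamily circ).filterAt x) (𝓝 0) :=
    VitaliFamily.ae_tendsto_average_norm_sub _ hint.locallyIntegrable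
  have hpos : ∀ᵐ x ∂ν, 0 < ν.rnDeriv circ x := Measure.rnDeriv_pos hac
  have hfin : ∀ᵐ x ∂circ, ν.rnDeriv circ x < ∞ := Measure.rnDeriv_lt_top ν circ
  filter_upwards [hac.ae_le hleb, hpos, hac.ae_le hfin, hac.ae_le ae_circ_norm] with ξ h1 h2 h3 h4
  have hL0 : 0 < φ ξ := ENNReal.toReal_pos h2.ne' h3.ne
  refine ⟨φ ξ, h4, hL0, fun R hR ε hε => ?_⟩
  have h5 := h1.comp (Besicovitch.tendsto_filterAt circ ξ)
  have hev : ∀ᶠ δ in 𝓝[>] (0 : ℝ),
      ⨍ y in Metric.closedBall ξ δ, ‖φ y - φ ξ‖ ∂circ < ε / R :=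
    h5.eventually (gt_mem_nhds (by positivity))
  rw [eventually_nhdsWithin_iff, Metric.eventually_nhds_iff] at hev
  obtain ⟨δ₀, hδ₀, hδ⟩ := hev
  refine ⟨δ₀ / R, by positivity, fun r hr hr' E hE hER => ?_⟩
  have hRr : 0 < R * r := by positivity
  have hlt : R * r < δ₀ := by
    rw [lt_div_iff₀ hR] at hr'
    linarith
  have hav : ⨍ y in Metric.closedBall ξ (R * r), ‖φ y - φ ξ‖ ∂circ < ε / R := by
    refine hδ ?_ hRr
    rw [Real.dist_eq, sub_zero, abs_of_pos hRr]
    exact hlt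
  have e1 : (ν E).toReal = ∫ x in E, φ x ∂circ := by
    rw [hφ, Measure.setIntegral_toReal_rnDeriv hac E]
    rfl
  have e2 : φ ξ * (circ E).toReal = ∫ x in E, φ ξ ∂circ := by
    rw [setIntegral_const, smul_eq_mul, mul_comm]
    rfl
  have hint2 : Integrable (fun x => φ x - φ ξ) circ := hint.sub (integrable_const _)
  have e3 : (ν E).toReal - φ ξ * (circ E).toReal = ∫ x in E, (φ x - φ ξ) ∂circ := by
    rw [e1, e2, integral_sub hint.integrableOn (integrable_const _).integrableOn]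
  rw [e3]
  have h6 : |∫ x in E, (φ x - φ ξ) ∂circ| ≤ ∫ x in Metric.closedBall ξ (R * r),
      ‖φ x - φ ξ‖ ∂circ := by
    have h7 : |∫ x in E, (φ x - φ ξ) ∂circ| ≤ ∫ x in E, ‖φ x - φ ξ‖ ∂circ := by
      rw [← Real.norm_eq_abs]
      exact norm_integral_le_integral_norm _
    refine h7.trans ?_
    exact setIntegral_mono_set hint2.norm.integrableOn (Eventually.of_forall fun _ => norm_nonneg _)
      (HasSubset.Subset.eventuallyLE hER)
  have h7 : ∫ x in Metric.closedBall ξ (R * r), ‖φ x - φ ξ‖ ∂circ =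
      (circ (Metric.closedBall ξ (R * r))).toReal *
        ⨍ y in Metric.closedBall ξ (R * r), ‖φ y - φ ξ‖ ∂circ := by
    rw [← measure_smul_setAverage _ (measure_ne_top _ _), smul_eq_mul]
    rfl
  have h8 : (circ (Metric.closedBall ξ (R * r))).toReal ≤ R * r :=
    ENNReal.toReal_le_of_le_ofReal hRr.le (circ_closedBall_le ξ hRr.le)
  have h9 : 0 ≤ ⨍ y in Metric.closedBall ξ (R * r), ‖φ y - φ ξ‖ ∂circ := by
    rw [setAverage_eq, smul_eq_mul]
    exact mul_nonneg (inv_nonneg.2 measureReal_nonneg)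
      (integral_nonneg fun _ => norm_nonneg _)
  calc |∫ x in E, (φ x - φ ξ) ∂circ| ≤ _ := h6
    _ = _ := h7
    _ ≤ (R * r) * (ε / R) := mul_le_mul h8 hav.le h9 hRr.le
    _ = ε * r := by field_simp

/-- Density points of a set on the circle. -/
theorem exists_density {G : Set ℂ} (hG : MeasurableSet G) (hpos : circ G ≠ 0) :
    ∃ ξ₁ ∈ G, ‖ξ₁‖ = 1 ∧ ∀ ε : ℝ, 0 < ε → ∃ ρ₀ : ℝ, 0 < ρ₀ ∧ ∀ ρ : ℝ, 0 < ρ → ρ < ρ₀ →
      circ (Metric.closedBall ξ₁ ρ \ G) ≤ ENNReal.ofReal (ε * ρ) := by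
  have hne : (ae (circ.restrict G)).NeBot := by
    rw [ae_neBot]
    intro h
    exact hpos (Measure.restrict_eq_zero.1 h)
  obtain ⟨ξ₁, h1, h2, h3⟩ := ((Besicovitch.ae_tendsto_measure_inter_div circ G).and
    ((ae_restrict_mem hG).and (ae_restrict_of_ae ae_circ_norm))).exists
  refine ⟨ξ₁, h2, h3, fun ε hε => ?_⟩
  have ha : ENNReal.ofReal ε ≠ 0 := by
    rw [Ne, ENNReal.ofReal_eq_zero, not_le]
    exact hε
  have hlt : (1 : ℝ≥0∞) - ENNReal.ofReal ε < 1 :=
    ENNReal.sub_lt_self ENNReal.one_ne_top one_ne_zero ha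
  have hev := h1.eventually (lt_mem_nhds hlt)
  rw [eventually_nhdsWithin_iff, Metric.eventually_nhds_iff] at hev
  obtain ⟨δ₀, hδ₀, hδ⟩ := hev
  refine ⟨δ₀, hδ₀, fun ρ hρ hρ' => ?_⟩
  have h4 : (1 : ℝ≥0∞) - ENNReal.ofReal ε <
      circ (G ∩ Metric.closedBall ξ₁ ρ) / circ (Metric.closedBall ξ₁ ρ) := by
    refine hδ ?_ hρ
    rw [Real.dist_eq, sub_zero, abs_of_pos hρ]
    exact hρ'
  set B := Metric.closedBall ξ₁ ρ with hB
  set a := ENNReal.ofReal ε with haa
  have h5 : (1 - a) * circ B ≤ circ (G ∩ B) := by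
    rcases eq_or_ne (circ B) 0 with h0 | h0
    · rw [h0, mul_zero]
      exact zero_le
    · exact ((ENNReal.lt_div_iff_mul_lt (Or.inl h0) (Or.inl (measure_ne_top _ _))).1 h4).le
  have h6 : circ (B \ G) + circ (G ∩ B) = circ B := by
    rw [inter_comm, add_comm]
    exact measure_inter_add_sdiff B hG
  have h7 : circ (B \ G) + circ (G ∩ B) ≤ a * circ B + circ (G ∩ B) := by
    rw [h6]
    calc circ B = 1 * circ B := (one_mul _).symm
      _ ≤ ((1 - a) + a) * circ B := by gcongr; exact le_tsub_add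
      _ = (1 - a) * circ B + a * circ B := add_mul _ _ _
      _ ≤ circ (G ∩ B) + a * circ B := by gcongr
      _ = _ := add_comm _ _
  have h8 : circ (B \ G) ≤ a * circ B :=
    (ENNReal.add_le_add_iff_right (measure_ne_top _ _)).1 h7
  refine h8.trans ?_
  rw [ENNReal.ofReal_mul hε.le]
  gcongr
  exact circ_closedBall_le ξ₁ hρ.le

end Pool.Agent.Lib.KLG
end

section

/-!
# C5: harmonic measure of sets
-/

set_option autoImplicit false
open MeasureTheory Set Filter Topology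
open scoped ENNReal ComplexConjugate

namespace Pool.Agent.Lib.KLG

open Pool.Agent.Lib.KLP

variable {Γ : Type*} [Group Γ] (A : Act Γ)

theorem circ_preimage (g : Γ) {E : Set ℂ} (hE : MeasurableSet E) :
    circ (A.act g ⁻¹' E) = ∫⁻ ξ in E, ENNReal.ofReal (pk (A.act g 0) ξ) ∂circ := by
  rw [← Measure.map_apply (A.iso g).measurable hE, circ_map (A.iso g), withDensity_apply _ hE]

private lemma pushCirc_pk (g : Γ) (ξ : ℂ) :
    pk (A.act g 0) ξ = A.t g / ‖ξ - A.act g 0‖ ^ 2 := rfl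

private lemma pushCirc_dist_pos (g : Γ) {ξ : ℂ} (hξ : ‖ξ‖ = 1) : 0 < ‖ξ - A.act g 0‖ := by
  rw [norm_pos_iff]
  intro h
  have h1 : ξ = A.act g 0 := sub_eq_zero.1 h
  have h2 : ‖A.act g 0‖ < 1 := (A.iso g).norm_lt_one (by simp)
  rw [← h1, hξ] at h2
  exact lt_irrefl _ h2

private lemma pushCirc_t_pos (g : Γ) : 0 < A.t g := by
  have h2 : ‖A.act g 0‖ < 1 := (A.iso g).norm_lt_one (by simp)
  have h3 := norm_nonneg (A.act g 0)
  unfold Act.t
  nlinarith

theorem circ_preimage_le (g : Γ) {E : Set ℂ} (hE : MeasurableSet E) {d : ℝ} (hd : 0 < d)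
    (h : ∀ ξ ∈ E, ‖ξ‖ = 1 → d ≤ ‖ξ - A.act g 0‖) :
    circ (A.act g ⁻¹' E) ≤ ENNReal.ofReal (A.t g / d ^ 2) * circ E := by
  have ht := pushCirc_t_pos A g
  rw [circ_preimage A g hE, ← setLIntegral_const]
  apply lintegral_mono_ae
  filter_upwards [ae_restrict_mem hE, ae_restrict_of_ae ae_circ_norm] with ξ hξ hξ1
  apply ENNReal.ofReal_le_ofReal
  rw [pushCirc_pk]
  have h1 := h ξ hξ hξ1
  gcongr

theorem le_circ_preimage (g : Γ) {E : Set ℂ} (hE : MeasurableSet E) {D : ℝ} (hD : 0 < D)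
    (h : ∀ ξ ∈ E, ‖ξ‖ = 1 → ‖ξ - A.act g 0‖ ≤ D) :
    ENNReal.ofReal (A.t g / D ^ 2) * circ E ≤ circ (A.act g ⁻¹' E) := by
  have ht := pushCirc_t_pos A g
  rw [circ_preimage A g hE, ← setLIntegral_const]
  apply lintegral_mono_ae
  filter_upwards [ae_restrict_mem hE, ae_restrict_of_ae ae_circ_norm] with ξ hξ hξ1
  apply ENNReal.ofReal_le_ofReal
  rw [pushCirc_pk]
  have h1 := h ξ hξ hξ1
  have h2 := pushCirc_dist_pos A g hξ1
  gcongr

end Pool.Agent.Lib.KLG
end

section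

/-!
# M4: the harmonic functions attached to a stationary measure
-/

set_option autoImplicit false
open MeasureTheory Set Filter Topology
open scoped ENNReal ComplexConjugate

namespace Pool.Agent.Lib.KLG

open Pool.Agent.Lib.KLP

variable {Γ : Type*} [Group Γ] {A : Act Γ} {W : Walk Γ} {ν : Measure ℂ}

theorem ae_norm_of_ac' (hac : ν ≪ circ) : ∀ᵐ z ∂ν, ‖z‖ = 1 :=
  hac.ae_le ae_circ_norm

theorem pf_eq {E : Set ℂ} (hE : MeasurableSet E) (w : Γ) :
    pf A ν E w = ν (A.act w ⁻¹' E) :=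
  Measure.map_apply (A.measurable_act w) hE

theorem pf_mul (h : Std A W ν) {E : Set ℂ} (hE : MeasurableSet E) (g w : Γ) :
    pf A ν E (g * w) = pf A ν (A.act g ⁻¹' E) w := by
  rw [pf_eq hE, pf_eq (A.measurable_act g hE)]
  apply measure_congr
  filter_upwards [h.onT] with z hz
  apply propext
  change A.act (g * w) z ∈ E ↔ A.act g (A.act w z) ∈ E
  rw [A.mul g w z hz.le]

theorem pf_harmonic (h : Std A W ν) {E : Set ℂ} (hE : MeasurableSet E) (w : Γ) :
    pf A ν E w = W.P (pf A ν E) w := by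
  have hE' : MeasurableSet (A.act w ⁻¹' E) := A.measurable_act w hE
  have h1 : ν (A.act w ⁻¹' E) =
      ∑ s ∈ W.S, ENNReal.ofReal (W.μ s) * (ν.map (A.act s)) (A.act w ⁻¹' E) := by
    have h2 := congrArg (fun m : Measure ℂ => m (A.act w ⁻¹' E)) h.stat
    simp only [Measure.coe_finsetSum, Finset.sum_apply, Measure.smul_apply, smul_eq_mul] at h2
    exact h2
  rw [pf_eq hE, h1]
  unfold Walk.P
  refine Finset.sum_congr rfl fun s _ => ?_
  rw [pf_mul h hE w s]
  rfl

theorem pf_one (h : Std A W ν) {E : Set ℂ} (hE : MeasurableSet E) : pf A ν E 1 = ν E := by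
  rw [pf_eq hE]
  apply measure_congr
  filter_upwards [h.onT] with z hz
  apply propext
  change A.act 1 z ∈ E ↔ z ∈ E
  rw [A.one z hz.le]

theorem pf_le_one (h : Std A W ν) (E : Set ℂ) (w : Γ) : pf A ν E w ≤ 1 := by
  have := h.prob
  have := Measure.isProbabilityMeasure_map (μ := ν) (A.measurable_act w).aemeasurable
  exact prob_le_one

/-- An atomless probability measure on the circle gives small mass to small balls. -/
theorem ball_small (h : Std A W ν) {ε : ℝ≥0∞} (hε : 0 < ε) :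
    ∃ ρ : ℝ, 0 < ρ ∧ ∀ z : ℂ, ν (Metric.closedBall z ρ) < ε := by
  have := h.prob
  by_contra hcon
  push Not at hcon
  choose z hz using fun n : ℕ => hcon (1 / ((n : ℝ) + 1)) (by positivity)
  -- the centres stay in a compact set
  have hzb : ∀ n, z n ∈ Metric.closedBall (0 : ℂ) 2 := by
    intro n
    by_contra hn
    have h0 : ν (Metric.closedBall (z n) (1 / ((n : ℝ) + 1))) = 0 := by
      have h1 : ∀ᵐ w ∂ν, w ∉ Metric.closedBall (z n) (1 / ((n : ℝ) + 1)) := by
        filter_upwards [h.onT] with w hw hwz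
        apply hn
        rw [Metric.mem_closedBall, dist_zero_right]
        rw [Metric.mem_closedBall, dist_eq_norm] at hwz
        have h2 : 1 / ((n : ℝ) + 1) ≤ 1 := by
          rw [div_le_one (by positivity)]
          linarith [Nat.cast_nonneg (α := ℝ) n]
        have h3 := norm_sub_norm_le (z n) w
        rw [norm_sub_rev] at h3
        linarith
      exact measure_eq_zero_iff_ae_notMem.2 h1
    have := hz n
    rw [h0] at this
    exact absurd this (not_le.2 hε)
  obtain ⟨ζ, -, φ, hφ, hζ⟩ := (isCompact_closedBall (0 : ℂ) 2).tendsto_subseq hzb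
  have hlim : Tendsto (fun k : ℕ => ν (Metric.closedBall ζ (1 / ((k : ℝ) + 1)))) atTop
      (𝓝 (ν {ζ})) := by
    have h1 : ⋂ k : ℕ, Metric.closedBall ζ (1 / ((k : ℝ) + 1)) = {ζ} := by
      ext w
      simp only [mem_iInter, Metric.mem_closedBall, mem_singleton_iff]
      constructor
      · intro hw
        have h2 : dist w ζ ≤ 0 := ge_of_tendsto' tendsto_one_div_add_atTop_nhds_zero_nat hw
        exact dist_le_zero.1 h2
      · rintro rfl k
        rw [dist_self]
        positivity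
    rw [← h1]
    apply tendsto_measure_iInter_atTop
    · exact fun k => Metric.isClosed_closedBall.measurableSet.nullMeasurableSet
    · intro a b hab
      apply Metric.closedBall_subset_closedBall
      have : (a : ℝ) ≤ b := by exact_mod_cast hab
      exact one_div_le_one_div_of_le (by positivity) (by linarith)
    · exact ⟨0, measure_ne_top _ _⟩
  rw [h.na ζ] at hlim
  obtain ⟨k, hk⟩ := (hlim.eventually_lt_const hε).exists
  have hsub : ∀ᶠ n in atTop, Metric.closedBall (z (φ n)) (1 / (((φ n : ℕ) : ℝ) + 1)) ⊆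
      Metric.closedBall ζ (1 / ((k : ℝ) + 1)) := by
    have h1 : Tendsto (fun n => dist (z (φ n)) ζ + 1 / (((φ n : ℕ) : ℝ) + 1)) atTop (𝓝 (0 + 0)) :=
      (tendsto_iff_dist_tendsto_zero.1 hζ).add
        (tendsto_one_div_add_atTop_nhds_zero_nat.comp hφ.tendsto_atTop)
    rw [add_zero] at h1
    filter_upwards [h1.eventually_lt_const (by positivity : (0 : ℝ) < 1 / ((k : ℝ) + 1))] with n hn
    apply Metric.closedBall_subset_closedBall'
    linarith
  obtain ⟨n, hn⟩ := hsub.exists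
  exact absurd ((hz (φ n)).trans (measure_mono hn)) (not_le.2 hk)

theorem F_mul_pf_le (h : Std A W ν) {E : Set ℂ} (hE : MeasurableSet E) (w y : Γ) :
    W.F w y * pf A ν E y ≤ pf A ν E w :=
  W.F_mul_le (fun w => (pf_harmonic h hE w).ge) w y

end Pool.Agent.Lib.KLG
end

section

/-!
# K: concentration of translates
-/

set_option autoImplicit false
open MeasureTheory Set Filter Topology
open scoped ENNReal ComplexConjugate

namespace Pool.Agent.Lib.KLG

open Pool.Agent.Lib.KLP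

variable {Γ : Type*} [Group Γ] {A : Act Γ} {W : Walk Γ} {ν : Measure ℂ}

theorem conc (h : Std A W ν) : ∃ K : ℝ, 1 ≤ K ∧ ∀ y : Γ,
    pf A ν {ξ : ℂ | K * A.t y < ‖ξ - A.act y 0‖} y ≤ 1 / 2 := by
  obtain ⟨ρ, hρ, hsmall⟩ := ball_small h (ε := 1 / 2) (by simp)
  obtain ⟨K, hK1, hKρ⟩ : ∃ K : ℝ, 1 ≤ K ∧ 1 / K ≤ ρ := by
    refine ⟨max 1 (1 / ρ), le_max_left _ _, ?_⟩
    rw [div_le_iff₀ (by positivity)]
    have h1 : 1 / ρ ≤ max 1 (1 / ρ) := le_max_right _ _
    rw [div_le_iff₀ hρ] at h1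
    linarith
  have hK0 : 0 < K := by linarith
  refine ⟨K, hK1, ?_⟩
  intro y
  have hE : MeasurableSet {ξ : ℂ | K * A.t y < ‖ξ - A.act y 0‖} :=
    measurableSet_lt measurable_const (measurable_id.sub_const _).norm
  rw [pf_eq hE]
  have hle : ν (A.act y ⁻¹' {ξ : ℂ | K * A.t y < ‖ξ - A.act y 0‖}) ≤
      ν (Metric.closedBall (A.act y⁻¹ 0) (1 / K)) := by
    apply measure_mono_ae
    filter_upwards [h.onT] with z hz
    intro hz2
    have hz3 : K * A.t y < ‖A.act y z - A.act y 0‖ := hz2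
    change z ∈ Metric.closedBall (A.act y⁻¹ 0) (1 / K)
    rw [Metric.mem_closedBall, dist_eq_norm]
    have h1 := A.circle_dist y hz
    have h2 := A.t_pos y
    by_contra hcon
    rw [not_le] at hcon
    have h3 : A.t y < ‖A.act y z - A.act y 0‖ * ‖z - A.act y⁻¹ 0‖ := by
      calc A.t y = K * A.t y * (1 / K) := by field_simp
        _ < ‖A.act y z - A.act y 0‖ * ‖z - A.act y⁻¹ 0‖ :=
          mul_lt_mul'' hz3 hcon (by positivity) (by positivity)
    linarith
  refine hle.trans ((measure_mono (Metric.closedBall_subset_closedBall hKρ)).trans ?_)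
  exact (hsmall _).le

end Pool.Agent.Lib.KLG
end

section

/-!
# T: transience
-/

set_option autoImplicit false
open MeasureTheory Set Filter Topology
open scoped ENNReal ComplexConjugate

namespace Pool.Agent.Lib.KLG

open Pool.Agent.Lib.KLP

variable {Γ : Type*} [Group Γ] {A : Act Γ} {W : Walk Γ} {ν : Measure ℂ}

/-- If all generators fix `ν` then all translates of `ν` agree. -/
private theorem tr_all_eq (h : Std A W ν)
    (hS : ∀ s ∈ W.S, ∀ E : Set ℂ, MeasurableSet E → pf A ν E s = ν E) :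
    ∀ x ∈ Subgroup.closure (W.S : Set Γ), ∀ E : Set ℂ, MeasurableSet E → pf A ν E x = ν E := by
  intro g hg
  induction hg using Subgroup.closure_induction with
  | mem s hs => exact hS s (Finset.mem_coe.1 hs)
  | one => exact fun E hE => pf_one h hE
  | mul a b _ _ iha ihb =>
    intro E hE
    have hm : MeasurableSet (A.act a ⁻¹' E) := A.measurable_act a hE
    rw [pf_mul h hE, ihb _ hm, ← pf_eq hE, iha E hE]
  | inv a _ iha =>
    intro E hE
    have hm : MeasurableSet (A.act a⁻¹ ⁻¹' E) := A.measurable_act a⁻¹ hE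
    rw [pf_eq hE, ← iha _ hm, ← pf_mul h hE, inv_mul_cancel, pf_one h hE]

/-- Step 1: some translate of `ν` is not the same as `ν`. -/
private theorem tr_step_one (h : Std A W ν) (g : Γ) :
    ∃ E : Set ℂ, MeasurableSet E ∧ ∃ s ∈ W.S, pf A ν E (g * s) ≠ pf A ν E g := by
  by_contra hcon
  push Not at hcon
  have hS : ∀ s ∈ W.S, ∀ E : Set ℂ, MeasurableSet E → pf A ν E s = ν E := by
    intro s hs E hE
    have hm : MeasurableSet (A.act g⁻¹ ⁻¹' E) := A.measurable_act g⁻¹ hE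
    have h1 := pf_mul h hE g⁻¹ (g * s)
    have h2 := pf_mul h hE g⁻¹ g
    rw [inv_mul_cancel_left] at h1
    rw [inv_mul_cancel] at h2
    rw [h1, hcon _ hm s hs, ← h2, pf_one h hE]
  have hall := tr_all_eq h hS
  have := h.prob
  obtain ⟨K, hK1, hK⟩ := conc h
  have hK0 : 0 < K := by linarith
  obtain ⟨ρ, hρ, hsmall⟩ := ball_small h (ε := 1 / 2) (by simp)
  -- an element of small height
  have hfin : {x : Γ | ρ / K ≤ A.t x}.Finite := A.finite_t (by positivity)
  obtain ⟨x, hxc, hxt⟩ : ∃ x ∈ Subgroup.closure (W.S : Set Γ), A.t x < ρ / K := by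
    by_contra hno
    push Not at hno
    have := h.inf
    exact (Set.infinite_coe_iff.1 h.inf) (hfin.subset fun x hx => hno x hx)
  have hKt : K * A.t x ≤ ρ := by
    rw [lt_div_iff₀ hK0] at hxt
    linarith
  have hme : MeasurableSet {ξ : ℂ | K * A.t x < ‖ξ - A.act x 0‖} := by
    refine (isOpen_lt continuous_const (by fun_prop)).measurableSet
  have h8 : ν {ξ : ℂ | K * A.t x < ‖ξ - A.act x 0‖} ≤ 1 / 2 := by
    rw [← hall x hxc _ hme]
    exact hK x
  have h9 : ν (Metric.closedBall (A.act x 0) (K * A.t x)) < 1 / 2 :=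
    (measure_mono (Metric.closedBall_subset_closedBall hKt)).trans_lt (hsmall _)
  have h10 : ν (Metric.closedBall (A.act x 0) (K * A.t x)) +
      ν {ξ : ℂ | K * A.t x < ‖ξ - A.act x 0‖} = 1 := by
    have h11 : {ξ : ℂ | K * A.t x < ‖ξ - A.act x 0‖} =
        (Metric.closedBall (A.act x 0) (K * A.t x))ᶜ := by
      ext y
      simp [dist_eq_norm]
    rw [h11, measure_add_measure_compl Metric.isClosed_closedBall.measurableSet, measure_univ]
  have h12 : ν (Metric.closedBall (A.act x 0) (K * A.t x)) +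
      ν {ξ : ℂ | K * A.t x < ‖ξ - A.act x 0‖} < 1 / 2 + 1 / 2 :=
    ENNReal.add_lt_add_of_lt_of_le (ne_top_of_le_ne_top (by norm_num) h8) h9 h8
  rw [h10, ENNReal.add_halves] at h12
  exact lt_irrefl _ h12

private theorem tr_P_add (f g : Γ → ℝ≥0∞) (w : Γ) :
    W.P (fun v => f v + g v) w = W.P f w + W.P g w := by
  unfold Walk.P
  rw [← Finset.sum_add_distrib]
  exact Finset.sum_congr rfl fun s _ => by ring

private theorem tr_P_mul (a : ℝ≥0∞) (f : Γ → ℝ≥0∞) (w : Γ) :
    W.P (fun v => a * f v) w = a * W.P f w := by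
  unfold Walk.P
  rw [Finset.mul_sum]
  exact Finset.sum_congr rfl fun s _ => by ring

private theorem tr_P_sum (F : ℕ → Γ → ℝ≥0∞) (n : ℕ) (w : Γ) :
    W.P (fun v => ∑ k ∈ Finset.range n, F k v) w = ∑ k ∈ Finset.range n, W.P (F k) w := by
  unfold Walk.P
  rw [Finset.sum_comm]
  refine Finset.sum_congr rfl fun s _ => ?_
  rw [Finset.mul_sum]

private theorem tr_iter_mul (a : ℝ≥0∞) (f : Γ → ℝ≥0∞) (n : ℕ) (w : Γ) :
    (W.P^[n] (fun v => a * f v)) w = a * (W.P^[n] f) w := by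
  induction n generalizing w with
  | zero => rfl
  | succ n ih =>
    rw [Function.iterate_succ_apply', Function.iterate_succ_apply', ← tr_P_mul]
    congr 1
    funext v
    exact ih v

private theorem tr_iter_mono {f g : Γ → ℝ≥0∞} (hfg : ∀ w, f w ≤ g w) (n : ℕ) (w : Γ) :
    (W.P^[n] f) w ≤ (W.P^[n] g) w := by
  induction n generalizing w with
  | zero => exact hfg w
  | succ n ih =>
    rw [Function.iterate_succ_apply', Function.iterate_succ_apply']
    exact W.P_mono ih w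

/-- Telescoping. -/
private theorem tr_telescope {q D : Γ → ℝ≥0∞} (hq : ∀ w, W.P q w = q w + D w) (n : ℕ) (w : Γ) :
    (W.P^[n] q) w = q w + ∑ k ∈ Finset.range n, (W.P^[k] D) w := by
  induction n generalizing w with
  | zero => simp
  | succ n ih =>
    rw [Function.iterate_succ_apply']
    have h1 : W.P^[n] q = fun v => q v + ∑ k ∈ Finset.range n, (W.P^[k] D) v := by
      funext v; exact ih v
    rw [h1, tr_P_add q (fun v => ∑ k ∈ Finset.range n, (W.P^[k] D) v), hq,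
      tr_P_sum (fun k v => (W.P^[k] D) v), Finset.sum_range_succ']
    simp only [Function.iterate_zero, id_eq, Function.iterate_succ_apply']
    rw [add_assoc, add_comm (D w)]

theorem transient (h : Std A W ν) : W.Transient := by
  intro g w
  have := h.prob
  obtain ⟨E, hE, s, hs, hne⟩ := tr_step_one h g
  set f : Γ → ℝ := fun w => (pf A ν E w).toReal with hf
  have hfle : ∀ w, pf A ν E w ≤ 1 := pf_le_one h E
  have hfne : ∀ w, pf A ν E w ≠ ∞ := fun w => ne_top_of_le_ne_top ENNReal.one_ne_top (hfle w)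
  have hf0 : ∀ w, 0 ≤ f w := fun w => ENNReal.toReal_nonneg
  have hf1 : ∀ w, f w ≤ 1 := fun w => by
    have := ENNReal.toReal_mono ENNReal.one_ne_top (hfle w)
    simpa using this
  have hμ0 : ∀ s ∈ W.S, 0 ≤ W.μ s := fun s hs => (W.pos s hs).le
  have hharm : ∀ w, ∑ s ∈ W.S, W.μ s * f (w * s) = f w := by
    intro w
    have h1 := pf_harmonic h hE w
    have h2 : f w = (W.P (pf A ν E) w).toReal := by
      simp only [hf]
      rw [← h1]
    rw [h2]
    unfold Walk.P
    rw [ENNReal.toReal_sum (fun s _ => ENNReal.mul_ne_top ENNReal.ofReal_ne_top (hfne _))]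
    refine Finset.sum_congr rfl fun s hs => ?_
    rw [ENNReal.toReal_mul, ENNReal.toReal_ofReal (hμ0 s hs)]
  set q : Γ → ℝ≥0∞ := fun w => ENNReal.ofReal (f w ^ 2) with hq
  set D : Γ → ℝ≥0∞ := fun w =>
    ENNReal.ofReal (∑ s ∈ W.S, W.μ s * (f (w * s) - f w) ^ 2) with hD
  have hPq : ∀ w, W.P q w = q w + D w := by
    intro w
    unfold Walk.P
    rw [hq, hD]
    simp only
    rw [← ENNReal.ofReal_add (sq_nonneg _)
      (Finset.sum_nonneg fun s hs => mul_nonneg (hμ0 s hs) (sq_nonneg _))]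
    have h3 : ∑ s ∈ W.S, ENNReal.ofReal (W.μ s) * ENNReal.ofReal (f (w * s) ^ 2) =
        ENNReal.ofReal (∑ s ∈ W.S, W.μ s * f (w * s) ^ 2) := by
      rw [ENNReal.ofReal_sum_of_nonneg fun s hs => mul_nonneg (hμ0 s hs) (sq_nonneg _)]
      refine Finset.sum_congr rfl fun s hs => ?_
      rw [ENNReal.ofReal_mul (hμ0 s hs)]
    rw [h3]
    congr 1
    have h4 : ∑ s ∈ W.S, W.μ s * (f (w * s) - f w) ^ 2 =
        ∑ s ∈ W.S, W.μ s * f (w * s) ^ 2 - 2 * f w * ∑ s ∈ W.S, W.μ s * f (w * s) +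
          f w ^ 2 * ∑ s ∈ W.S, W.μ s := by
      rw [Finset.mul_sum, Finset.mul_sum, ← Finset.sum_sub_distrib, ← Finset.sum_add_distrib]
      exact Finset.sum_congr rfl fun s _ => by ring
    rw [h4, hharm, W.sum_eq]
    ring
  have hq1 : ∀ w, q w ≤ 1 := by
    intro w
    rw [hq]
    simp only
    rw [← ENNReal.ofReal_one]
    exact ENNReal.ofReal_le_ofReal (pow_le_one₀ (hf0 w) (hf1 w))
  have hiter1 : ∀ n w, (W.P^[n] q) w ≤ 1 := by
    intro n
    induction n with
    | zero => exact hq1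
    | succ n ih =>
      intro w
      rw [Function.iterate_succ_apply']
      exact (W.P_mono ih w).trans (W.P_const 1 w).le
  have hsum : ∀ n, ∑ k ∈ Finset.range n, (W.P^[k] D) w ≤ 1 := by
    intro n
    have h5 := tr_telescope hPq n w
    have h6 := hiter1 n w
    rw [h5] at h6
    exact le_trans le_add_self h6
  have htsum : ∑' k, (W.P^[k] D) w ≠ ∞ := by
    refine ne_top_of_le_ne_top ENNReal.one_ne_top ?_
    rw [ENNReal.tsum_eq_iSup_nat]
    exact iSup_le hsum
  have hlim : Tendsto (fun k => (W.P^[k] D) w) atTop (𝓝 0) :=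
    ENNReal.tendsto_atTop_zero_of_tsum_ne_top htsum
  -- comparison
  have hDg : D g ≠ 0 := by
    rw [hD]
    simp only
    rw [ne_eq, ENNReal.ofReal_eq_zero, not_le]
    have hne' : f (g * s) ≠ f g := by
      intro h7
      exact hne ((ENNReal.toReal_eq_toReal_iff' (hfne _) (hfne _)).1 h7)
    have h8 : 0 < W.μ s * (f (g * s) - f g) ^ 2 :=
      mul_pos (W.pos s hs) (by have := sub_ne_zero.2 hne'; positivity)
    refine lt_of_lt_of_le h8 ?_
    exact Finset.single_le_sum (f := fun s => W.μ s * (f (g * s) - f g) ^ 2)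
      (fun s hs => mul_nonneg (hμ0 s hs) (sq_nonneg _)) hs
  have hDg' : D g ≠ ∞ := ENNReal.ofReal_ne_top
  have hcomp : ∀ v, D g * Set.indicator {g} (fun _ => (1 : ℝ≥0∞)) v ≤ D v := by
    intro v
    by_cases hv : v = g
    · subst hv; simp
    · rw [Set.indicator_of_notMem (by simpa using hv), mul_zero]
      exact zero_le
  have hle : ∀ n, (W.P^[n] (Set.indicator {g} (fun _ => (1 : ℝ≥0∞)))) w ≤
      (D g)⁻¹ * (W.P^[n] D) w := by
    intro n
    have h9 := tr_iter_mono (W := W) hcomp n w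
    rw [tr_iter_mul] at h9
    calc (W.P^[n] (Set.indicator {g} (fun _ => (1 : ℝ≥0∞)))) w
        = (D g)⁻¹ * (D g * (W.P^[n] (Set.indicator {g} (fun _ => (1 : ℝ≥0∞)))) w) := by
          rw [← mul_assoc, ENNReal.inv_mul_cancel hDg hDg', one_mul]
      _ ≤ _ := mul_le_mul_right h9 _
  have hlim2 : Tendsto (fun k => (D g)⁻¹ * (W.P^[k] D) w) atTop (𝓝 0) := by
    have h10 := ENNReal.Tendsto.const_mul (a := (D g)⁻¹) hlim (Or.inr (ENNReal.inv_ne_top.2 hDg))
    rwa [mul_zero] at h10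
  exact tendsto_of_tendsto_of_tendsto_of_le_of_le tendsto_const_nhds hlim2
    (fun _ => zero_le) hle

end Pool.Agent.Lib.KLG
end

section

/-!
# V: the harmonic functions vanish away from the set
-/

set_option autoImplicit false
open MeasureTheory Set Filter Topology
open scoped ENNReal ComplexConjugate

namespace Pool.Agent.Lib.KLG

open Pool.Agent.Lib.KLP

variable {Γ : Type*} [Group Γ] {A : Act Γ} {W : Walk Γ} {ν : Measure ℂ}

theorem vanish (h : Std A W ν) {ξ₀ : ℂ} (hξ₀ : ‖ξ₀‖ = 1) {r : ℝ} (hr : 0 < r) {E : Set ℂ}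
    (hE : MeasurableSet E) (hsub : E ⊆ Metric.ball ξ₀ (r / 2)) {ε : ℝ≥0∞} (hε : 0 < ε) :
    {w : Γ | w ∉ A.U ξ₀ r ∧ ε ≤ pf A ν E w}.Finite := by
  obtain ⟨ρ, hρ, hsmall⟩ := ball_small h hε
  refine (A.finite_t (ε := ρ * (r / 2)) (by positivity)).subset ?_
  rintro w ⟨hw, hle⟩
  change ρ * (r / 2) ≤ A.t w
  by_contra hcon
  rw [not_le] at hcon
  have hw' : r ≤ ‖A.act w 0 - ξ₀‖ := not_lt.mp hw
  rw [pf_eq hE] at hle
  have hle2 : ν (A.act w ⁻¹' E) ≤ ν (Metric.closedBall (A.act w⁻¹ 0) ρ) := by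
    apply measure_mono_ae
    filter_upwards [h.onT] with z hz
    intro hz2
    have hz3 : A.act w z ∈ E := hz2
    have h1 := hsub hz3
    rw [Metric.mem_ball, dist_eq_norm] at h1
    change z ∈ Metric.closedBall (A.act w⁻¹ 0) ρ
    rw [Metric.mem_closedBall, dist_eq_norm]
    have h2 : ‖A.act w 0 - ξ₀‖ ≤ ‖A.act w 0 - A.act w z‖ + ‖A.act w z - ξ₀‖ :=
      norm_sub_le_norm_sub_add_norm_sub _ _ _
    rw [norm_sub_rev (A.act w 0) (A.act w z)] at h2
    have h3 := A.circle_dist w hz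
    have h4 : r / 2 ≤ ‖A.act w z - A.act w 0‖ := by linarith
    have h5 : r / 2 * ‖z - A.act w⁻¹ 0‖ ≤ A.t w := by
      rw [← h3]
      exact mul_le_mul_of_nonneg_right h4 (norm_nonneg _)
    by_contra hcon2
    rw [not_le] at hcon2
    have h6 : r / 2 * ρ < r / 2 * ‖z - A.act w⁻¹ 0‖ :=
      mul_lt_mul_of_pos_left hcon2 (by positivity)
    linarith
  exact absurd ((hle.trans hle2).trans_lt (hsmall _)) (lt_irrefl _)

/-- `f_E ≤ hit_U f_E` for walls around `E`. -/
theorem pf_le_hit (h : Std A W ν) (htr : W.Transient) {ξ₀ : ℂ} (hξ₀ : ‖ξ₀‖ = 1) {r : ℝ}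
    (hr : 0 < r) {E : Set ℂ} (hE : MeasurableSet E) (hsub : E ⊆ Metric.ball ξ₀ (r / 2)) (w : Γ) :
    pf A ν E w ≤ W.hit (A.U ξ₀ r) (pf A ν E) w :=
  W.le_hit htr ENNReal.one_ne_top (pf_le_one h E) (fun w _ => pf_harmonic h hE w)
    (fun _ hε => vanish h hξ₀ hr hE hsub hε) w

end Pool.Agent.Lib.KLG
end

section

/-!
# 2.1, 2.2: near and far points of a wall
-/

set_option autoImplicit false
open MeasureTheory Set Filter Topology
open scoped ENNReal ComplexConjugate

namespace Pool.Agent.Lib.KLG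

open Pool.Agent.Lib.KLP

variable {Γ : Type*} [Group Γ] {A : Act Γ} {W : Walk Γ} {ν : Measure ℂ}

theorem near_bound (h : Std A W ν) : ∃ K' : ℝ, 1 ≤ K' ∧ ∀ δ : ℝ, 0 < δ → δ ≤ 1 →
    ∃ N : ℕ, ∀ (ξ₀ : ℂ) (r : ℝ), ‖ξ₀‖ = 1 → 0 < r → r < 1 → ∀ b : ℝ≥0∞,
      (∀ y ∈ A.U ξ₀ r, δ * r ≤ A.t y → W.F 1 y ≤ b) →
      ν (Metric.ball ξ₀ (r / 2)) ≤
        2 * ν {ξ : ℂ | r - K' * δ * r ≤ ‖ξ - ξ₀‖ ∧ ‖ξ - ξ₀‖ ≤ r + K' * δ * r} + N * b := by
  classical
  haveI := h.prob
  have htr : W.Transient := transient h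
  obtain ⟨c, C, hc, hc1, hC1, hstep⟩ := step_bounds A W.S
  obtain ⟨K, hK1, hconc⟩ := conc h
  refine ⟨K + C / c, by have : 0 ≤ C / c := by positivity
                        linarith, ?_⟩
  intro δ hδ hδ1
  obtain ⟨T, hT⟩ := near_finite A hδ one_pos
  refine ⟨T.card, ?_⟩
  intro ξ₀ r hξ₀ hr hr1 b hb
  set K' : ℝ := K + C / c with hK'
  set U : Set Γ := A.U ξ₀ r with hU
  set J : Set ℂ := {ξ : ℂ | r - K' * δ * r ≤ ‖ξ - ξ₀‖ ∧ ‖ξ - ξ₀‖ ≤ r + K' * δ * r} with hJ
  have hJm : MeasurableSet J := by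
    have hm : Measurable (fun ξ : ℂ => ‖ξ - ξ₀‖) := by fun_prop
    exact (measurableSet_le measurable_const hm).inter (measurableSet_le hm measurable_const)
  have h1U : (1 : Γ) ∉ U := by
    intro hmem
    have h1 : ‖A.act 1 0 - ξ₀‖ < r := hmem
    rw [A.one 0 (by simp), zero_sub, norm_neg, hξ₀] at h1
    linarith
  set far : Γ → ℝ≥0∞ := Set.indicator {y | A.t y < δ * r} (fun _ => 1) with hfar
  set near : Γ → ℝ≥0∞ := Set.indicator {y | δ * r ≤ A.t y} (fun _ => 1) with hnear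
  -- first bound
  have hfirst : ν (Metric.ball ξ₀ (r / 2)) ≤ W.hit U far 1 + W.hit U near 1 := by
    rw [← pf_one h measurableSet_ball, ← W.hit_add]
    refine (pf_le_hit h htr hξ₀ hr measurableSet_ball le_rfl 1).trans ?_
    apply W.hit_mono
    intro y _
    refine (pf_le_one h _ y).trans ?_
    by_cases hy : A.t y < δ * r
    · rw [hfar, Set.indicator_of_mem (by exact hy)]; exact le_self_add
    · rw [hnear, Set.indicator_of_mem (by exact not_lt.1 hy)]; exact le_add_self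
  -- far points
  have hfar' : W.hit U far 1 ≤ 2 * ν J := by
    rw [W.hit_bd h1U]
    have h2 : ∀ y ∈ U, Set.indicator (W.bd U) far y ≤ 2 * pf A ν J y := by
      intro y hyU
      by_cases hy : y ∈ W.bd U
      · rw [Set.indicator_of_mem hy]
        by_cases hty : A.t y < δ * r
        · rw [hfar, Set.indicator_of_mem (by exact hty)]
          obtain ⟨_, s, hs, hw⟩ := hy
          have hst := hstep (y * s⁻¹) s hs
          rw [inv_mul_cancel_right] at hst
          obtain ⟨h3, _, h4, _⟩ := hst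
          have hw' : r ≤ ‖A.act (y * s⁻¹) 0 - ξ₀‖ := not_lt.1 hw
          have htw : A.t (y * s⁻¹) ≤ A.t y / c := by
            rw [le_div_iff₀ hc]; linarith
          have h5 : ‖A.act y 0 - A.act (y * s⁻¹) 0‖ ≤ C / c * (δ * r) := by
            refine h4.trans ?_
            calc C * A.t (y * s⁻¹) ≤ C * (A.t y / c) := by gcongr
              _ = C / c * A.t y := by ring
              _ ≤ C / c * (δ * r) := by gcongr
          have h6 : r - C / c * (δ * r) ≤ ‖A.act y 0 - ξ₀‖ := by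
            have h7 := norm_sub_norm_le (A.act (y * s⁻¹) 0 - ξ₀) (A.act y 0 - ξ₀)
            have h8 : (A.act (y * s⁻¹) 0 - ξ₀) - (A.act y 0 - ξ₀) =
              -(A.act y 0 - A.act (y * s⁻¹) 0) := by ring
            rw [h8, norm_neg] at h7
            linarith
          have h9 : ‖A.act y 0 - ξ₀‖ < r := hyU
          have hsub : {ξ : ℂ | K * A.t y < ‖ξ - A.act y 0‖}ᶜ ⊆ J := by
            intro ξ hξ
            have hξ' : ‖ξ - A.act y 0‖ ≤ K * A.t y := not_lt.1 hξ
            have h10 : K * A.t y ≤ K * (δ * r) := by gcongr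
            have h11 : ξ - ξ₀ = (ξ - A.act y 0) + (A.act y 0 - ξ₀) := by ring
            have h12 : K' * δ * r = K * (δ * r) + C / c * (δ * r) := by rw [hK']; ring
            have h13 : 0 ≤ C / c * (δ * r) := by positivity
            constructor
            · have h14 := norm_sub_norm_le (A.act y 0 - ξ₀) (-(ξ - A.act y 0))
              rw [sub_neg_eq_add, norm_neg, add_comm (A.act y 0 - ξ₀), ← h11] at h14
              linarith
            · rw [h11]
              refine (norm_add_le _ _).trans ?_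
              linarith
          have hKm : MeasurableSet {ξ : ℂ | K * A.t y < ‖ξ - A.act y 0‖} :=
            measurableSet_lt measurable_const (by fun_prop)
          haveI : IsProbabilityMeasure (ν.map (A.act y)) :=
            Measure.isProbabilityMeasure_map (A.measurable_act y).aemeasurable
          have h15 : (1 : ℝ≥0∞) ≤ 1 / 2 + pf A ν J y := by
            calc (1 : ℝ≥0∞) = (ν.map (A.act y)) univ := measure_univ.symm
              _ ≤ (ν.map (A.act y)) {ξ : ℂ | K * A.t y < ‖ξ - A.act y 0‖} +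
                  (ν.map (A.act y)) {ξ : ℂ | K * A.t y < ‖ξ - A.act y 0‖}ᶜ := by
                  rw [measure_add_measure_compl hKm]
              _ ≤ 1 / 2 + pf A ν J y :=
                  add_le_add (hconc y) (measure_mono hsub)
          have h16 : (1 / 2 : ℝ≥0∞) ≤ pf A ν J y := by
            have h17 : (1 / 2 : ℝ≥0∞) + 1 / 2 ≤ 1 / 2 + pf A ν J y := by
              rw [ENNReal.add_halves]; exact h15
            exact (ENNReal.add_le_add_iff_left (by simp)).1 h17
          calc (1 : ℝ≥0∞) = 2 * (1 / 2) := by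
                rw [one_div, ENNReal.mul_inv_cancel two_ne_zero ENNReal.ofNat_ne_top]
            _ ≤ 2 * pf A ν J y := by gcongr
        · rw [hfar, Set.indicator_of_notMem (by exact hty)]; exact zero_le
      · rw [Set.indicator_of_notMem hy]; exact zero_le
    refine (W.hit_mono h2 1).trans ?_
    rw [W.hit_const_mul, ← pf_one h hJm]
    gcongr
    exact W.hit_le (fun y _ => le_rfl) (fun y _ => (pf_harmonic h hJm y).symm.le) 1
  -- near points
  have hnear' : W.hit U near 1 ≤ T.card * b := by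
    refine (W.hit_le_tsum U near 1).trans ?_
    by_cases hne : ∃ y₁ ∈ U, δ * r ≤ A.t y₁
    · obtain ⟨y₁, hy₁U, hy₁⟩ := hne
      have hterm : ∀ y, Set.indicator U (fun y => W.F 1 y * near y) y ≤
          Set.indicator (↑(T.image (fun g => y₁ * g)) : Set Γ) (fun _ => b) y := by
        intro y
        by_cases hyU : y ∈ U
        · rw [Set.indicator_of_mem hyU]
          by_cases hy : δ * r ≤ A.t y
          · rw [hnear, Set.indicator_of_mem (by exact hy), mul_one, Set.indicator_of_mem]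
            · exact hb y hyU hy
            · rw [Finset.coe_image]
              refine ⟨y₁⁻¹ * y, ?_, by simp⟩
              have hU1 : ‖A.act y₁ 0 - ξ₀‖ < r := hy₁U
              have hU2 : ‖A.act y 0 - ξ₀‖ < r := hyU
              exact hT ξ₀ r hξ₀ hr y₁ y hy₁ hy (by linarith) (by linarith)
          · rw [hnear, Set.indicator_of_notMem (by exact hy), mul_zero]; exact zero_le
        · rw [Set.indicator_of_notMem hyU]; exact zero_le
      refine (ENNReal.tsum_le_tsum hterm).trans ?_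
      rw [← tsum_subtype,
        Finset.tsum_subtype' (T.image (fun g => y₁ * g)) (fun _ : Γ => b),
        Finset.sum_const, nsmul_eq_mul]
      exact mul_le_mul' (Nat.cast_le.2 Finset.card_image_le) le_rfl
    · have hz : ∀ y, Set.indicator U (fun y => W.F 1 y * near y) y = 0 := by
        intro y
        by_cases hyU : y ∈ U
        · rw [Set.indicator_of_mem hyU]
          have : ¬ δ * r ≤ A.t y := fun hy => hne ⟨y, hyU, hy⟩
          rw [hnear, Set.indicator_of_notMem (by exact this), mul_zero]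
        · rw [Set.indicator_of_notMem hyU]
      simp only [hz, tsum_zero]
      exact zero_le
  exact hfirst.trans (add_le_add hfar' hnear')

end Pool.Agent.Lib.KLG
end

section

/-!
# 2.3: good points near a Lebesgue point
-/

set_option autoImplicit false
open MeasureTheory Set Filter Topology
open scoped ENNReal ComplexConjugate

namespace Pool.Agent.Lib.KLG

open Pool.Agent.Lib.KLP

variable {Γ : Type*} [Group Γ] {A : Act Γ} {W : Walk Γ} {ν : Measure ℂ}

theorem good_near (h : Std A W ν) {ξ₀ : ℂ} {L : ℝ} (hL : LebPt ν ξ₀ L) :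
    ∃ c δ r₀ : ℝ, 0 < c ∧ 0 < δ ∧ 0 < r₀ ∧ ∀ r : ℝ, 0 < r → r < r₀ →
      ∃ γ ∈ A.U ξ₀ r, δ * r ≤ A.t γ ∧ ENNReal.ofReal (c * r) ≤ W.F 1 γ := by
  haveI := h.prob
  obtain ⟨hξ₀, hL0, hLeb⟩ := hL
  obtain ⟨K', hK', hnb⟩ := near_bound h
  have hK'0 : 0 < K' := by linarith
  set δ : ℝ := 1 / (128 * K') with hδ
  have hδ0 : 0 < δ := by positivity
  have hKδ : K' * δ = 1 / 128 := by rw [hδ]; field_simp
  have hδ1 : δ ≤ 1 := by nlinarith
  obtain ⟨N, hN⟩ := hnb δ hδ0 hδ1
  obtain ⟨r₁, hr₁, hleb⟩ := hLeb 2 two_pos (L / 128) (by positivity)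
  set c : ℝ := L / (40 * (N + 1)) with hc
  have hc0 : 0 < c := by positivity
  refine ⟨c, δ, min r₁ (1 / 2), hc0, hδ0, by positivity, ?_⟩
  intro r hr hrr
  have hrr₁ : r < r₁ := hrr.trans_le (min_le_left _ _)
  have hr2 : r < 1 / 2 := hrr.trans_le (min_le_right _ _)
  by_contra hcon
  push Not at hcon
  have hb : ∀ y ∈ A.U ξ₀ r, δ * r ≤ A.t y → W.F 1 y ≤ ENNReal.ofReal (c * r) :=
    fun y hy hty => (hcon y hy hty).le
  have hmain := hN ξ₀ r hξ₀ hr (by linarith) _ hb
  set J : Set ℂ := {ξ : ℂ | r - K' * δ * r ≤ ‖ξ - ξ₀‖ ∧ ‖ξ - ξ₀‖ ≤ r + K' * δ * r} with hJ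
  have hJm : MeasurableSet J := by
    have hm : Measurable (fun ξ : ℂ => ‖ξ - ξ₀‖) := by fun_prop
    exact (measurableSet_le measurable_const hm).inter (measurableSet_le hm measurable_const)
  have hJsub : J ⊆ Metric.closedBall ξ₀ (2 * r) := by
    intro ξ hξ
    rw [Metric.mem_closedBall, dist_eq_norm]
    have := hξ.2
    rw [hKδ] at this
    linarith
  have hcJ : (circ J).toReal ≤ 2 * (r / 128) := by
    have h1 := circ_annulus_le hξ₀ (r := r) (a := K' * δ * r) hr.le (by rw [hKδ]; positivity)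
      (by rw [hKδ]; linarith)
    rw [← hJ] at h1
    have h2 := ENNReal.toReal_mono ENNReal.ofReal_ne_top h1
    rw [ENNReal.toReal_ofReal (by rw [hKδ]; positivity), hKδ] at h2
    linarith
  have hνJ : (ν J).toReal ≤ L * (2 * (r / 128)) + L / 128 * r := by
    have h1 := (abs_le.1 (hleb r hr hrr₁ J hJm hJsub)).2
    have h2 : L * (circ J).toReal ≤ L * (2 * (r / 128)) := by gcongr
    linarith
  have hBsub : Metric.ball ξ₀ (r / 2) ⊆ Metric.closedBall ξ₀ (2 * r) :=
    Metric.ball_subset_closedBall.trans (Metric.closedBall_subset_closedBall (by linarith))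
  have hcfin : circ (Metric.ball ξ₀ (r / 2)) ≠ ∞ := by
    have h1 := circ_closedBall_le ξ₀ (ρ := r / 2) (by positivity)
    exact ((measure_mono Metric.ball_subset_closedBall).trans h1).trans_lt
      ENNReal.ofReal_lt_top |>.ne
  have hcB : r / 8 ≤ (circ (Metric.ball ξ₀ (r / 2))).toReal := by
    have h1 := le_circ_ball hξ₀ (ρ := r / 2) (by positivity) (by linarith)
    have h2 := ENNReal.toReal_mono hcfin h1
    rw [ENNReal.toReal_ofReal (by positivity)] at h2
    linarith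
  have hνB : L * (r / 8) - L / 128 * r ≤ (ν (Metric.ball ξ₀ (r / 2))).toReal := by
    have h1 := (abs_le.1 (hleb r hr hrr₁ _ measurableSet_ball hBsub)).1
    have h2 : L * (r / 8) ≤ L * (circ (Metric.ball ξ₀ (r / 2))).toReal := by gcongr
    linarith
  have hfin : (ν (Metric.ball ξ₀ (r / 2))).toReal ≤ 2 * (ν J).toReal + N * (c * r) := by
    have h1 : 2 * ν J + N * ENNReal.ofReal (c * r) ≠ ∞ := by
      apply ENNReal.add_ne_top.2 ⟨?_, ?_⟩
      · exact ENNReal.mul_ne_top (by simp) (measure_ne_top _ _)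
      · exact ENNReal.mul_ne_top (by simp) ENNReal.ofReal_ne_top
    have h2 := ENNReal.toReal_mono h1 hmain
    rw [ENNReal.toReal_add (ENNReal.mul_ne_top (by simp) (measure_ne_top _ _))
      (ENNReal.mul_ne_top (by simp) ENNReal.ofReal_ne_top), ENNReal.toReal_mul,
      ENNReal.toReal_mul, ENNReal.toReal_ofReal (by positivity)] at h2
    simpa using h2
  have hNc : (N : ℝ) * (c * r) ≤ L / 40 * r := by
    rw [hc]
    have h1 : (N : ℝ) * (L / (40 * (N + 1)) * r) = (N / (N + 1)) * (L / 40 * r) := by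
      field_simp
    rw [h1]
    have h2 : (N : ℝ) / (N + 1) ≤ 1 := by
      rw [div_le_one (by positivity)]; linarith
    have h3 : 0 ≤ L / 40 * r := by positivity
    nlinarith
  have hLr : 0 < L * r := by positivity
  nlinarith

end Pool.Agent.Lib.KLG
end

section

/-!
# The set of boundary points approached conically at all small scales
-/

set_option autoImplicit false
open MeasureTheory Set Filter Topology
open scoped ENNReal ComplexConjugate

namespace Pool.Agent.Lib.KLG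

open Pool.Agent.Lib.KLP

variable {Γ : Type*} [Group Γ] {A : Act Γ} {W : Walk Γ} {ν : Measure ℂ}

/-- Boundary points which are near orbit points of comparable height at all small scales. -/
def Gd (A : Act Γ) (m : ℕ) : Set ℂ :=
  {ξ | ‖ξ‖ = 1 ∧ ∀ r : ℝ, 0 < r → r < 1 / ((m : ℝ) + 1) →
    ∃ γ : Γ, ‖A.act γ 0 - ξ‖ ≤ r ∧ r / ((m : ℝ) + 1) ≤ A.t γ}

theorem isClosed_Gd (A : Act Γ) (m : ℕ) : IsClosed (Gd A m) := by
  have h1 : Gd A m = {ξ : ℂ | ‖ξ‖ = 1} ∩ ⋂ r : ℝ, ⋂ _ : 0 < r, ⋂ _ : r < 1 / ((m : ℝ) + 1),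
      ⋃ γ ∈ {g : Γ | r / ((m : ℝ) + 1) ≤ A.t g}, {ξ : ℂ | ‖A.act γ 0 - ξ‖ ≤ r} := by
    ext ξ
    simp only [Gd, mem_setOf_eq, mem_inter_iff, mem_iInter, mem_iUnion, exists_prop]
    constructor
    · rintro ⟨h, h2⟩
      refine ⟨h, fun r hr hr' => ?_⟩
      obtain ⟨γ, h3, h4⟩ := h2 r hr hr'
      exact ⟨γ, h4, h3⟩
    · rintro ⟨h, h2⟩
      refine ⟨h, fun r hr hr' => ?_⟩
      obtain ⟨γ, h3, h4⟩ := h2 r hr hr'
      exact ⟨γ, h4, h3⟩
  rw [h1]
  refine (isClosed_eq continuous_norm continuous_const).inter ?_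
  refine isClosed_iInter fun r => isClosed_iInter fun hr => isClosed_iInter fun _ => ?_
  have hfin : {g : Γ | r / ((m : ℝ) + 1) ≤ A.t g}.Finite :=
    A.finite_t (by positivity)
  refine hfin.isClosed_biUnion fun γ _ => ?_
  exact isClosed_le (by fun_prop) continuous_const

theorem exists_Gd_pos (h : Std A W ν) (hac : ν ≪ circ) : ∃ m : ℕ, circ (Gd A m) ≠ 0 := by
  haveI := h.prob
  by_contra hcon
  push Not at hcon
  have h0 : ν (⋃ m : ℕ, Gd A m) = 0 := by
    rw [measure_iUnion_null_iff]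
    exact fun m => hac (hcon m)
  have h1 : ∀ᵐ ξ ∂ν, ξ ∈ ⋃ m : ℕ, Gd A m := by
    filter_upwards [ae_lebPt ν hac] with ξ hξ
    obtain ⟨L, hL⟩ := hξ
    obtain ⟨c, δ, r₀, hc, hδ, hr₀, hg⟩ := good_near h hL
    have hpos : 0 < min δ r₀ := lt_min hδ hr₀
    obtain ⟨m, hm⟩ := exists_nat_one_div_lt hpos
    rw [mem_iUnion]
    refine ⟨m, hL.1, fun r hr hr' => ?_⟩
    have hr2 : r < r₀ := hr'.trans (hm.trans_le (min_le_right _ _))
    obtain ⟨γ, hγ, hγ2, -⟩ := hg r hr hr2
    refine ⟨γ, le_of_lt hγ, le_trans ?_ hγ2⟩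
    have hδ' : 1 / ((m : ℝ) + 1) ≤ δ := (hm.trans_le (min_le_left _ _)).le
    calc r / ((m : ℝ) + 1) = (1 / ((m : ℝ) + 1)) * r := by ring
      _ ≤ δ * r := by gcongr
  have h2 : ν univ = 0 := by
    have h3 : ν (⋃ m : ℕ, Gd A m)ᶜ = 0 := by
      rw [ae_iff] at h1
      exact h1
    have h4 : (univ : Set ℂ) ⊆ (⋃ m : ℕ, Gd A m) ∪ (⋃ m : ℕ, Gd A m)ᶜ := by
      rw [union_compl_self]
    have h5 := (measure_mono h4 (μ := ν)).trans (measure_union_le _ _)
    rw [h0, h3] at h5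
    simpa using h5
  rw [measure_univ] at h2
  exact one_ne_zero h2

end Pool.Agent.Lib.KLG
end

section

/-!
# Zooming in at a density point of the good set
-/

set_option autoImplicit false
open MeasureTheory Set Filter Topology
open scoped ENNReal ComplexConjugate

namespace Pool.Agent.Lib.KLG

open Pool.Agent.Lib.KLP

variable {Γ : Type*} [Group Γ] {A : Act Γ}

private theorem zc_t_le (A : Act Γ) (g : Γ) {ξ : ℂ} (hξ : ‖ξ‖ = 1) :
    A.t g ≤ 2 * ‖A.act g 0 - ξ‖ := by
  have h1 : ‖ξ‖ - ‖A.act g 0‖ ≤ ‖A.act g 0 - ξ‖ := by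
    rw [norm_sub_rev]; exact norm_sub_norm_le _ _
  have h2 : ‖A.act g 0‖ < 1 := A.norm_act_lt g (by simp)
  have h3 := norm_nonneg (A.act g 0)
  unfold Act.t
  rw [hξ] at h1
  nlinarith

private theorem zc_J_le (A : Act Γ) (g : Γ) {w : ℂ} (hw : ‖w‖ ≤ 1) :
    A.J g w ≤ 4 / A.t g := by
  have ht := A.t_pos g
  have h2 : ‖A.act g⁻¹ 0‖ < 1 := A.norm_act_lt g⁻¹ (by simp)
  have h3 := norm_nonneg (A.act g⁻¹ 0)
  have h4 : A.t g = 1 - ‖A.act g⁻¹ 0‖ ^ 2 := by
    rw [← A.t_inv g]; rfl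
  have h5 : A.t g / 2 ≤ ‖1 - conj (A.act g⁻¹ 0) * w‖ := by
    have h6 := norm_sub_norm_le (1 : ℂ) (conj (A.act g⁻¹ 0) * w)
    rw [norm_one, norm_mul, RCLike.norm_conj] at h6
    have h7 : ‖A.act g⁻¹ 0‖ * ‖w‖ ≤ ‖A.act g⁻¹ 0‖ := by
      have := norm_nonneg w
      nlinarith
    nlinarith
  unfold Act.J
  have h8 : (A.t g / 2) ^ 2 ≤ ‖1 - conj (A.act g⁻¹ 0) * w‖ ^ 2 :=
    pow_le_pow_left₀ (by positivity) h5 2
  calc A.t g / ‖1 - conj (A.act g⁻¹ 0) * w‖ ^ 2 ≤ A.t g / (A.t g / 2) ^ 2 :=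
        div_le_div_of_nonneg_left ht.le (by positivity) h8
    _ = 4 / A.t g := by field_simp; norm_num

/-- the algebraic part of the zoom -/
private theorem zc_core (A : Act Γ) {M r σ b : ℝ} (hM : 0 < M) (hr : 0 < r) (hσ : 0 < σ)
    (hσ1 : σ ≤ 1) (hb : 0 < b) {g h : Γ} {ξ₁ η' ξ : ℂ} (hξ₁ : ‖ξ₁‖ = 1) (hη' : ‖η'‖ = 1)
    (hξ : ‖ξ‖ = 1) (h1 : ‖A.act g 0 - ξ₁‖ ≤ r) (h2 : r / M ≤ A.t g)
    (hbz : b / 2 ≤ ‖ξ - A.act g⁻¹ 0‖) (h3 : ‖η' - A.act g ξ‖ ≤ σ * r)
    (h4 : ‖A.act h 0 - η'‖ ≤ σ * r) (h5 : σ * r / M ≤ A.t h) :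
    ‖A.act (g⁻¹ * h) 0 - ξ‖ ≤ (8 * M) * σ ∧
      1 / (M ^ 2 * ((4 / b + 2) ^ 2 + 4)) * σ ≤ A.t (g⁻¹ * h) := by
  have h0 : ‖(0 : ℂ)‖ ≤ 1 := by simp
  have htg := A.t_pos g
  have hth := A.t_pos h
  have htg2 : A.t g ≤ 2 * r := (zc_t_le A g hξ₁).trans (by linarith)
  have hth2 : A.t h ≤ 2 * r := by
    refine (zc_t_le A h hη').trans ?_
    have : σ * r ≤ r := by nlinarith
    linarith
  have hσr : σ * r ≤ r := by nlinarith
  -- the point `η = g ξ`
  have hη : ‖A.act g ξ‖ = 1 := A.norm_act_eq g hξ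
  have hd1 : ‖A.act g ξ - A.act g 0‖ ≤ 4 * r / b := by
    have hc := A.circle_dist g hξ
    have hpos : 0 < ‖ξ - A.act g⁻¹ 0‖ := by linarith
    have : ‖A.act g ξ - A.act g 0‖ * (b / 2) ≤ 2 * r := by
      calc ‖A.act g ξ - A.act g 0‖ * (b / 2) ≤ ‖A.act g ξ - A.act g 0‖ * ‖ξ - A.act g⁻¹ 0‖ :=
            mul_le_mul_of_nonneg_left hbz (norm_nonneg _)
        _ = A.t g := hc
        _ ≤ 2 * r := htg2
    rw [le_div_iff₀ hb]
    linarith
  have hd2 : ‖A.act h 0 - A.act g ξ‖ ≤ 2 * (σ * r) := by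
    have : A.act h 0 - A.act g ξ = (A.act h 0 - η') + (η' - A.act g ξ) := by ring
    rw [this]
    exact (norm_add_le _ _).trans (by linarith)
  constructor
  · have e1 : A.act (g⁻¹ * h) 0 = A.act g⁻¹ (A.act h 0) := A.mul _ _ _ h0
    have e2 : ξ = A.act g⁻¹ (A.act g ξ) := (A.inv_act_act g hξ.le).symm
    have hh : ‖A.act h 0‖ ≤ 1 := A.norm_act_le h h0
    have hd := A.dist_act g⁻¹ hh hη.le
    rw [← e1, ← e2] at hd
    have hJ1 := zc_J_le A g⁻¹ hh
    have hJ2 := zc_J_le A g⁻¹ hη.le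
    rw [A.t_inv] at hJ1 hJ2
    have hJ0 : 4 / A.t g ≤ 4 * M / r := by
      rw [div_le_div_iff₀ htg hr]
      rw [div_le_iff₀ hM] at h2
      nlinarith
    have hJp1 := A.J_pos g⁻¹ hh
    have hJp2 := A.J_pos g⁻¹ hη.le
    have hsq : ‖A.act (g⁻¹ * h) 0 - ξ‖ ^ 2 ≤ ((8 * M) * σ) ^ 2 := by
      rw [hd]
      calc A.J g⁻¹ (A.act h 0) * A.J g⁻¹ (A.act g ξ) * ‖A.act h 0 - A.act g ξ‖ ^ 2
          ≤ (4 * M / r) * (4 * M / r) * (2 * (σ * r)) ^ 2 := by
            apply mul_le_mul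
            · exact mul_le_mul (hJ1.trans hJ0) (hJ2.trans hJ0) hJp2.le (by positivity)
            · exact pow_le_pow_left₀ (norm_nonneg _) hd2 2
            · positivity
            · positivity
        _ = ((8 * M) * σ) ^ 2 := by field_simp; ring
    exact (pow_le_pow_iff_left₀ (norm_nonneg _) (by positivity) two_ne_zero).1 hsq
  · rw [← A.kap_orbit g h]
    unfold kap
    have e1 : 1 - ‖A.act g 0‖ ^ 2 = A.t g := rfl
    have e2 : 1 - ‖A.act h 0‖ ^ 2 = A.t h := rfl
    rw [norm_one_sub_conj_mul_sq, e1, e2]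
    have hd3 : ‖A.act g 0 - A.act h 0‖ ≤ (4 / b + 2) * r := by
      have : A.act g 0 - A.act h 0 = -(A.act g ξ - A.act g 0) - (A.act h 0 - A.act g ξ) := by ring
      rw [this]
      refine (norm_sub_le _ _).trans ?_
      rw [norm_neg]
      have : (4 / b + 2) * r = 4 * r / b + 2 * r := by ring
      linarith
    have hden : ‖A.act g 0 - A.act h 0‖ ^ 2 + A.t g * A.t h ≤ ((4 / b + 2) ^ 2 + 4) * r ^ 2 := by
      have h6 : ‖A.act g 0 - A.act h 0‖ ^ 2 ≤ ((4 / b + 2) * r) ^ 2 :=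
        pow_le_pow_left₀ (norm_nonneg _) hd3 2
      have h7 : A.t g * A.t h ≤ (2 * r) * (2 * r) := mul_le_mul htg2 hth2 hth.le (by positivity)
      nlinarith
    have hdpos : 0 < ‖A.act g 0 - A.act h 0‖ ^ 2 + A.t g * A.t h := by positivity
    have hnum : (r / M) * (σ * r / M) ≤ A.t g * A.t h := mul_le_mul h2 h5 (by positivity) htg.le
    calc 1 / (M ^ 2 * ((4 / b + 2) ^ 2 + 4)) * σ
        = (r / M) * (σ * r / M) / (((4 / b + 2) ^ 2 + 4) * r ^ 2) := by
          have h8 : 0 < (4 / b + 2) ^ 2 + 4 := by positivity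
          generalize (4 / b + 2) ^ 2 + 4 = K at h8
          field_simp
      _ ≤ A.t g * A.t h / (((4 / b + 2) ^ 2 + 4) * r ^ 2) := by gcongr
      _ ≤ A.t g * A.t h / (‖A.act g 0 - A.act h 0‖ ^ 2 + A.t g * A.t h) := by gcongr

theorem zoom_near (A : Act Γ) {m : ℕ} (hpos : circ (Gd A m) ≠ 0) :
    ∃ z : ℂ, ‖z‖ = 1 ∧ ∀ b : ℝ, 0 < b → ∃ c C : ℝ, 0 < c ∧ 0 < C ∧ ∀ ξ : ℂ, ‖ξ‖ = 1 →
      b ≤ ‖ξ - z‖ → ∀ σ : ℝ, 0 < σ → σ ≤ 1 →
        ∃ k : Γ, ‖A.act k 0 - ξ‖ ≤ C * σ ∧ c * σ ≤ A.t k := by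
  obtain ⟨ξ₁, hξ₁G, hξ₁, hdens⟩ := exists_density (isClosed_Gd A m).measurableSet hpos
  set M : ℝ := (m : ℝ) + 1 with hMdef
  have hM : 0 < M := by positivity
  -- the scales
  set r : ℕ → ℝ := fun n => 1 / M * (1 / ((n : ℝ) + 2)) with hrdef
  have hr : ∀ n, 0 < r n := fun n => by positivity
  have hr1 : ∀ n, r n < 1 / M := by
    intro n
    have h1 : (1 : ℝ) / ((n : ℝ) + 2) < 1 := by
      rw [div_lt_one (by positivity)]
      have : (0 : ℝ) ≤ n := Nat.cast_nonneg n
      linarith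
    have h2 : 0 < 1 / M := by positivity
    calc r n = 1 / M * (1 / ((n : ℝ) + 2)) := rfl
      _ < 1 / M * 1 := by gcongr
      _ = 1 / M := mul_one _
  have hr0 : Tendsto r atTop (𝓝 0) := by
    have h1 : Tendsto (fun n : ℕ => (1 : ℝ) / ((n : ℝ) + 2)) atTop (𝓝 0) := by
      refine Tendsto.div_atTop tendsto_const_nhds ?_
      exact tendsto_atTop_add_const_right _ _ tendsto_natCast_atTop_atTop
    have h2 := h1.const_mul (1 / M)
    rw [mul_zero] at h2
    exact h2
  choose γ hγ1 hγ2 using fun n => hξ₁G.2 (r n) (hr n) (hr1 n)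
  -- a limit of `γ_n⁻¹ 0`
  have hball : ∀ n, A.act (γ n)⁻¹ 0 ∈ Metric.closedBall (0 : ℂ) 1 := by
    intro n
    rw [mem_closedBall_zero_iff]
    exact A.norm_act_le _ (by simp)
  obtain ⟨z, _, φ, hφ, hz⟩ := (isCompact_closedBall (0 : ℂ) 1).tendsto_subseq hball
  have hrφ : Tendsto (fun n => r (φ n)) atTop (𝓝 0) := hr0.comp hφ.tendsto_atTop
  have htφ : Tendsto (fun n => A.t (γ (φ n))) atTop (𝓝 0) := by
    refine squeeze_zero (fun n => (A.t_pos _).le) (fun n => ?_) (g := fun n => 2 * r (φ n)) ?_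
    · exact (zc_t_le A _ hξ₁).trans (by linarith [hγ1 (φ n)])
    · simpa using hrφ.const_mul 2
  have hz1 : ‖z‖ = 1 := by
    have h1 : Tendsto (fun n => ‖A.act (γ (φ n))⁻¹ 0‖ ^ 2) atTop (𝓝 (‖z‖ ^ 2)) :=
      (hz.norm).pow 2
    have h2 : (fun n => ‖A.act (γ (φ n))⁻¹ 0‖ ^ 2) = fun n => 1 - A.t (γ (φ n)) := by
      funext n
      rw [← A.t_inv]
      unfold Act.t
      ring
    rw [h2] at h1
    have h3 : Tendsto (fun n => 1 - A.t (γ (φ n))) atTop (𝓝 1) := by
      simpa using htφ.const_sub 1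
    have h4 := tendsto_nhds_unique h1 h3
    have h5 : ‖z‖ ^ 2 = 1 ^ 2 := by rw [h4]; norm_num
    exact (pow_left_inj₀ (norm_nonneg _) zero_le_one two_ne_zero).1 h5
  refine ⟨z, hz1, fun b hb => ⟨1 / (M ^ 2 * ((4 / b + 2) ^ 2 + 4)), 8 * M, by positivity,
    by positivity, fun ξ hξ hbξ σ hσ hσ1 => ?_⟩⟩
  set R : ℝ := 1 + 4 / b with hR
  have hRpos : 0 < R := by positivity
  obtain ⟨ρ₀, hρ₀, hρ⟩ := hdens (σ / (8 * (R + 1))) (by positivity)
  -- choose the scale
  have ev1 : ∀ᶠ n in atTop, dist (A.act (γ (φ n))⁻¹ 0) z < b / 2 :=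
    (Metric.tendsto_nhds.1 hz) (b / 2) (by positivity)
  have ev2 : ∀ᶠ n in atTop, (R + 1) * r (φ n) < ρ₀ := by
    have h1 : Tendsto (fun n => (R + 1) * r (φ n)) atTop (𝓝 0) := by
      simpa using hrφ.const_mul (R + 1)
    exact h1.eventually_lt_const hρ₀
  obtain ⟨n, hn1, hn2⟩ := (ev1.and ev2).exists
  set g := γ (φ n) with hg
  set rn := r (φ n) with hrn
  have hrnpos : 0 < rn := hr _
  have hbz : b / 2 ≤ ‖ξ - A.act g⁻¹ 0‖ := by
    have h1 : ‖ξ - z‖ ≤ ‖ξ - A.act g⁻¹ 0‖ + ‖A.act g⁻¹ 0 - z‖ := by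
      have : ξ - z = (ξ - A.act g⁻¹ 0) + (A.act g⁻¹ 0 - z) := by ring
      rw [this]; exact norm_add_le _ _
    rw [dist_eq_norm] at hn1
    linarith
  have hgξ : ‖A.act g ξ‖ = 1 := A.norm_act_eq g hξ
  have hd1 : ‖A.act g ξ - A.act g 0‖ ≤ 4 / b * rn := by
    have hc := A.circle_dist g hξ
    have htg2 : A.t g ≤ 2 * rn := (zc_t_le A g hξ₁).trans (by linarith [hγ1 (φ n)])
    have : ‖A.act g ξ - A.act g 0‖ * (b / 2) ≤ 2 * rn := by
      calc ‖A.act g ξ - A.act g 0‖ * (b / 2) ≤ ‖A.act g ξ - A.act g 0‖ * ‖ξ - A.act g⁻¹ 0‖ :=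
            mul_le_mul_of_nonneg_left hbz (norm_nonneg _)
        _ = A.t g := hc
        _ ≤ 2 * rn := htg2
    rw [div_mul_eq_mul_div, le_div_iff₀ hb]
    linarith
  have hd2 : ‖A.act g ξ - ξ₁‖ ≤ R * rn := by
    have : A.act g ξ - ξ₁ = (A.act g ξ - A.act g 0) + (A.act g 0 - ξ₁) := by ring
    rw [this]
    refine (norm_add_le _ _).trans ?_
    have := hγ1 (φ n)
    rw [hR]
    linarith
  have hσr : σ * rn ≤ rn := by nlinarith
  have hrn1 : rn < 1 / M := hr1 _
  -- a good point near `g ξ`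
  obtain ⟨η', hη'b, hη'G⟩ : ∃ η' ∈ Metric.ball (A.act g ξ) (σ * rn), η' ∈ Gd A m := by
    by_contra hcon
    push Not at hcon
    have hsub : Metric.ball (A.act g ξ) (σ * rn) ⊆
        Metric.closedBall ξ₁ ((R + 1) * rn) \ Gd A m := by
      intro y hy
      refine ⟨?_, hcon y hy⟩
      rw [mem_ball_iff_norm] at hy
      rw [mem_closedBall_iff_norm]
      have : y - ξ₁ = (y - A.act g ξ) + (A.act g ξ - ξ₁) := by ring
      rw [this]
      refine (norm_add_le _ _).trans ?_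
      have : (R + 1) * rn = rn + R * rn := by ring
      linarith
    have hle2 : σ * rn ≤ 2 := by
      have h1M : 1 / M ≤ 1 := by
        rw [div_le_one hM, hMdef]
        have : (0 : ℝ) ≤ m := Nat.cast_nonneg m
        linarith
      linarith
    have h1 := le_circ_ball hgξ (ρ := σ * rn) (by positivity) hle2
    have h2 := hρ ((R + 1) * rn) (by positivity) hn2
    have h3 := (h1.trans (measure_mono hsub)).trans h2
    rw [ENNReal.ofReal_le_ofReal_iff (by positivity)] at h3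
    have h4 : σ / (8 * (R + 1)) * ((R + 1) * rn) = σ * rn / 8 := by
      field_simp
    rw [h4] at h3
    have : 0 < σ * rn := by positivity
    linarith
  have hη' : ‖η'‖ = 1 := hη'G.1
  have hσrn : σ * rn < 1 / M := by linarith
  obtain ⟨h, hh1, hh2⟩ := hη'G.2 (σ * rn) (by positivity) hσrn
  refine ⟨g⁻¹ * h, ?_⟩
  rw [mem_ball_iff_norm] at hη'b
  exact zc_core A hM hrnpos hσ hσ1 hb hξ₁ hη' hξ (hγ1 (φ n)) (hγ2 (φ n)) hbz hη'b.le hh1 hh2

end Pool.Agent.Lib.KLG
end
end
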