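import Pool.Agent.Lib.MP_b16327_pr.Defs
import Pool.Agent.Lib.MP_a137af_pr.CircMap
import Pool.Agent.Lib.MP_b16327_pr.ActGeom
import Pool.Agent.Lib.MP_a137af_pr.Zeros
import Pool.Agent.Lib.MP_a137af_pr.Upper
import Pool.Agent.Lib.MP_b16327_pr.ZoomCoc
import Pool.Agent.Lib.MP_a137af_pr.FarPt
import Pool.Agent.Lib.MP_a137af_pr.RatioIter
import Pool.Agent.Lib.MP_a137af_pr.BlochEx
import Pool.Agent.Lib.MP_a137af_pr.DetZero
import Pool.Agent.Lib.MP_a137af_pr.IsomClass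

section

/-!
# S7: reduction to absolutely continuous measures
-/

set_option autoImplicit false
open MeasureTheory Set Filter Topology
open scoped ENNReal ComplexConjugate

namespace Pool.Agent.Lib.KLG

open Pool.Agent.Lib.KLP

variable {Γ : Type*} [Group Γ]

private theorem ld_circ_map_ac {f : ℂ → ℂ} (hf : IsDiscIso f) : circ.map f ≪ circ := by
  rw [circ_map hf]
  exact withDensity_absolutelyContinuous _ _

private theorem ld_sing (A : Act Γ) (g : Γ) {m : Measure ℂ} (hm : ∀ᵐ z ∂m, ‖z‖ = 1)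
    (hs : m ⟂ₘ circ) : m.map (A.act g) ⟂ₘ circ := by
  obtain ⟨N, hN, hN1, hN2⟩ := hs
  refine ⟨A.act g⁻¹ ⁻¹' N, A.measurable_act g⁻¹ hN, ?_, ?_⟩
  · rw [Measure.map_apply (A.measurable_act g) (A.measurable_act g⁻¹ hN)]
    rw [← hN1]
    apply measure_congr
    filter_upwards [hm] with z hz
    apply propext
    change A.act g⁻¹ (A.act g z) ∈ N ↔ z ∈ N
    rw [A.inv_act_act g hz.le]
  · rw [← preimage_compl, ← Measure.map_apply (A.measurable_act g⁻¹) hN.compl]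
    exact ld_circ_map_ac (A.iso g⁻¹) hN2

private theorem ld_ac (A : Act Γ) (g : Γ) {m : Measure ℂ} (hm : m ≪ circ) :
    m.map (A.act g) ≪ circ :=
  (hm.map (A.measurable_act g)).trans (ld_circ_map_ac (A.iso g))

theorem singular_of_no_ac (A : Act Γ) (W : Walk Γ)
    (hno : ∀ ν : Measure ℂ, IsProbabilityMeasure ν → ν ≪ circ → Stationary A W ν → False)
    (ν : Measure ℂ) [IsProbabilityMeasure ν] (hT : ∀ᵐ z ∂ν, ‖z‖ = 1)
    (hst : Stationary A W ν) : ν ⟂ₘ circ := by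
  set νs : Measure ℂ := ν.singularPart circ with hνs
  set νa : Measure ℂ := circ.withDensity (ν.rnDeriv circ) with hνa
  have hdec : νs + νa = ν := Measure.singularPart_add_rnDeriv ν circ
  have hsing : νs ⟂ₘ circ := Measure.mutuallySingular_singularPart ν circ
  have hac : νa ≪ circ := withDensity_absolutelyContinuous _ _
  have hsle : νs ≤ ν := Measure.singularPart_le ν circ
  have hale : νa ≤ ν := by rw [← hdec]; exact Measure.le_add_left le_rfl
  by_cases h0 : νa = 0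
  · rw [← hdec, h0, add_zero]
    exact hsing
  exfalso
  have hafin : IsFiniteMeasure νa :=
    ⟨lt_of_le_of_lt (hale univ) (measure_lt_top ν univ)⟩
  have hsn : ∀ᵐ z ∂νs, ‖z‖ = 1 := (Measure.absolutelyContinuous_of_le hsle).ae_le hT
  set T : Measure ℂ → Measure ℂ :=
    fun m => ∑ s ∈ W.S, ENNReal.ofReal (W.μ s) • m.map (A.act s) with hTdef
  have hTadd : T ν = T νs + T νa := by
    rw [hTdef]
    simp only
    rw [← Finset.sum_add_distrib]
    refine Finset.sum_congr rfl fun s _ => ?_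
    rw [← smul_add, ← Measure.map_add _ _ (A.measurable_act s), hdec]
  have hTs : T νs ⟂ₘ circ := by
    rw [hTdef]
    simp only
    refine Finset.sum_induction _ (fun m : Measure ℂ => m ⟂ₘ circ)
      (fun a b ha hb => ha.add_left hb) Measure.MutuallySingular.zero_left ?_
    intro s _
    exact Measure.MutuallySingular.smul _ (ld_sing A s hsn hsing)
  have hTa : T νa ≪ circ := by
    rw [hTdef]
    simp only
    refine Finset.sum_induction _ (fun m : Measure ℂ => m ≪ circ) ?_ ?_ ?_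
    · intro a b ha hb E hE
      rw [Measure.add_apply, ha hE, hb hE, add_zero]
    · exact Measure.AbsolutelyContinuous.zero _
    · intro s _
      exact (ld_ac A s hac).smul_left _
  have hTν : T ν = ν := hst.symm
  have hTafin : IsFiniteMeasure (T νa) := by
    refine ⟨lt_of_le_of_lt ?_ (measure_lt_top ν univ)⟩
    conv_rhs => rw [← hTν, hTadd]
    rw [Measure.add_apply]
    exact le_add_self
  have hwd : circ.withDensity ((T νa).rnDeriv circ) = T νa :=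
    Measure.withDensity_rnDeriv_eq _ _ hTa
  have hTeq : T νa = νa := by
    have h1 : ν = T νs + circ.withDensity ((T νa).rnDeriv circ) := by
      rw [hwd, ← hTadd, hTν]
    have h2 := Measure.eq_withDensity_rnDeriv (Measure.measurable_rnDeriv _ _) hTs h1
    rw [← hwd, h2]
  have hm0 : νa univ ≠ 0 := by
    intro h
    exact h0 (Measure.measure_univ_eq_zero.1 h)
  have hmtop : νa univ ≠ ∞ := measure_ne_top _ _
  refine hno ((νa univ)⁻¹ • νa) ?_ ?_ ?_
  · refine ⟨?_⟩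
    rw [Measure.smul_apply, smul_eq_mul, ENNReal.inv_mul_cancel hm0 hmtop]
  · exact hac.smul_left _
  · unfold Stationary
    have h3 : νa = ∑ s ∈ W.S, ENNReal.ofReal (W.μ s) • νa.map (A.act s) := hTeq.symm
    generalize (νa univ)⁻¹ = c
    conv_lhs => rw [h3]
    rw [Finset.smul_sum]
    refine Finset.sum_congr rfl fun s _ => ?_
    rw [Measure.map_smul, smul_comm]

end Pool.Agent.Lib.KLG
end

section

section

/-!
# B14: growth of Bloch functions with periods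
-/

set_option autoImplicit false
open MeasureTheory Set Filter Topology
open scoped ENNReal ComplexConjugate

namespace Pool.Agent.Lib.KLP

variable {Δ : Type*} [Group Δ] {A : DAct Δ}

private lemma growth_inv (h : HF A) {b : ℂ → ℂ} (hb : DifferentiableOn ℂ b (Metric.ball 0 1))
    (g : Δ) {c : ℂ} (hc : ∀ z, ‖z‖ < 1 → b (A.act g z) = b z + c) {z : ℂ} (hz : ‖z‖ < 1) :
    ‖deriv b (A.act g z)‖ * (1 - ‖A.act g z‖ ^ 2) = ‖deriv b z‖ * (1 - ‖z‖ ^ 2) := by
  have hgz : ‖A.act g z‖ < 1 := A.norm_act_lt g hz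
  have hb1 : DifferentiableAt ℂ b (A.act g z) :=
    hb.differentiableAt (Metric.isOpen_ball.mem_nhds (by simpa using hgz))
  have h1 : HasDerivAt (fun w => b (A.act g w)) (deriv b (A.act g z) * deriv (A.act g) z) z :=
    hb1.hasDerivAt.comp z (differentiableAt_act h g hz).hasDerivAt
  have h2 : (fun w => b (A.act g w)) =ᶠ[𝓝 z] fun w => b w + c := by
    filter_upwards [Metric.isOpen_ball.mem_nhds (show z ∈ Metric.ball (0 : ℂ) 1 by simpa using hz)]
      with w hw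
    exact hc w (by simpa using hw)
  have h3 : deriv b (A.act g z) * deriv (A.act g) z = deriv b z := by
    rw [← h1.deriv, h2.deriv_eq, deriv_add_const]
  rw [← h3, norm_mul, norm_deriv_act h g hz, A.tau_act g hz.le]
  ring

theorem bloch_growth (h : HF A) {b : ℂ → ℂ} (hb : DifferentiableOn ℂ b (Metric.ball 0 1))
    (hper : ∀ g, ∃ c, ∀ z, ‖z‖ < 1 → b (A.act g z) = b z + c) :
    ∃ C : ℝ, 0 ≤ C ∧ ∀ z, ‖z‖ < 1 → ‖b z‖ ≤ C * (1 + Real.log (1 / (1 - ‖z‖))) := by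
  obtain ⟨ρ, hρ, hco⟩ := A.cocompact
  have han : AnalyticOnNhd ℂ b (Metric.ball 0 1) := hb.analyticOnNhd Metric.isOpen_ball
  have hcont : ContinuousOn (deriv b) (Metric.closedBall 0 ρ) := by
    intro z hz
    have hz1 : z ∈ Metric.ball (0 : ℂ) 1 := by
      simp only [Metric.mem_closedBall, dist_zero_right, Metric.mem_ball] at hz ⊢
      exact lt_of_le_of_lt hz hρ
    exact (han.deriv z hz1).continuousAt.continuousWithinAt
  obtain ⟨C₁, hC₁⟩ := (isCompact_closedBall (0 : ℂ) ρ).exists_bound_of_continuousOn hcont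
  set C₀ : ℝ := max C₁ 0 with hC₀
  have hC₀0 : 0 ≤ C₀ := le_max_right _ _
  have hbd : ∀ z, ‖z‖ < 1 → ‖deriv b z‖ * (1 - ‖z‖ ^ 2) ≤ C₀ := by
    intro z hz
    obtain ⟨g, hg⟩ := hco z hz
    obtain ⟨c, hc⟩ := hper g
    rw [← growth_inv h hb g hc hz]
    have h1 := hC₁ (A.act g z) (by simpa using hg)
    have h2 : 0 ≤ 1 - ‖A.act g z‖ ^ 2 := by
      have := A.norm_act_lt g hz
      have h0 := norm_nonneg (A.act g z)
      nlinarith
    have h3 : 1 - ‖A.act g z‖ ^ 2 ≤ 1 := by nlinarith [norm_nonneg (A.act g z)]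
    have h4 : ‖deriv b (A.act g z)‖ * (1 - ‖A.act g z‖ ^ 2) ≤ ‖deriv b (A.act g z)‖ * 1 :=
      mul_le_mul_of_nonneg_left h3 (norm_nonneg _)
    rw [mul_one] at h4
    exact h4.trans (h1.trans (le_max_left _ _))
  have hmain : ∀ z, ‖z‖ < 1 → ‖b z - b 0‖ ≤ C₀ * Real.log (1 / (1 - ‖z‖)) := by
    intro z hz
    have hpos : ∀ t ∈ Icc (0 : ℝ) 1, 0 < 1 - t * ‖z‖ := by
      intro t ht
      have : t * ‖z‖ ≤ 1 * ‖z‖ := mul_le_mul_of_nonneg_right ht.2 (norm_nonneg _)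
      linarith
    have hnorm : ∀ t ∈ Icc (0 : ℝ) 1, ‖(t : ℂ) * z‖ = t * ‖z‖ := by
      intro t ht
      rw [norm_mul, Complex.norm_real, Real.norm_of_nonneg ht.1]
    have hmem : ∀ t ∈ Icc (0 : ℝ) 1, (t : ℂ) * z ∈ Metric.ball (0 : ℂ) 1 := by
      intro t ht
      have := hpos t ht
      simp only [Metric.mem_ball, dist_zero_right]
      rw [hnorm t ht]
      linarith
    have hderiv : ∀ t ∈ Icc (0 : ℝ) 1,
        HasDerivAt (fun t : ℝ => b ((t : ℂ) * z) - b 0) (deriv b ((t : ℂ) * z) * z) t := by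
      intro t ht
      have h1 : HasDerivAt (fun w : ℂ => w * z) z (t : ℂ) := by
        simpa using (hasDerivAt_id (t : ℂ)).mul_const z
      have h2 : HasDerivAt b (deriv b ((t : ℂ) * z)) ((t : ℂ) * z) :=
        (hb.differentiableAt (Metric.isOpen_ball.mem_nhds (hmem t ht))).hasDerivAt
      have h3 := (h2.comp (t : ℂ) h1).comp_ofReal
      exact h3.sub_const (b 0)
    have hB : ∀ t ∈ Icc (0 : ℝ) 1,
        HasDerivAt (fun t : ℝ => C₀ * (- Real.log (1 - t * ‖z‖)))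
          (C₀ * (‖z‖ / (1 - t * ‖z‖))) t := by
      intro t ht
      have h1 : HasDerivAt (fun t : ℝ => 1 - t * ‖z‖) (-‖z‖) t := by
        have := ((hasDerivAt_id t).mul_const ‖z‖).const_sub 1
        simpa using this
      have h2 := (h1.log (hpos t ht).ne').neg.const_mul C₀
      refine h2.congr_deriv ?_
      rw [neg_div, neg_neg]
    have key := image_norm_le_of_norm_deriv_right_le_deriv_boundary' (a := (0 : ℝ)) (b := 1)
      (f := fun t : ℝ => b ((t : ℂ) * z) - b 0) (f' := fun t : ℝ => deriv b ((t : ℂ) * z) * z)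
      (B := fun t : ℝ => C₀ * (- Real.log (1 - t * ‖z‖)))
      (B' := fun t : ℝ => C₀ * (‖z‖ / (1 - t * ‖z‖)))
      (fun t ht => (hderiv t ht).continuousAt.continuousWithinAt)
      (fun t ht => (hderiv t ⟨ht.1, ht.2.le⟩).hasDerivWithinAt)
      (by simp)
      (fun t ht => (hB t ht).continuousAt.continuousWithinAt)
      (fun t ht => (hB t ⟨ht.1, ht.2.le⟩).hasDerivWithinAt)
      (fun t ht => by
        have ht' : t ∈ Icc (0 : ℝ) 1 := ⟨ht.1, ht.2.le⟩
        have h1 := hbd ((t : ℂ) * z) (by simpa using hmem t ht')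
        rw [hnorm t ht'] at h1
        have h2 := hpos t ht'
        have h3 : 0 ≤ t * ‖z‖ := mul_nonneg ht.1 (norm_nonneg _)
        have h4 : 1 - t * ‖z‖ ≤ 1 - (t * ‖z‖) ^ 2 := by nlinarith
        have h5 : ‖deriv b ((t : ℂ) * z)‖ * (1 - t * ‖z‖) ≤ C₀ :=
          (mul_le_mul_of_nonneg_left h4 (norm_nonneg _)).trans h1
        have h6 : ‖deriv b ((t : ℂ) * z)‖ ≤ C₀ / (1 - t * ‖z‖) := by
          rw [le_div_iff₀ h2]; exact h5
        rw [norm_mul]
        calc ‖deriv b ((t : ℂ) * z)‖ * ‖z‖ ≤ C₀ / (1 - t * ‖z‖) * ‖z‖ :=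
              mul_le_mul_of_nonneg_right h6 (norm_nonneg _)
          _ = C₀ * (‖z‖ / (1 - t * ‖z‖)) := by ring)
      (x := 1) ⟨zero_le_one, le_refl _⟩
    simp only [Complex.ofReal_one, one_mul] at key
    rw [one_div, Real.log_inv]
    exact key
  refine ⟨C₀ + ‖b 0‖, by positivity, fun z hz => ?_⟩
  have h1 := hmain z hz
  have h2 : ‖b z‖ ≤ ‖b z - b 0‖ + ‖b 0‖ := by
    have := norm_add_le (b z - b 0) (b 0)
    simpa using this
  have h3 : 0 ≤ Real.log (1 / (1 - ‖z‖)) := by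
    apply Real.log_nonneg
    rw [le_div_iff₀ (by linarith)]
    linarith [norm_nonneg z]
  have h4 : 0 ≤ ‖b 0‖ * Real.log (1 / (1 - ‖z‖)) := mul_nonneg (norm_nonneg _) h3
  nlinarith [norm_nonneg (b 0)]

end Pool.Agent.Lib.KLP
end

section

/-!
# 2.5: upper bound for hitting probabilities
-/

set_option autoImplicit false
open MeasureTheory Set Filter Topology
open scoped ENNReal ComplexConjugate

namespace Pool.Agent.Lib.KLP

variable {Γ : Type*} [Group Γ] {A : DAct Γ} {W : Walk Γ} {ν : Measure ℂ}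

theorem F_upper (h : Std A W ν) : ∃ C : ℝ, 0 < C ∧ ∀ g : Γ,
    W.F 1 g ≤ ENNReal.ofReal (C * A.t g) := by
  obtain ⟨K, hK1, hK⟩ := conc h
  obtain ⟨M, hM, hM'⟩ := upper h
  have hprob := h.prob
  refine ⟨2 * (M * K), by positivity, fun g => ?_⟩
  have htg : 0 < A.t g := A.t_pos g
  have hKt : 0 ≤ K * A.t g := by positivity
  set E : Set ℂ := Metric.closedBall (A.act g 0) (K * A.t g) with hE
  have hEm : MeasurableSet E := Metric.isClosed_closedBall.measurableSet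
  have h1 : W.F 1 g * pf A ν E g ≤ ENNReal.ofReal (M * K * A.t g) := by
    calc W.F 1 g * pf A ν E g ≤ pf A ν E 1 := F_mul_pf_le h hEm 1 g
      _ = ν E := pf_one h hEm
      _ ≤ ENNReal.ofReal M * circ E := hM' E hEm
      _ ≤ ENNReal.ofReal M * ENNReal.ofReal (K * A.t g) :=
          mul_le_mul_right (circ_closedBall_le _ hKt) _
      _ = ENNReal.ofReal (M * K * A.t g) := by
          rw [← ENNReal.ofReal_mul hM.le, mul_assoc]
  have hmap : IsProbabilityMeasure (ν.map (A.act g)) :=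
    Measure.isProbabilityMeasure_map (A.measurable_act g).aemeasurable
  have hcompl : Eᶜ = {ξ : ℂ | K * A.t g < ‖ξ - A.act g 0‖} := by
    ext ξ
    rw [mem_compl_iff, hE, mem_closedBall_iff_norm, not_le]
    rfl
  have h2 : pf A ν Eᶜ g ≤ 1 / 2 := by
    rw [hcompl]
    exact hK g
  have h3 : 1 / 2 ≤ pf A ν E g := by
    have h4 : pf A ν E g + pf A ν Eᶜ g = 1 := by
      unfold pf
      rw [measure_add_measure_compl hEm, measure_univ]
    by_contra hlt
    rw [not_le] at hlt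
    have h5 : pf A ν E g + pf A ν Eᶜ g < 1 / 2 + 1 / 2 :=
      ENNReal.add_lt_add_of_lt_of_le (h2.trans_lt (by simp)).ne hlt h2
    rw [h4, ENNReal.add_halves] at h5
    exact lt_irrefl _ h5
  have h4 : W.F 1 g * (1 / 2) ≤ ENNReal.ofReal (M * K * A.t g) :=
    (mul_le_mul_right h3 _).trans h1
  calc W.F 1 g = 2 * (W.F 1 g * (1 / 2)) := by
        rw [mul_comm (W.F 1 g), ← mul_assoc, one_div, ENNReal.mul_inv_cancel (by simp) (by simp),
          one_mul]
    _ ≤ 2 * ENNReal.ofReal (M * K * A.t g) := mul_le_mul_right h4 _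
    _ = ENNReal.ofReal (2 * (M * K) * A.t g) := by
        have h5 : (2 : ℝ≥0∞) = ENNReal.ofReal 2 := by simp
        rw [h5, ← ENNReal.ofReal_mul (by norm_num)]
        congr 1
        ring

end Pool.Agent.Lib.KLP
end

section

/-!
# A discrete group with an absolutely continuous stationary measure is cocompact
-/

set_option autoImplicit false
open MeasureTheory Set Filter Topology
open scoped ENNReal ComplexConjugate

namespace Pool.Agent.Lib.KLG

open Pool.Agent.Lib.KLP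

variable {Γ : Type*} [Group Γ] {A : Act Γ} {W : Walk Γ} {ν : Measure ℂ}

private theorem coa_J_le (A : Act Γ) (h : Γ) {z : ℂ} (hz : ‖z‖ ≤ 1) :
    A.J h z ≤ A.t h / (1 - ‖A.act h⁻¹ 0‖) ^ 2 := by
  have h1 : ‖A.act h⁻¹ 0‖ < 1 := A.norm_act_lt h⁻¹ (by simp)
  have h2 : 1 - ‖A.act h⁻¹ 0‖ ≤ ‖1 - conj (A.act h⁻¹ 0) * z‖ := by
    have h3 := norm_sub_norm_le (1 : ℂ) (conj (A.act h⁻¹ 0) * z)
    rw [norm_one, norm_mul, RCLike.norm_conj] at h3
    have h4 : ‖A.act h⁻¹ 0‖ * ‖z‖ ≤ ‖A.act h⁻¹ 0‖ := mul_le_of_le_one_right (norm_nonneg _) hz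
    linarith
  have h5 : 0 < 1 - ‖A.act h⁻¹ 0‖ := by linarith
  unfold Act.J
  exact div_le_div_of_nonneg_left (A.t_pos h).le (by positivity) (pow_le_pow_left₀ h5.le h2 2)

private theorem coa_lip (A : Act Γ) (h : Γ) : ∃ M : ℝ, 0 < M ∧ ∀ u v : ℂ, ‖u‖ ≤ 1 → ‖v‖ ≤ 1 →
    ‖A.act h u - A.act h v‖ ≤ M * ‖u - v‖ := by
  have h1 : ‖A.act h⁻¹ 0‖ < 1 := A.norm_act_lt h⁻¹ (by simp)
  have h5 : 0 < 1 - ‖A.act h⁻¹ 0‖ := by linarith
  have hM : 0 < A.t h / (1 - ‖A.act h⁻¹ 0‖) ^ 2 := div_pos (A.t_pos h) (by positivity)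
  refine ⟨A.t h / (1 - ‖A.act h⁻¹ 0‖) ^ 2, hM, fun u v hu hv => ?_⟩
  have h2 := A.dist_act h hu hv
  have h3 : A.J h u * A.J h v ≤
      (A.t h / (1 - ‖A.act h⁻¹ 0‖) ^ 2) * (A.t h / (1 - ‖A.act h⁻¹ 0‖) ^ 2) :=
    mul_le_mul (coa_J_le A h hu) (coa_J_le A h hv) (A.J_pos h hv).le hM.le
  refine le_of_sq_le_sq ?_ (by positivity)
  rw [h2, mul_pow]
  calc A.J h u * A.J h v * ‖u - v‖ ^ 2
      ≤ (A.t h / (1 - ‖A.act h⁻¹ 0‖) ^ 2) * (A.t h / (1 - ‖A.act h⁻¹ 0‖) ^ 2) * ‖u - v‖ ^ 2 :=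
        mul_le_mul_of_nonneg_right h3 (by positivity)
    _ = _ := by ring

theorem near_all (A : Act Γ) (hnf : ∀ ζ : ℂ, ‖ζ‖ = 1 → ∃ g, A.act g ζ ≠ ζ) {m : ℕ}
    (hpos : circ (Gd A m) ≠ 0) : ∃ c C : ℝ, 0 < c ∧ 0 < C ∧ ∀ ξ : ℂ, ‖ξ‖ = 1 →
      ∀ σ : ℝ, 0 < σ → σ ≤ 1 → ∃ k : Γ, ‖A.act k 0 - ξ‖ ≤ C * σ ∧ c * σ ≤ A.t k := by
  obtain ⟨z, hz, hzn⟩ := zoom_near A hpos
  obtain ⟨g, hg⟩ := hnf z hz
  obtain ⟨M, hM, hlip⟩ := coa_lip A g
  obtain ⟨M', hM', hlip'⟩ := coa_lip A g⁻¹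
  have hb0 : 0 < ‖A.act g z - z‖ := norm_pos_iff.2 (sub_ne_zero.2 hg)
  set b0 := ‖A.act g z - z‖ with hb0def
  obtain ⟨c, C, hc, hC, hn⟩ := hzn (min (b0 / (2 * M)) (b0 / 2))
    (lt_min (by positivity) (by positivity))
  have htg := A.t_pos g
  have htg1 := A.t_le_one g
  refine ⟨c * A.t g / 4, max C (M' * C), by positivity, lt_max_of_lt_left hC, ?_⟩
  intro ξ hξ σ hσ hσ1
  by_cases hfar : min (b0 / (2 * M)) (b0 / 2) ≤ ‖ξ - z‖
  · obtain ⟨k, hk1, hk2⟩ := hn ξ hξ hfar σ hσ hσ1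
    refine ⟨k, hk1.trans (mul_le_mul_of_nonneg_right (le_max_left _ _) hσ.le), le_trans ?_ hk2⟩
    apply mul_le_mul_of_nonneg_right _ hσ.le
    nlinarith
  · rw [not_le] at hfar
    have h1 : ‖ξ - z‖ < b0 / (2 * M) := lt_of_lt_of_le hfar (min_le_left _ _)
    have h2 : ‖A.act g ξ - A.act g z‖ ≤ b0 / 2 := by
      refine (hlip ξ z hξ.le hz.le).trans ?_
      calc M * ‖ξ - z‖ ≤ M * (b0 / (2 * M)) := mul_le_mul_of_nonneg_left h1.le hM.le
        _ = b0 / 2 := by field_simp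
    have h3 : b0 ≤ ‖A.act g z - A.act g ξ‖ + ‖A.act g ξ - z‖ := by
      rw [hb0def]
      exact norm_sub_le_norm_sub_add_norm_sub _ _ _
    rw [norm_sub_rev] at h2
    have h4 : min (b0 / (2 * M)) (b0 / 2) ≤ ‖A.act g ξ - z‖ :=
      (min_le_right _ _).trans (by linarith)
    obtain ⟨k, hk1, hk2⟩ := hn (A.act g ξ) (A.norm_act_eq g hξ) h4 σ hσ hσ1
    refine ⟨g⁻¹ * k, ?_, ?_⟩
    · have h5 : A.act (g⁻¹ * k) 0 - ξ = A.act g⁻¹ (A.act k 0) - A.act g⁻¹ (A.act g ξ) := by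
        rw [A.mul g⁻¹ k 0 (by simp), A.inv_act_act g hξ.le]
      rw [h5]
      calc ‖A.act g⁻¹ (A.act k 0) - A.act g⁻¹ (A.act g ξ)‖
          ≤ M' * ‖A.act k 0 - A.act g ξ‖ :=
            hlip' _ _ (A.norm_act_le k (by simp)) (A.norm_act_le g hξ.le)
        _ ≤ M' * (C * σ) := mul_le_mul_of_nonneg_left hk1 hM'.le
        _ = (M' * C) * σ := by ring
        _ ≤ _ := mul_le_mul_of_nonneg_right (le_max_right _ _) hσ.le
    · have h6 := A.t_mul_lower g⁻¹ k
      rw [A.t_inv] at h6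
      refine le_trans ?_ h6
      have h7 : A.t g * (c * σ) ≤ A.t g * A.t k := mul_le_mul_of_nonneg_left hk2 htg.le
      linarith

theorem coc_of_near (A : Act Γ) {c C : ℝ} (hc : 0 < c) (hC : 0 < C)
    (h : ∀ ξ : ℂ, ‖ξ‖ = 1 → ∀ σ : ℝ, 0 < σ → σ ≤ 1 →
      ∃ k : Γ, ‖A.act k 0 - ξ‖ ≤ C * σ ∧ c * σ ≤ A.t k) : A.Coc := by
  have hD : 0 < (C + 1) ^ 2 + 4 * C := by positivity
  refine ⟨Real.sqrt (1 - c / ((C + 1) ^ 2 + 4 * C)), ?_, fun w hw => ?_⟩
  · rw [Real.sqrt_lt' one_pos]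
    have : 0 < c / ((C + 1) ^ 2 + 4 * C) := by positivity
    linarith
  by_cases hw0 : w = 0
  · refine ⟨1, ?_⟩
    rw [hw0, A.one 0 (by simp), norm_zero]
    exact Real.sqrt_nonneg _
  have hwp : 0 < ‖w‖ := norm_pos_iff.2 hw0
  have hξ : ‖((‖w‖⁻¹ : ℝ) : ℂ) * w‖ = 1 := by
    rw [norm_mul, Complex.norm_real, norm_inv, norm_norm, inv_mul_cancel₀ hwp.ne']
  obtain ⟨k, hk1, hk2⟩ := h (((‖w‖⁻¹ : ℝ) : ℂ) * w) hξ (1 - ‖w‖) (by linarith) (by linarith)
  set σ := 1 - ‖w‖ with hσdef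
  have hσ : 0 < σ := by rw [hσdef]; linarith
  have h1 : ‖((‖w‖⁻¹ : ℝ) : ℂ) * w - w‖ = σ := by
    have h2 : ((‖w‖⁻¹ : ℝ) : ℂ) * w - w = ((‖w‖⁻¹ - 1 : ℝ) : ℂ) * w := by
      push_cast
      ring
    rw [h2, norm_mul, Complex.norm_real, Real.norm_of_nonneg, sub_mul, inv_mul_cancel₀ hwp.ne',
      one_mul]
    rw [sub_nonneg]
    exact (one_le_inv₀ hwp).2 hw.le
  have h2 : ‖A.act k 0 - w‖ ≤ (C + 1) * σ := by
    calc ‖A.act k 0 - w‖ ≤ ‖A.act k 0 - ((‖w‖⁻¹ : ℝ) : ℂ) * w‖ +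
          ‖((‖w‖⁻¹ : ℝ) : ℂ) * w - w‖ := norm_sub_le_norm_sub_add_norm_sub _ _ _
      _ ≤ C * σ + σ := by rw [h1]; linarith
      _ = _ := by ring
  have hk0 : ‖A.act k 0‖ < 1 := A.norm_act_lt k (by simp)
  have h3 : A.t k ≤ 2 * C * σ := by
    have h4 := norm_sub_norm_le (((‖w‖⁻¹ : ℝ) : ℂ) * w) (A.act k 0)
    rw [hξ, norm_sub_rev] at h4
    have h5 : A.t k = (1 - ‖A.act k 0‖) * (1 + ‖A.act k 0‖) := by
      unfold Act.t
      ring
    rw [h5]
    have h6 := norm_nonneg (A.act k 0)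
    calc (1 - ‖A.act k 0‖) * (1 + ‖A.act k 0‖) ≤ (1 - ‖A.act k 0‖) * 2 :=
          mul_le_mul_of_nonneg_left (by linarith) (by linarith)
      _ ≤ (C * σ) * 2 := mul_le_mul_of_nonneg_right (by linarith) (by norm_num)
      _ = _ := by ring
  have h7 : 1 - ‖w‖ ^ 2 = σ * (1 + ‖w‖) := by rw [hσdef]; ring
  have h8 : σ ≤ 1 - ‖w‖ ^ 2 := by rw [h7]; nlinarith
  have h9 : 1 - ‖w‖ ^ 2 ≤ 2 * σ := by rw [h7]; nlinarith
  refine ⟨k⁻¹, Real.le_sqrt_of_sq_le ?_⟩
  have h10 := A.kap_orbit_left k hw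
  have h11 : c / ((C + 1) ^ 2 + 4 * C) ≤ kap (A.act k 0) w := by
    unfold kap
    rw [norm_one_sub_conj_mul_sq]
    have h12 : 1 - ‖A.act k 0‖ ^ 2 = A.t k := rfl
    rw [h12]
    have htk := A.t_pos k
    have h13 : 0 < ‖A.act k 0 - w‖ ^ 2 + A.t k * (1 - ‖w‖ ^ 2) := by
      have : 0 < 1 - ‖w‖ ^ 2 := lt_of_lt_of_le hσ h8
      positivity
    rw [div_le_div_iff₀ hD h13]
    have h14 : ‖A.act k 0 - w‖ ^ 2 ≤ ((C + 1) * σ) ^ 2 := pow_le_pow_left₀ (norm_nonneg _) h2 2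
    have h15 : A.t k * (1 - ‖w‖ ^ 2) ≤ (2 * C * σ) * (2 * σ) :=
      mul_le_mul h3 h9 (by linarith) (by positivity)
    have h16 : (c * σ) * σ ≤ A.t k * (1 - ‖w‖ ^ 2) := mul_le_mul hk2 h8 hσ.le htk.le
    calc c * (‖A.act k 0 - w‖ ^ 2 + A.t k * (1 - ‖w‖ ^ 2))
        ≤ c * (((C + 1) * σ) ^ 2 + (2 * C * σ) * (2 * σ)) :=
          mul_le_mul_of_nonneg_left (add_le_add h14 h15) hc.le
      _ = ((c * σ) * σ) * ((C + 1) ^ 2 + 4 * C) := by ring
      _ ≤ _ := mul_le_mul_of_nonneg_right h16 hD.le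
  linarith

theorem coc_of_ac (h : Std A W ν) (hac : ν ≪ circ) : A.Coc := by
  obtain ⟨m, hm⟩ := exists_Gd_pos h hac
  obtain ⟨c, C, hc, hC, hn⟩ := near_all A
    (fun ζ hζ => by obtain ⟨s, _, hs⟩ := h.nofix ζ hζ; exact ⟨s, hs⟩) hm
  exact coc_of_near A hc hC hn

end Pool.Agent.Lib.KLG
end

section

/-!
# 2.6: the density is bounded below
-/

set_option autoImplicit false
open MeasureTheory Set Filter Topology
open scoped ENNReal ComplexConjugate

namespace Pool.Agent.Lib.KLP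

variable {Γ : Type*} [Group Γ] {A : DAct Γ} {W : Walk Γ} {ν : Measure ℂ}

private lemma lw_t_le (A : DAct Γ) {ξ : ℂ} (hξ : ‖ξ‖ = 1) (y : Γ) :
    A.t y ≤ 2 * ‖A.act y 0 - ξ‖ := by
  have h1 : ‖A.act y 0‖ ≤ 1 := A.norm_act_le y (by simp)
  have h2 : 1 - ‖A.act y 0‖ ≤ ‖A.act y 0 - ξ‖ := by
    have h3 := norm_sub_norm_le ξ (A.act y 0)
    rw [hξ, norm_sub_rev] at h3
    exact h3
  have h3 := norm_nonneg (A.act y 0)
  rw [DAct.t]
  nlinarith

/-- limit point of the `γ⁻¹ 0` for good points `γ` near a Lebesgue point -/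
private lemma lw_limit (A : DAct Γ) {ξ₀ : ℂ} (hξ₀ : ‖ξ₀‖ = 1) {δ r₀ : ℝ} (hr₀ : 0 < r₀)
    (hg : ∀ r : ℝ, 0 < r → r < r₀ → ∃ γ ∈ A.U ξ₀ r, δ * r ≤ A.t γ) :
    ∃ ζ : ℂ, ‖ζ‖ = 1 ∧ ∀ ε : ℝ, 0 < ε → ∀ r₁ : ℝ, 0 < r₁ → ∃ r : ℝ, 0 < r ∧ r < r₁ ∧
      ∃ γ ∈ A.U ξ₀ r, δ * r ≤ A.t γ ∧ ‖A.act γ⁻¹ 0 - ζ‖ < ε := by
  have hr : ∀ j : ℕ, 0 < r₀ / (j + 2) ∧ r₀ / (j + 2) < r₀ := fun j => by
    have hj : (0 : ℝ) ≤ j := Nat.cast_nonneg j
    refine ⟨by positivity, ?_⟩
    rw [div_lt_iff₀ (by positivity)]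
    nlinarith
  choose γ hγ hγt using fun j : ℕ => hg (r₀ / (j + 2)) (hr j).1 (hr j).2
  have hlim : Tendsto (fun j : ℕ => r₀ / ((j : ℝ) + 2)) atTop (𝓝 0) := by
    refine Tendsto.div_atTop tendsto_const_nhds ?_
    exact tendsto_atTop_add_const_right _ _ tendsto_natCast_atTop_atTop
  have hmem : ∀ j : ℕ, A.act (γ j)⁻¹ 0 ∈ Metric.closedBall (0 : ℂ) 1 := fun j => by
    rw [mem_closedBall_zero_iff]
    exact A.norm_act_le _ (by simp)
  obtain ⟨ζ, -, φ, hφ, hφl⟩ := (isCompact_closedBall (0 : ℂ) 1).tendsto_subseq hmem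
  have hφr : Tendsto (fun j : ℕ => r₀ / ((φ j : ℝ) + 2)) atTop (𝓝 0) :=
    hlim.comp hφ.tendsto_atTop
  have hsq : ∀ j : ℕ, 1 - 2 * (r₀ / ((j : ℝ) + 2)) ≤ ‖A.act (γ j)⁻¹ 0‖ ^ 2 := fun j => by
    have h1 := A.t_inv (γ j)
    have h2 := lw_t_le A hξ₀ (γ j)
    have h3 : ‖A.act (γ j) 0 - ξ₀‖ < r₀ / ((j : ℝ) + 2) := hγ j
    rw [DAct.t] at h1
    linarith
  have hsq' : ∀ j : ℕ, ‖A.act (γ j)⁻¹ 0‖ ^ 2 ≤ 1 := fun j => by
    have h1 := mem_closedBall_zero_iff.1 (hmem j)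
    have h2 := norm_nonneg (A.act (γ j)⁻¹ 0)
    nlinarith
  have h1 : Tendsto (fun j : ℕ => ‖A.act (γ (φ j))⁻¹ 0‖ ^ 2) atTop (𝓝 1) := by
    refine tendsto_of_tendsto_of_tendsto_of_le_of_le (g := fun j => 1 - 2 * (r₀ / ((φ j : ℝ) + 2)))
      (h := fun _ => 1) ?_ tendsto_const_nhds (fun j => hsq (φ j)) (fun j => hsq' (φ j))
    have h2 := (hφr.const_mul 2).const_sub 1
    simpa using h2
  have h2 : Tendsto (fun j : ℕ => ‖A.act (γ (φ j))⁻¹ 0‖ ^ 2) atTop (𝓝 (‖ζ‖ ^ 2)) :=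
    (hφl.norm).pow 2
  have h3 : ‖ζ‖ ^ 2 = 1 := tendsto_nhds_unique h2 h1
  refine ⟨ζ, ?_, fun ε hε r₁ hr₁ => ?_⟩
  · have h4 := norm_nonneg ζ
    nlinarith
  · have h4 : ∀ᶠ j in atTop, ‖A.act (γ (φ j))⁻¹ 0 - ζ‖ < ε := by
      have h5 := (hφl.sub_const ζ).norm
      simp only [sub_self, norm_zero] at h5
      exact h5.eventually_lt_const hε
    have h5 : ∀ᶠ j in atTop, r₀ / ((φ j : ℝ) + 2) < r₁ := hφr.eventually_lt_const hr₁
    obtain ⟨j, hj1, hj2⟩ := (h4.and h5).exists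
    exact ⟨r₀ / ((φ j : ℝ) + 2), (hr (φ j)).1, hj2, γ (φ j), hγ (φ j), hγt (φ j), hj1⟩

private lemma lw_ae (hac : ν ≪ circ) {E F : Set ℂ} (h : ∀ z, ‖z‖ = 1 → z ∈ E → z ∈ F) :
    ν E ≤ ν F := by
  refine measure_mono_ae ?_
  filter_upwards [ae_norm_of_ac hac] with z hz hzE
  exact h z hz hzE

private lemma lw_circ {E F : Set ℂ} (h : ∀ z, ‖z‖ = 1 → z ∈ E → z ∈ F) :
    circ E ≤ circ F := by
  refine measure_mono_ae ?_
  filter_upwards [ae_circ_norm] with z hz hzE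
  exact h z hz hzE

/-- the main estimate at one scale -/
private lemma lw_scale (h : Std A W ν) {M C cS CS Cp : ℝ} (hM : 0 < M) (hC : 0 < C)
    (hup : ∀ E : Set ℂ, MeasurableSet E → ν E ≤ ENNReal.ofReal M * circ E)
    (hF : ∀ g : Γ, W.F 1 g ≤ ENNReal.ofReal (C * A.t g))
    (hcS : 0 < cS) (hCS : 0 < CS)
    (hS : ∀ w : Γ, ∀ s ∈ W.S, cS * A.t w ≤ A.t (w * s) ∧
      ‖A.act (w * s) 0 - A.act w 0‖ ≤ CS * A.t w)
    (hP : ∀ (ξ : ℂ) (r δ : ℝ), ‖ξ‖ = 1 → 0 < r → 0 < δ → δ ≤ 2 →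
      ∑' v : Γ, (Set.indicator {v : Γ | ‖A.act v 0 - ξ‖ ≤ r ∧ A.t v ≤ δ * r}
        (fun v => ENNReal.ofReal (A.t v ^ 2)) v) ≤ ENNReal.ofReal (Cp * δ * r ^ 2))
    {ξ₀ : ℂ} (hξ₀ : ‖ξ₀‖ = 1) {Λ d : ℝ} (hΛ : 1 ≤ Λ) (hd : 0 < d) (hd2 : d ≤ 2)
    (hd4 : CS * d ≤ cS / 4) (T : Finset Γ) {r : ℝ} (hr : 0 < r) (hΛr : Λ * r < 1)
    {γ : Γ} (hT : ∀ y : Γ, d * Λ * r ≤ A.t y → ‖A.act y 0 - ξ₀‖ ≤ Λ * r → γ⁻¹ * y ∈ T)
    {E E' : Set ℂ} (hE : MeasurableSet E) (hE' : MeasurableSet E')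
    (hEE' : ∀ z, ‖z‖ = 1 → A.act γ z ∈ E' → z ∈ E)
    (hsub : ∀ ξ ∈ E', ‖ξ - ξ₀‖ < Λ * r / 2) :
    ν E' ≤ ENNReal.ofReal (16 * C * M * Cp * d) * circ E' +
      ENNReal.ofReal (2 * C * Λ * r) * (∑ k ∈ T, (W.F 1 k)⁻¹) * ν E := by
  classical
  have hΛ0 : 0 < Λ := by linarith
  have hΛr0 : 0 < Λ * r := by positivity
  have htr : W.Transient := transient h
  have h1 : (1 : Γ) ∉ A.U ξ₀ (Λ * r) := by
    intro h2
    have h3 : ‖A.act 1 0 - ξ₀‖ < Λ * r := h2
    rw [A.one 0 (by simp), zero_sub, norm_neg, hξ₀] at h3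
    linarith
  have h2 : ν E' ≤ ∑' y, Set.indicator (W.bd (A.U ξ₀ (Λ * r)))
      (fun y => W.F 1 y * pf A ν E' y) y := by
    have h3 := pf_le_hit h htr hξ₀ hΛr0 hE' (fun ξ hξ => by
      rw [Metric.mem_ball, dist_eq_norm]
      exact hsub ξ hξ) 1
    rw [pf_one h hE'] at h3
    exact h3.trans (W.hit_le_tsum_bd _ h1)
  set f1 : Γ → ℝ≥0∞ := fun y => ENNReal.ofReal (16 * C * M / (Λ * r) ^ 2) * circ E' *
    Set.indicator {v : Γ | ‖A.act v 0 - ξ₀‖ ≤ Λ * r ∧ A.t v ≤ d * (Λ * r)}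
      (fun v => ENNReal.ofReal (A.t v ^ 2)) y with hf1
  set f2 : Γ → ℝ≥0∞ := fun y => ENNReal.ofReal (2 * C * Λ * r) *
    ((if γ⁻¹ * y ∈ T then (W.F 1 (γ⁻¹ * y))⁻¹ else 0) * ν E) with hf2
  have h3 : ∀ y, Set.indicator (W.bd (A.U ξ₀ (Λ * r)))
      (fun y => W.F 1 y * pf A ν E' y) y ≤ f1 y + f2 y := by
    intro y
    by_cases hy : y ∈ W.bd (A.U ξ₀ (Λ * r))
    swap
    · rw [Set.indicator_of_notMem hy]
      exact bot_le
    rw [Set.indicator_of_mem hy]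
    obtain ⟨hyU, s, hs, hys⟩ := hy
    have hyU' : ‖A.act y 0 - ξ₀‖ < Λ * r := hyU
    have hyt := A.t_pos y
    by_cases hty : A.t y ≤ d * (Λ * r)
    · refine le_trans ?_ (le_self_add)
      rw [hf1]
      simp only
      rw [Set.indicator_of_mem (show y ∈ {v : Γ | ‖A.act v 0 - ξ₀‖ ≤ Λ * r ∧
        A.t v ≤ d * (Λ * r)} from ⟨hyU'.le, hty⟩)]
      -- the distance
      have h4 : Λ * r ≤ ‖A.act (y * s⁻¹) 0 - ξ₀‖ := not_lt.1 hys
      have h5 := hS (y * s⁻¹) s hs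
      rw [inv_mul_cancel_right] at h5
      have h6 : CS * A.t (y * s⁻¹) ≤ Λ * r / 4 := by
        have h7 : A.t (y * s⁻¹) ≤ A.t y / cS := by
          rw [le_div_iff₀ hcS]
          linarith [h5.1]
        calc CS * A.t (y * s⁻¹) ≤ CS * (d * (Λ * r) / cS) := by
              refine mul_le_mul_of_nonneg_left (h7.trans ?_) hCS.le
              gcongr
          _ = (CS * d) * (Λ * r) / cS := by ring
          _ ≤ (cS / 4) * (Λ * r) / cS := by gcongr
          _ = Λ * r / 4 := by field_simp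
      have h7 : 3 / 4 * (Λ * r) ≤ ‖A.act y 0 - ξ₀‖ := by
        have h8 : ‖A.act (y * s⁻¹) 0 - ξ₀‖ ≤
            ‖A.act y 0 - A.act (y * s⁻¹) 0‖ + ‖A.act y 0 - ξ₀‖ := by
          have h9 := norm_sub_le (A.act y 0 - ξ₀) (A.act y 0 - A.act (y * s⁻¹) 0)
          rw [show A.act y 0 - ξ₀ - (A.act y 0 - A.act (y * s⁻¹) 0) =
            A.act (y * s⁻¹) 0 - ξ₀ by ring] at h9
          linarith
        linarith [h5.2]
      have h8 : ∀ ξ ∈ E', ‖ξ‖ = 1 → Λ * r / 4 ≤ ‖ξ - A.act y 0‖ := by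
        intro ξ hξ _
        have h9 := hsub ξ hξ
        have h10 : ‖A.act y 0 - ξ₀‖ ≤ ‖ξ - A.act y 0‖ + ‖ξ - ξ₀‖ := by
          have h11 := norm_sub_le (ξ - ξ₀) (ξ - A.act y 0)
          rw [show ξ - ξ₀ - (ξ - A.act y 0) = A.act y 0 - ξ₀ by ring] at h11
          linarith
        linarith
      have h9 := circ_preimage_le A y hE' (by positivity) h8
      rw [pf_eq hE']
      have h10 := hup (A.act y ⁻¹' E') (A.measurable_act y hE')
      calc W.F 1 y * ν (A.act y ⁻¹' E')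
          ≤ ENNReal.ofReal (C * A.t y) * (ENNReal.ofReal M *
            (ENNReal.ofReal (A.t y / (Λ * r / 4) ^ 2) * circ E')) := by
            refine mul_le_mul' (hF y) (h10.trans ?_)
            exact mul_le_mul' le_rfl h9
        _ = ENNReal.ofReal (C * A.t y * (M * (A.t y / (Λ * r / 4) ^ 2))) * circ E' := by
            rw [ENNReal.ofReal_mul (p := C * A.t y) (by positivity),
              ENNReal.ofReal_mul (p := M) (by positivity)]
            ring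
        _ = ENNReal.ofReal (16 * C * M / (Λ * r) ^ 2 * A.t y ^ 2) * circ E' := by
            congr 2
            field_simp
            ring
        _ ≤ _ := by
            rw [ENNReal.ofReal_mul (by positivity)]
            apply le_of_eq
            ring
    · refine le_trans ?_ (le_add_self)
      rw [not_le] at hty
      have h4 := hT y (by linarith) hyU'.le
      rw [hf2]
      simp only
      rw [if_pos h4]
      have h5 : W.F 1 y ≤ ENNReal.ofReal (2 * C * Λ * r) := by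
        refine (hF y).trans (ENNReal.ofReal_le_ofReal ?_)
        have h6 := lw_t_le A hξ₀ y
        nlinarith
      have h6 : pf A ν E' y ≤ pf A ν E (γ⁻¹ * y) := by
        rw [pf_eq hE', pf_eq hE]
        refine lw_ae h.ac fun z hz hzE => ?_
        have h7 : A.act (γ⁻¹ * y) z = A.act γ⁻¹ (A.act y z) := A.mul _ _ _ hz.le
        have h8 : ‖A.act y z‖ = 1 := A.norm_act_eq y hz
        refine hEE' _ ?_ ?_
        · exact A.norm_act_eq _ hz
        · rw [h7, A.act_inv_act γ h8.le]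
          exact hzE
      have h7 : pf A ν E (γ⁻¹ * y) ≤ (W.F 1 (γ⁻¹ * y))⁻¹ * ν E := by
        have h8 := F_mul_pf_le h hE 1 (γ⁻¹ * y)
        rw [pf_one h hE] at h8
        have h9 := W.F_ne_zero 1 (γ⁻¹ * y)
        have h10 : W.F 1 (γ⁻¹ * y) ≠ ∞ :=
          ne_top_of_le_ne_top ENNReal.one_ne_top (W.F_le_one _ _)
        calc pf A ν E (γ⁻¹ * y) = (W.F 1 (γ⁻¹ * y))⁻¹ *
              (W.F 1 (γ⁻¹ * y) * pf A ν E (γ⁻¹ * y)) := by
              rw [← mul_assoc, ENNReal.inv_mul_cancel h9 h10, one_mul]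
          _ ≤ _ := mul_le_mul' le_rfl h8
      exact mul_le_mul' h5 (h6.trans h7)
  refine h2.trans ((ENNReal.tsum_le_tsum h3).trans ?_)
  rw [ENNReal.tsum_add]
  refine add_le_add ?_ ?_
  · rw [hf1, ENNReal.tsum_mul_left]
    have h4 := hP ξ₀ (Λ * r) d hξ₀ hΛr0 hd hd2
    calc _ ≤ ENNReal.ofReal (16 * C * M / (Λ * r) ^ 2) * circ E' *
          ENNReal.ofReal (Cp * d * (Λ * r) ^ 2) := mul_le_mul' le_rfl h4
      _ = (ENNReal.ofReal (16 * C * M / (Λ * r) ^ 2) *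
          ENNReal.ofReal (Cp * d * (Λ * r) ^ 2)) * circ E' := by ring
      _ = ENNReal.ofReal (16 * C * M / (Λ * r) ^ 2 * (Cp * d * (Λ * r) ^ 2)) * circ E' := by
          rw [ENNReal.ofReal_mul (p := 16 * C * M / (Λ * r) ^ 2) (by positivity)]
      _ = _ := by
          congr 2
          field_simp
  · rw [hf2, ENNReal.tsum_mul_left, ENNReal.tsum_mul_right,
      mul_assoc (ENNReal.ofReal (2 * C * Λ * r))]
    refine mul_le_mul' le_rfl (mul_le_mul' ?_ le_rfl)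
    rw [← (Equiv.mulLeft γ).tsum_eq]
    simp only [Equiv.coe_mulLeft, inv_mul_cancel_left]
    rw [tsum_eq_sum (s := T)]
    · exact Finset.sum_le_sum fun k hk => by rw [if_pos hk]
    · intro k hk
      rw [if_neg hk]

/-- Claim A: the lower bound away from `ζ` -/
private lemma lw_far (h : Std A W ν) : ∃ ζ : ℂ, ‖ζ‖ = 1 ∧ ∀ ε : ℝ, 0 < ε → ∃ k : ℝ, 0 < k ∧
    ∀ E : Set ℂ, MeasurableSet E → (∀ ξ ∈ E, ‖ξ‖ = 1 → ε ≤ ‖ξ - ζ‖) →
      ENNReal.ofReal k * circ E ≤ ν E := by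
  classical
  have := h.prob
  obtain ⟨ξ₀, L, hL⟩ := exists_lebPt ν h.ac
  obtain ⟨c₁, δ₁, r₀, -, hδ₁, hr₀, hgood⟩ := good_near h hL
  obtain ⟨hξ₀, hL0, hleb⟩ := hL
  obtain ⟨ζ, hζ, hlim⟩ := lw_limit A hξ₀ hr₀ (δ := δ₁) (fun r hr hr' => by
    obtain ⟨γ, hγ, hγt, -⟩ := hgood r hr hr'
    exact ⟨γ, hγ, hγt⟩)
  obtain ⟨M, hM, hup⟩ := upper h
  obtain ⟨C, hC, hF⟩ := F_upper h
  obtain ⟨cS, CS, hcS, -, hCS1, hS⟩ := step_bounds A W.S
  have hCS : 0 < CS := by linarith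
  obtain ⟨Cp, hCp, hP⟩ := packing A
  have hP' : ∀ (ξ : ℂ) (r δ : ℝ), ‖ξ‖ = 1 → 0 < r → 0 < δ → δ ≤ 2 →
      ∑' v : Γ, (Set.indicator {v : Γ | ‖A.act v 0 - ξ‖ ≤ r ∧ A.t v ≤ δ * r}
        (fun v => ENNReal.ofReal (A.t v ^ 2)) v) ≤ ENNReal.ofReal (Cp * δ * r ^ 2) := by
    intro ξ r δ h1 h2 h3 h4
    refine le_trans (le_of_eq ?_) (hP ξ r δ h1 h2 h3 h4)
    refine tsum_congr fun v => ?_
    by_cases hv : ‖A.act v 0 - ξ‖ ≤ r ∧ A.t v ≤ δ * r
    · rw [Set.indicator_of_mem (show v ∈ {v : Γ | ‖A.act v 0 - ξ‖ ≤ r ∧ A.t v ≤ δ * r} from hv),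
        if_pos hv]
    · rw [Set.indicator_of_notMem
        (show v ∉ {v : Γ | ‖A.act v 0 - ξ‖ ≤ r ∧ A.t v ≤ δ * r} from hv), if_neg hv]
  refine ⟨ζ, hζ, fun ε hε => ?_⟩
  -- constants
  set R : ℝ := 1 + 4 / ε with hR
  have hR0 : 0 < R := by positivity
  set Λ : ℝ := 2 * R + 1 with hΛ
  have hΛ1 : 1 ≤ Λ := by linarith
  have hΛ0 : 0 < Λ := by linarith
  obtain ⟨d, hd, hd2, hd4, hdL⟩ : ∃ d : ℝ, 0 < d ∧ d ≤ 2 ∧ CS * d ≤ cS / 4 ∧
      16 * C * M * Cp * d ≤ L / 2 := by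
    refine ⟨min 2 (min (cS / 4 / CS) (L / 2 / (16 * C * M * Cp))), by positivity,
      min_le_left _ _, ?_, ?_⟩
    · have h1 : min 2 (min (cS / 4 / CS) (L / 2 / (16 * C * M * Cp))) ≤ cS / 4 / CS :=
        (min_le_right _ _).trans (min_le_left _ _)
      rw [le_div_iff₀ hCS] at h1
      linarith
    · have h1 : min 2 (min (cS / 4 / CS) (L / 2 / (16 * C * M * Cp))) ≤
          L / 2 / (16 * C * M * Cp) := (min_le_right _ _).trans (min_le_right _ _)
      rw [le_div_iff₀ (by positivity)] at h1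
      linarith
  obtain ⟨T, hT⟩ := near_finite A (δ := min (d * Λ) δ₁) (R := Λ) (by positivity) hΛ0
  set B : ℝ≥0∞ := ∑ k ∈ T, (W.F 1 k)⁻¹ with hB
  have hBtop : B ≠ ∞ := by
    rw [hB]
    exact (ENNReal.sum_lt_top.2 fun k _ =>
      lt_top_iff_ne_top.2 (ENNReal.inv_ne_top.2 (W.F_ne_zero 1 k))).ne
  have hB0 : 0 ≤ B.toReal := ENNReal.toReal_nonneg
  refine ⟨(L * δ₁ / 8) / (2 * C * Λ * B.toReal + 1), by positivity, fun E hE hEζ => ?_⟩
  -- finiteness
  have hνt : ∀ G : Set ℂ, ν G ≠ ∞ := fun G => measure_ne_top ν G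
  have hct : ∀ G : Set ℂ, circ G ≠ ∞ := fun G => measure_ne_top circ G
  have key : ∀ e : ℝ, 0 < e → L * δ₁ / 8 * (circ E).toReal ≤
      e + 2 * C * Λ * B.toReal * (ν E).toReal := by
    intro e he
    obtain ⟨r₂, hr₂, hleb₂⟩ := hleb R hR0 e he
    obtain ⟨r, hr, hr1, γ, hγU, hγt, hγζ⟩ := hlim (ε / 2) (by positivity)
      (min r₂ (1 / Λ)) (by positivity)
    have hrr₂ : r < r₂ := lt_of_lt_of_le hr1 (min_le_left _ _)
    have hΛr : Λ * r < 1 := by
      have h1 : r < 1 / Λ := lt_of_lt_of_le hr1 (min_le_right _ _)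
      rw [lt_div_iff₀ hΛ0] at h1
      linarith
    have hγU' : ‖A.act γ 0 - ξ₀‖ < r := hγU
    have htγ : A.t γ ≤ 2 * r := by
      have h1 := lw_t_le A hξ₀ γ
      linarith
    have hdist : ∀ ξ ∈ E, ‖ξ‖ = 1 → ‖A.act γ ξ - ξ₀‖ ≤ R * r := by
      intro ξ hξ hξ1
      have h1 : ε / 2 ≤ ‖ξ - A.act γ⁻¹ 0‖ := by
        have h2 := hEζ ξ hξ hξ1
        have h3 : ‖ξ - ζ‖ ≤ ‖ξ - A.act γ⁻¹ 0‖ + ‖A.act γ⁻¹ 0 - ζ‖ := norm_sub_le_norm_sub_add_norm_sub _ _ _
        linarith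
      have h2 := A.circle_dist γ hξ1
      have h3 : ‖A.act γ ξ - A.act γ 0‖ ≤ 4 / ε * r := by
        have h4 : ‖A.act γ ξ - A.act γ 0‖ * (ε / 2) ≤ 2 * r := by
          calc _ ≤ ‖A.act γ ξ - A.act γ 0‖ * ‖ξ - A.act γ⁻¹ 0‖ :=
                mul_le_mul_of_nonneg_left h1 (norm_nonneg _)
            _ = A.t γ := h2
            _ ≤ 2 * r := htγ
        have h5 : ‖A.act γ ξ - A.act γ 0‖ = ‖A.act γ ξ - A.act γ 0‖ * (ε / 2) * (2 / ε) := by
          field_simp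
        rw [h5]
        calc _ ≤ 2 * r * (2 / ε) := mul_le_mul_of_nonneg_right h4 (by positivity)
          _ = 4 / ε * r := by ring
      have h4 : ‖A.act γ ξ - ξ₀‖ ≤ ‖A.act γ ξ - A.act γ 0‖ + ‖A.act γ 0 - ξ₀‖ :=
        norm_sub_le_norm_sub_add_norm_sub _ _ _
      rw [hR]
      linarith
    set E' : Set ℂ := A.act γ⁻¹ ⁻¹' E ∩ {z | ‖z‖ = 1} with hE'def
    have hE' : MeasurableSet E' :=
      (A.measurable_act γ⁻¹ hE).inter (isClosed_eq continuous_norm continuous_const).measurableSet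
    have hsubR : ∀ ξ ∈ E', ‖ξ - ξ₀‖ ≤ R * r := by
      rintro ξ ⟨hξ1, hξ2⟩
      have hξ2' : ‖ξ‖ = 1 := hξ2
      have h1 := hdist _ hξ1 (A.norm_act_eq γ⁻¹ hξ2')
      rwa [A.act_inv_act γ hξ2'.le] at h1
    have hcirc : A.t γ / 4 * (circ E).toReal ≤ (circ E').toReal := by
      have h1 := le_circ_preimage (A := A) γ⁻¹ hE (D := 2) (by norm_num) (fun ξ _ hξ1 => by
        calc ‖ξ - A.act γ⁻¹ 0‖ ≤ ‖ξ‖ + ‖A.act γ⁻¹ 0‖ := norm_sub_le _ _
          _ ≤ 1 + 1 := add_le_add hξ1.le (A.norm_act_le _ (by simp))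
          _ = 2 := by norm_num)
      have h2 : circ (A.act γ⁻¹ ⁻¹' E) ≤ circ E' := lw_circ fun z hz hzE => ⟨hzE, hz⟩
      have h3 := ENNReal.toReal_mono (hct _) (h1.trans h2)
      rw [ENNReal.toReal_mul, ENNReal.toReal_ofReal (div_nonneg (A.t_pos _).le (by norm_num)),
        A.t_inv] at h3
      norm_num at h3 ⊢
      linarith
    have hlebE := hleb₂ r hr hrr₂ E' hE' (fun ξ hξ => by
      rw [Metric.mem_closedBall, dist_eq_norm]
      exact hsubR ξ hξ)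
    have hsc := lw_scale h hM hC hup hF hcS hCS (fun w s hs => ⟨(hS w s hs).1, (hS w s hs).2.2.1⟩)
      hP' hξ₀ hΛ1 hd hd2 hd4 T hr hΛr (γ := γ) (fun y hy1 hy2 => by
        refine hT ξ₀ r hξ₀ hr γ y ?_ ?_ ?_ hy2
        · refine le_trans ?_ hγt
          exact mul_le_mul_of_nonneg_right (min_le_right _ _) hr.le
        · refine le_trans ?_ hy1
          exact mul_le_mul_of_nonneg_right (min_le_left _ _) hr.le
        · refine hγU'.le.trans ?_
          nlinarith) hE hE' (fun z hz hz' => by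
        have h1 : A.act γ⁻¹ (A.act γ z) ∈ E := hz'.1
        rwa [A.inv_act_act γ hz.le] at h1) (fun ξ hξ => by
        have h1 := hsubR ξ hξ
        rw [hΛ]
        nlinarith)
    have hsc' : (ν E').toReal ≤ 16 * C * M * Cp * d * (circ E').toReal +
        2 * C * Λ * r * B.toReal * (ν E).toReal := by
      have h1 := ENNReal.toReal_mono ?_ hsc
      · rw [ENNReal.toReal_add, ENNReal.toReal_mul, ENNReal.toReal_mul, ENNReal.toReal_mul,
          ENNReal.toReal_ofReal (by positivity), ENNReal.toReal_ofReal (by positivity)] at h1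
        · exact h1
        · exact ENNReal.mul_ne_top ENNReal.ofReal_ne_top (hct _)
        · exact ENNReal.mul_ne_top (ENNReal.mul_ne_top ENNReal.ofReal_ne_top hBtop) (hνt _)
      · exact ENNReal.add_ne_top.2 ⟨ENNReal.mul_ne_top ENNReal.ofReal_ne_top (hct _),
          ENNReal.mul_ne_top (ENNReal.mul_ne_top ENNReal.ofReal_ne_top hBtop) (hνt _)⟩
    have h1 := (abs_le.1 hlebE).1
    have hcE' : 0 ≤ (circ E').toReal := ENNReal.toReal_nonneg
    have hcE : 0 ≤ (circ E).toReal := ENNReal.toReal_nonneg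
    have h2 : 16 * C * M * Cp * d * (circ E').toReal ≤ L / 2 * (circ E').toReal :=
      mul_le_mul_of_nonneg_right hdL hcE'
    have h3 : δ₁ * r / 4 * (circ E).toReal ≤ (circ E').toReal := by
      refine le_trans ?_ hcirc
      gcongr
    have h4 : L / 2 * (δ₁ * r / 4 * (circ E).toReal) ≤ L / 2 * (circ E').toReal :=
      mul_le_mul_of_nonneg_left h3 (by positivity)
    have h5 : r * (L * δ₁ / 8 * (circ E).toReal) ≤
        r * (e + 2 * C * Λ * B.toReal * (ν E).toReal) := by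
      nlinarith
    exact le_of_mul_le_mul_left h5 hr
  have key2 : L * δ₁ / 8 * (circ E).toReal ≤ 2 * C * Λ * B.toReal * (ν E).toReal :=
    le_of_forall_pos_le_add fun e he => by
      have := key e he
      linarith
  have hν0 : 0 ≤ (ν E).toReal := ENNReal.toReal_nonneg
  rw [← ENNReal.ofReal_toReal (hct E), ← ENNReal.ofReal_toReal (hνt E),
    ← ENNReal.ofReal_mul (by positivity)]
  refine ENNReal.ofReal_le_ofReal ?_
  rw [div_mul_eq_mul_div, div_le_iff₀ (by positivity)]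
  nlinarith

theorem lower (h : Std A W ν) : ∃ c : ℝ, 0 < c ∧ ∀ E : Set ℂ, MeasurableSet E →
    ENNReal.ofReal c * circ E ≤ ν E := by
  have := h.prob
  obtain ⟨ζ, hζ, hfar⟩ := lw_far h
  obtain ⟨g, hg⟩ := h.nofix ζ hζ
  have hg0 : 0 < ‖A.act g ζ - ζ‖ := norm_pos_iff.2 (sub_ne_zero.2 hg)
  set ε₀ : ℝ := ‖A.act g ζ - ζ‖ / 2 with hε₀
  have hε₀0 : 0 < ε₀ := by positivity
  obtain ⟨k, hk, hA⟩ := hfar ε₀ hε₀0
  have htg := A.t_pos g
  have ha : ‖A.act g⁻¹ 0‖ < 1 := A.norm_act_lt _ (by simp)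
  set K : ℝ := A.t g / (1 - ‖A.act g⁻¹ 0‖) ^ 2 with hK
  have h1a : 0 < 1 - ‖A.act g⁻¹ 0‖ := by linarith
  have hK0 : 0 < K := by positivity
  have hJ : ∀ η : ℂ, ‖η‖ = 1 → A.J g η ≤ K := by
    intro η hη
    rw [A.J_circle g hη, hK]
    have h1 : 1 - ‖A.act g⁻¹ 0‖ ≤ ‖η - A.act g⁻¹ 0‖ := by
      have h2 := norm_sub_norm_le η (A.act g⁻¹ 0)
      rwa [hη] at h2
    gcongr
  set ρ : ℝ := ε₀ / K with hρ
  have hρ0 : 0 < ρ := by positivity
  obtain ⟨k₁, hk₁, hB⟩ := hfar ρ hρ0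
  have hFt : W.F 1 g⁻¹ ≠ ∞ := ne_top_of_le_ne_top ENNReal.one_ne_top (W.F_le_one _ _)
  have hF0 : 0 < (W.F 1 g⁻¹).toReal := ENNReal.toReal_pos (W.F_ne_zero 1 g⁻¹) hFt
  set k₂ : ℝ := (W.F 1 g⁻¹).toReal * (k * (A.t g / 4)) with hk₂
  have hk₂0 : 0 < k₂ := by positivity
  have hnear : ∀ E : Set ℂ, MeasurableSet E → (∀ ξ ∈ E, ‖ξ‖ = 1 → ‖ξ - ζ‖ < ρ) →
      ENNReal.ofReal k₂ * circ E ≤ ν E := by
    intro E hE hEρ
    have h1 : ∀ z ∈ A.act g⁻¹ ⁻¹' E, ‖z‖ = 1 → ε₀ ≤ ‖z - ζ‖ := by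
      intro z hz hz1
      have h2 : ‖A.act g⁻¹ z‖ = 1 := A.norm_act_eq g⁻¹ hz1
      have h3 := hEρ _ hz h2
      have h4 := A.dist_act g h2.le hζ.le
      rw [A.act_inv_act g hz1.le] at h4
      have h5 : ‖z - A.act g ζ‖ ≤ K * ‖A.act g⁻¹ z - ζ‖ := by
        refine le_of_sq_le_sq ?_ (by positivity)
        rw [h4, mul_pow, pow_two K]
        gcongr
        · exact (A.J_pos g hζ.le).le
        · exact hJ _ h2
        · exact hJ _ hζ
      have h6 : K * ‖A.act g⁻¹ z - ζ‖ ≤ ε₀ := by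
        calc K * ‖A.act g⁻¹ z - ζ‖ ≤ K * ρ := by gcongr
          _ = ε₀ := by rw [hρ]; field_simp
      have h7 : ‖A.act g ζ - ζ‖ ≤ ‖z - A.act g ζ‖ + ‖z - ζ‖ := by
        have h8 := norm_sub_le (z - ζ) (z - A.act g ζ)
        rw [show z - ζ - (z - A.act g ζ) = A.act g ζ - ζ by ring] at h8
        linarith
      have h8 : ‖A.act g ζ - ζ‖ = 2 * ε₀ := by rw [hε₀]; ring
      linarith
    have h2 := hA _ (A.measurable_act g⁻¹ hE) h1
    have h3 := le_circ_preimage (A := A) g⁻¹ hE (D := 2) (by norm_num) (fun ξ _ hξ1 => by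
        calc ‖ξ - A.act g⁻¹ 0‖ ≤ ‖ξ‖ + ‖A.act g⁻¹ 0‖ := norm_sub_le _ _
          _ ≤ 1 + 1 := add_le_add hξ1.le (A.norm_act_le _ (by simp))
          _ = 2 := by norm_num)
    have h4 := F_mul_pf_le h hE 1 g⁻¹
    rw [pf_one h hE, pf_eq hE] at h4
    refine le_trans ?_ h4
    rw [hk₂, ENNReal.ofReal_mul hF0.le, ENNReal.ofReal_toReal hFt, ENNReal.ofReal_mul hk.le,
      mul_assoc, mul_assoc]
    refine mul_le_mul' le_rfl (le_trans ?_ h2)
    refine mul_le_mul' le_rfl (le_trans (le_of_eq ?_) h3)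
    rw [A.t_inv]
    norm_num
  refine ⟨min k₁ k₂, lt_min hk₁ hk₂0, fun E hE => ?_⟩
  set G : Set ℂ := {ξ : ℂ | ‖ξ - ζ‖ < ρ} with hG
  have hGm : MeasurableSet G :=
    (isOpen_lt ((continuous_id.sub continuous_const).norm) continuous_const).measurableSet
  have h1 := hnear (E ∩ G) (hE.inter hGm) (fun ξ hξ _ => hξ.2)
  have h2 := hB (E \ G) (hE.diff hGm) (fun ξ hξ _ => not_lt.1 hξ.2)
  rw [← measure_inter_add_sdiff (μ := ν) E hGm, ← measure_inter_add_sdiff (μ := circ) E hGm, mul_add]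
  refine add_le_add (le_trans ?_ h1) (le_trans ?_ h2)
  · exact mul_le_mul' (ENNReal.ofReal_le_ofReal (min_le_right _ _)) le_rfl
  · exact mul_le_mul' (ENNReal.ofReal_le_ofReal (min_le_left _ _)) le_rfl

end Pool.Agent.Lib.KLP
end

section

/-!
# 2.7: lower bound for hitting probabilities
-/

set_option autoImplicit false
open MeasureTheory Set Filter Topology
open scoped ENNReal ComplexConjugate

namespace Pool.Agent.Lib.KLP

variable {Γ : Type*} [Group Γ] {A : DAct Γ} {W : Walk Γ} {ν : Measure ℂ}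

private theorem exists_min (W : Walk Γ) (T : Finset Γ) :
    ∃ m : ℝ, 0 < m ∧ ∀ x ∈ T, ENNReal.ofReal m ≤ W.F 1 x := by
  classical
  induction T using Finset.induction_on with
  | empty => exact ⟨1, one_pos, by simp⟩
  | insert a T _ ih =>
    obtain ⟨m, hm, hT⟩ := ih
    have hne : W.F 1 a ≠ 0 := W.F_ne_zero 1 a
    have htop : W.F 1 a ≠ ⊤ := ne_top_of_le_ne_top ENNReal.one_ne_top (W.F_le_one 1 a)
    refine ⟨min m (W.F 1 a).toReal, lt_min hm (ENNReal.toReal_pos hne htop), ?_⟩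
    intro x hx
    rcases Finset.mem_insert.mp hx with rfl | hx
    · calc ENNReal.ofReal (min m (W.F 1 x).toReal) ≤ ENNReal.ofReal (W.F 1 x).toReal :=
          ENNReal.ofReal_le_ofReal (min_le_right _ _)
        _ = W.F 1 x := ENNReal.ofReal_toReal htop
    · exact le_trans (ENNReal.ofReal_le_ofReal (min_le_left _ _)) (hT x hx)

theorem F_lower (h : Std A W ν) : ∃ c : ℝ, 0 < c ∧ ∀ g : Γ,
    ENNReal.ofReal (c * A.t g) ≤ W.F 1 g := by
  obtain ⟨M, hM, hup⟩ := upper h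
  obtain ⟨c1, hc1, hlow⟩ := lower h
  obtain ⟨K', hK', hnear⟩ := near_bound h
  have hK0 : 0 < K' := by linarith
  set δ : ℝ := min (1 / K') (c1 / (64 * M * K')) with hδ
  have hδ0 : 0 < δ := lt_min (by positivity) (by positivity)
  have hδK : K' * δ ≤ 1 := by
    have : δ ≤ 1 / K' := min_le_left _ _
    rw [le_div_iff₀ hK0] at this
    linarith
  have hδ1 : δ ≤ 1 := by nlinarith
  have hδM : 2 * M * (K' * δ) ≤ c1 / 32 := by
    have : δ ≤ c1 / (64 * M * K') := min_le_right _ _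
    rw [le_div_iff₀ (by positivity)] at this
    linarith
  obtain ⟨N, hN⟩ := hnear δ hδ0 hδ1
  obtain ⟨T, hT⟩ := near_finite A hδ0 one_pos
  obtain ⟨m, hm, hmT⟩ := exists_min W T
  obtain ⟨m2, hm2, hm2T⟩ := exists_min W (A.finite_t (ε := 1 / 2) (by norm_num)).toFinset
  set c2 : ℝ := c1 / (32 * (N + 1)) with hc2
  have hc20 : 0 < c2 := by positivity
  refine ⟨min (c2 * m) m2, lt_min (by positivity) hm2, ?_⟩
  intro g
  have ht0 := A.t_pos g
  have ht1 := A.t_le_one g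
  rcases le_or_gt (1 / 2) (A.t g) with hg | hg
  · refine le_trans (ENNReal.ofReal_le_ofReal ?_) (hm2T g (by
      rw [Set.Finite.mem_toFinset]; exact hg))
    have : min (c2 * m) m2 ≤ m2 := min_le_right _ _
    have h0 : 0 ≤ min (c2 * m) m2 := le_min (by positivity) hm2.le
    nlinarith
  · set r := A.t g with hr
    set n := ‖A.act g 0‖ with hn
    have hrn : r = 1 - n ^ 2 := rfl
    have hn0 : 0 ≤ n := norm_nonneg _
    have hn1 : n ≤ 1 := A.norm_act_le g (by simp)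
    have hnpos : 0 < n := by
      rcases hn0.lt_or_eq with h' | h'
      · exact h'
      · rw [← h'] at hrn
        linarith
    set ξ : ℂ := A.act g 0 / (n : ℂ) with hξ
    have hξ1 : ‖ξ‖ = 1 := by
      rw [hξ, norm_div, Complex.norm_real, Real.norm_of_nonneg hn0, ← hn, div_self hnpos.ne']
    have hξd : ‖A.act g 0 - ξ‖ ≤ r := by
      have hnc : (n : ℂ) ≠ 0 := by exact_mod_cast hnpos.ne'
      have e1 : A.act g 0 - ξ = ((n - 1 : ℝ) : ℂ) * ξ := by
        rw [hξ]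
        push_cast
        field_simp
      rw [e1, norm_mul, hξ1, mul_one, Complex.norm_real, Real.norm_eq_abs,
        abs_of_nonpos (by linarith), hrn]
      nlinarith
    have hex : ∃ y ∈ A.U ξ r, δ * r ≤ A.t y ∧ ENNReal.ofReal (c2 * r) < W.F 1 y := by
      by_contra hcon
      push Not at hcon
      have h1 := hN ξ r hξ1 ht0 (by linarith) (ENNReal.ofReal (c2 * r)) hcon
      have h2 : ENNReal.ofReal (c1 * r / 8) ≤ ν (Metric.ball ξ (r / 2)) := by
        refine le_trans ?_ (hlow _ Metric.isOpen_ball.measurableSet)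
        have := le_circ_ball hξ1 (ρ := r / 2) (by linarith) (by linarith)
        calc ENNReal.ofReal (c1 * r / 8) = ENNReal.ofReal c1 * ENNReal.ofReal (r / 2 / 4) := by
              rw [← ENNReal.ofReal_mul hc1.le]
              congr 1
              ring
          _ ≤ _ := by gcongr
      have h3 : ν {x : ℂ | r - K' * δ * r ≤ ‖x - ξ‖ ∧ ‖x - ξ‖ ≤ r + K' * δ * r} ≤
          ENNReal.ofReal (c1 * r / 32) := by
        have hmeas : MeasurableSet
            {x : ℂ | r - K' * δ * r ≤ ‖x - ξ‖ ∧ ‖x - ξ‖ ≤ r + K' * δ * r} := by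
          have hc : Continuous fun x : ℂ => ‖x - ξ‖ := by fun_prop
          exact ((isClosed_le continuous_const hc).inter
            (isClosed_le hc continuous_const)).measurableSet
        refine le_trans (hup _ hmeas) ?_
        have h4 := circ_annulus_le hξ1 (r := r) (a := K' * δ * r) ht0.le (by positivity)
          (by nlinarith)
        calc ENNReal.ofReal M * circ {x : ℂ | r - K' * δ * r ≤ ‖x - ξ‖ ∧ ‖x - ξ‖ ≤ r + K' * δ * r}
            ≤ ENNReal.ofReal M * ENNReal.ofReal (2 * (K' * δ * r)) := by gcongr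
          _ = ENNReal.ofReal (M * (2 * (K' * δ * r))) := by rw [← ENNReal.ofReal_mul hM.le]
          _ ≤ ENNReal.ofReal (c1 * r / 32) := by
              apply ENNReal.ofReal_le_ofReal
              nlinarith
      have h5 : (N : ℝ≥0∞) * ENNReal.ofReal (c2 * r) ≤ ENNReal.ofReal (c1 * r / 32) := by
        rw [← ENNReal.ofReal_natCast, ← ENNReal.ofReal_mul (by positivity)]
        apply ENNReal.ofReal_le_ofReal
        have hNp : (0 : ℝ) < (N : ℝ) + 1 := by positivity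
        have e2 : (N : ℝ) * (c2 * r) = c1 * r / 32 * ((N : ℝ) / (N + 1)) := by
          rw [hc2]
          field_simp
        rw [e2]
        have h6 : (N : ℝ) / (N + 1) ≤ 1 := by
          rw [div_le_one hNp]
          linarith
        have h7 : 0 ≤ c1 * r / 32 := by positivity
        nlinarith
      have h8 : ENNReal.ofReal (c1 * r / 8) ≤ ENNReal.ofReal (3 * (c1 * r / 32)) := by
        calc ENNReal.ofReal (c1 * r / 8) ≤ _ := le_trans h2 h1
          _ ≤ 2 * ENNReal.ofReal (c1 * r / 32) + ENNReal.ofReal (c1 * r / 32) := by gcongr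
          _ = ENNReal.ofReal (3 * (c1 * r / 32)) := by
              rw [show (2 : ℝ≥0∞) = ENNReal.ofReal 2 by simp, ← ENNReal.ofReal_mul (by norm_num),
                ← ENNReal.ofReal_add (by positivity) (by positivity)]
              congr 1
              ring
      rw [ENNReal.ofReal_le_ofReal_iff (by positivity)] at h8
      have : 0 < c1 * r := by positivity
      linarith
    obtain ⟨y, hyU, hyt, hyF⟩ := hex
    have hyT : y⁻¹ * g ∈ T := by
      apply hT ξ r hξ1 ht0 y g hyt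
      · nlinarith
      · rw [one_mul]
        exact (show ‖A.act y 0 - ξ‖ < r from hyU).le
      · rw [one_mul]
        exact hξd
    have h9 : ENNReal.ofReal m ≤ W.F y g := by
      have e3 : W.F (y * 1) (y * (y⁻¹ * g)) = W.F 1 (y⁻¹ * g) := W.F_mul_left y 1 _
      rw [mul_one, mul_inv_cancel_left] at e3
      rw [e3]
      exact hmT _ hyT
    calc ENNReal.ofReal (min (c2 * m) m2 * r) ≤ ENNReal.ofReal ((c2 * r) * m) := by
          apply ENNReal.ofReal_le_ofReal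
          have : min (c2 * m) m2 ≤ c2 * m := min_le_left _ _
          nlinarith
      _ = ENNReal.ofReal (c2 * r) * ENNReal.ofReal m := ENNReal.ofReal_mul (by positivity)
      _ ≤ W.F 1 y * W.F y g := mul_le_mul' hyF.le h9
      _ ≤ W.F 1 g := W.F_mul_F_le 1 y g

end Pool.Agent.Lib.KLP
end

section

/-!
# B18: existence of Bloch data
-/

set_option autoImplicit false
open MeasureTheory Set Filter Topology
open scoped ENNReal ComplexConjugate

namespace Pool.Agent.Lib.KLP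

private theorem denom_ne' {a z : ℂ} (ha : ‖a‖ < 1) (hz : ‖z‖ < 1) : 1 - conj a * z ≠ 0 := by
  intro h
  have h1 : conj a * z = 1 := by linear_combination -h
  have h2 : ‖a‖ * ‖z‖ = 1 := by
    have := congrArg norm h1
    simpa using this
  have h3 : ‖a‖ * ‖z‖ < 1 := by
    have := norm_nonneg a
    have := norm_nonneg z
    nlinarith
  linarith

private theorem mob_diff' {c a : ℂ} (ha : ‖a‖ < 1) :
    DifferentiableOn ℂ (mob c a) (Metric.ball 0 1) := by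
  unfold mob
  apply DifferentiableOn.div
  · fun_prop
  · fun_prop
  · intro z hz
    exact denom_ne' ha (by simpa using hz)

private theorem comp_hol {b f : ℂ → ℂ} (hb : DifferentiableOn ℂ b (Metric.ball 0 1))
    (hf : IsDiscIso f) :
    DifferentiableOn ℂ (fun z => b (f z)) (Metric.ball 0 1) ∨
      DifferentiableOn ℂ (fun z => conj (b (f z))) (Metric.ball 0 1) := by
  rcases hf with h | h
  · left
    have hm : MapsTo f (Metric.ball 0 1) (Metric.ball 0 1) := by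
      intro z hz
      have hz' : ‖z‖ < 1 := by simpa using hz
      simpa using IsDiscIso.norm_lt_one (Or.inl h) hz'
    obtain ⟨c, a, _, ha, rfl⟩ := h
    exact hb.comp (mob_diff' ha) hm
  · right
    obtain ⟨c, a, hc, ha, rfl⟩ := h
    have hm : MapsTo (mob c a) (Metric.ball 0 1) (Metric.ball 0 1) := by
      intro z hz
      have hz' : ‖z‖ < 1 := by simpa using hz
      have : IsDiscIso (mob c a) := Or.inl ⟨c, a, hc, ha, rfl⟩
      simpa using this.norm_lt_one hz'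
    have hF : DifferentiableOn ℂ (fun z => b (mob c a z)) (Metric.ball 0 1) :=
      hb.comp (mob_diff' ha) hm
    intro z hz
    apply DifferentiableAt.differentiableWithinAt
    have hz' : conj z ∈ Metric.ball (0 : ℂ) 1 := by
      simpa using hz
    have h1 : DifferentiableAt ℂ (fun z => b (mob c a z)) (conj z) :=
      hF.differentiableAt (Metric.isOpen_ball.mem_nhds hz')
    have h2 := h1.conj_conj
    rw [Complex.conj_conj] at h2
    exact h2

theorem exists_blochData {Γ : Type} [Group Γ] (A : DAct Γ)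
    (hfaith : ∀ g : Γ, (∀ z, ‖z‖ < 1 → A.act g z = z) → g = 1) (hfg : Group.FG Γ)
    (hlin : ∃ (n : ℕ) (R : Γ →* GL (Fin n) ℝ), Function.Injective R) :
    ∃ (ι : Type) (_ : Fintype ι) (_ : Nonempty ι), Nonempty (BlochData A ι) := by
  classical
  obtain ⟨Δ, hfi, hmob, hfree⟩ := exists_free_subgroup A hfaith hfg hlin
  obtain ⟨A', hA'⟩ := exists_restrict A Δ hfi
  have hHF : HF A' := by
    refine ⟨fun g => ?_, fun g z hz hgz => ?_⟩
    · rw [hA']
      exact hmob g g.2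
    · rw [hA'] at hgz
      exact Subtype.ext (hfree g g.2 z hz hgz)
  have hnb := exists_bloch hHF
  unfold NoBloch at hnb
  push Not at hnb
  obtain ⟨b, hb, hper, hnc⟩ := hnb
  obtain ⟨C0, hC0, hgr⟩ := bloch_growth hHF hb hper
  choose c hc using hper
  have hc' : ∀ (g : Δ) (z : ℂ), ‖z‖ < 1 → b (A.act (g : Γ) z) = b z + c g := by
    intro g z hz
    rw [← hA']
    exact hc g z hz
  have hcmul : ∀ g h : Δ, c (g * h) = c g + c h := by
    intro g h
    have h0 : ‖(0 : ℂ)‖ < 1 := by simp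
    have h1 := hc' (g * h) 0 h0
    rw [Subgroup.coe_mul, A.mul _ _ _ h0.le, hc' g _ (A.norm_act_lt _ h0), hc' h 0 h0] at h1
    linear_combination -h1
  have hc1 : c 1 = 0 := by
    have := hcmul 1 1
    rw [one_mul] at this
    linear_combination -this
  let o : Γ ⧸ Δ → Γ := Quotient.out
  have ho : ∀ i : Γ ⧸ Δ, ((o i : Γ) : Γ ⧸ Δ) = i := fun i => Quotient.out_eq' i
  have hd : ∀ (g : Γ) (i : Γ ⧸ Δ), (o i)⁻¹ * g * o (g⁻¹ • i) ∈ Δ := by
    intro g i
    have h1 : ((g⁻¹ * o i : Γ) : Γ ⧸ Δ) = ((o (g⁻¹ • i) : Γ) : Γ ⧸ Δ) := by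
      rw [ho]
      conv_rhs => rw [← ho i]
      rfl
    have h2 := QuotientGroup.eq.mp h1
    convert h2 using 1
    group
  let d : Γ → Γ ⧸ Δ → Δ := fun g i => ⟨(o i)⁻¹ * g * o (g⁻¹ • i), hd g i⟩
  have : Finite (Γ ⧸ Δ) := Subgroup.finite_quotient_of_finiteIndex
  let _ : Fintype (Γ ⧸ Δ) := Fintype.ofFinite _
  let Ci : Γ ⧸ Δ → ℝ := fun i => C0 * (1 + Real.log (8 / A.t (o i)⁻¹))
  have hlog : ∀ g : Γ, 0 ≤ Real.log (8 / A.t g) := by
    intro g
    apply Real.log_nonneg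
    rw [le_div_iff₀ (A.t_pos g)]
    linarith [A.t_le_one g]
  have hCi : ∀ i, 0 ≤ Ci i := fun i => mul_nonneg hC0 (by linarith [hlog (o i)⁻¹])
  refine ⟨Γ ⧸ Δ, inferInstance, inferInstance, ⟨?_⟩⟩
  refine
    { b := fun i z => b (A.act (o i)⁻¹ z)
      j := fun g i => g⁻¹ • i
      χ := fun g i => c (d g i)
      C := ∑ i, Ci i
      hol := fun i => comp_hol hb (A.iso _)
      growth := ?_
      equiv := ?_
      j_one := fun i => by simp
      j_mul := fun g h i => by simp [mul_smul]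
      χ_mul := ?_
      trans := fun i k => ?_
      nonconst := fun i => ?_ }
  · intro i z hz
    have hz0 := norm_nonneg z
    set w := A.act (o i)⁻¹ z with hw
    have hw1 : ‖w‖ < 1 := A.norm_act_lt _ hz
    have hw0 := norm_nonneg w
    have ht := A.t_pos (o i)⁻¹
    have h1 := hgr w hw1
    have h2 : A.t (o i)⁻¹ / 8 * (1 - ‖z‖) ≤ 1 - ‖w‖ := by
      have e1 := A.tau_act (o i)⁻¹ hz.le
      rw [← hw] at e1
      have e2 := A.J_lower (o i)⁻¹ hz.le
      have e3 : A.t (o i)⁻¹ / 4 * (1 - ‖z‖ ^ 2) ≤ 1 - ‖w‖ ^ 2 := by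
        rw [e1]
        apply mul_le_mul_of_nonneg_right e2
        nlinarith
      have e4 : 1 - ‖w‖ ^ 2 ≤ 2 * (1 - ‖w‖) := by nlinarith
      have e5 : A.t (o i)⁻¹ / 4 * (1 - ‖z‖) ≤ A.t (o i)⁻¹ / 4 * (1 - ‖z‖ ^ 2) := by
        apply mul_le_mul_of_nonneg_left _ (by positivity)
        nlinarith
      linarith
    have hz1 : 0 < 1 - ‖z‖ := by linarith
    have h3 : Real.log (1 / (1 - ‖w‖)) ≤
        Real.log (8 / A.t (o i)⁻¹) + Real.log (1 / (1 - ‖z‖)) := by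
      rw [← Real.log_mul (by positivity) (by positivity)]
      apply Real.log_le_log (by apply one_div_pos.mpr; linarith)
      rw [div_mul_div_comm, mul_one, div_le_div_iff₀ (by linarith) (by positivity)]
      linarith
    have h4 : 0 ≤ Real.log (1 / (1 - ‖z‖)) := by
      apply Real.log_nonneg
      rw [le_div_iff₀ hz1]
      linarith
    have h5 : ‖b w‖ ≤ Ci i * (1 + Real.log (1 / (1 - ‖z‖))) := by
      refine le_trans h1 ?_
      have h6 : C0 * (1 + Real.log (1 / (1 - ‖w‖))) ≤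
          C0 * (1 + (Real.log (8 / A.t (o i)⁻¹) + Real.log (1 / (1 - ‖z‖)))) := by
        apply mul_le_mul_of_nonneg_left _ hC0
        linarith
      refine le_trans h6 ?_
      have h7 := hlog (o i)⁻¹
      have h8 : 0 ≤ C0 * (Real.log (8 / A.t (o i)⁻¹) * Real.log (1 / (1 - ‖z‖))) :=
        mul_nonneg hC0 (mul_nonneg h7 h4)
      show _ ≤ C0 * (1 + Real.log (8 / A.t (o i)⁻¹)) * (1 + Real.log (1 / (1 - ‖z‖)))
      nlinarith
    refine le_trans h5 ?_
    apply mul_le_mul_of_nonneg_right _ (by linarith)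
    exact Finset.single_le_sum (fun k _ => hCi k) (Finset.mem_univ i)
  · intro g i z hz
    show b (A.act (o i)⁻¹ (A.act g z)) = b (A.act (o (g⁻¹ • i))⁻¹ z) + c (d g i)
    rw [← hc' (d g i) _ (A.norm_act_lt _ hz), ← A.mul _ _ _ hz.le, ← A.mul _ _ _ hz.le]
    congr 2
    show (o i)⁻¹ * g = (o i)⁻¹ * g * o (g⁻¹ • i) * (o (g⁻¹ • i))⁻¹
    group
  · intro g h i
    show c (d (g * h) i) = c (d g i) + c (d h (g⁻¹ • i))
    rw [← hcmul]
    congr 1
    apply Subtype.ext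
    show (o i)⁻¹ * (g * h) * o ((g * h)⁻¹ • i) =
      ((o i)⁻¹ * g * o (g⁻¹ • i)) * ((o (g⁻¹ • i))⁻¹ * h * o (h⁻¹ • g⁻¹ • i))
    rw [mul_inv_rev, mul_smul]
    group
  · obtain ⟨g, hg⟩ := MulAction.exists_smul_eq Γ i k
    exact ⟨g⁻¹, by simpa using hg⟩
  · rintro ⟨e, he⟩
    obtain ⟨z, hz, hne⟩ := hnc e
    apply hne
    have h1 := he (A.act (o i) z) (A.norm_act_lt _ hz)
    rw [A.inv_act_act (o i) hz.le] at h1
    exact h1

end Pool.Agent.Lib.KLP
end

section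

/-!
# Assembly of the regularity part: an absolutely continuous stationary measure has a Hölder density
-/

set_option autoImplicit false
open MeasureTheory Set Filter Topology
open scoped ENNReal ComplexConjugate

namespace Pool.Agent.Lib.KLP

variable {Γ : Type*} [Group Γ] {A : DAct Γ} {W : Walk Γ} {ν : Measure ℂ}

theorem exists_bds (h : Std A W ν) : ∃ c C : ℝ, Bds A W ν c C := by
  obtain ⟨M, hM, hup⟩ := upper h
  obtain ⟨C, hC, hF⟩ := F_upper h
  obtain ⟨c, hc, hlow⟩ := lower h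
  obtain ⟨c', hc', hF'⟩ := F_lower h
  refine ⟨min (min c c') (max M C), max M C, ?_⟩
  have hmM : M ≤ max M C := le_max_left _ _
  have hmC : C ≤ max M C := le_max_right _ _
  have hpos : 0 < max M C := lt_of_lt_of_le hM hmM
  exact
    { c_pos := lt_min (lt_min hc hc') hpos
      c_le := min_le_right _ _
      lowν := fun E hE => le_trans (by
        gcongr
        exact (min_le_left _ _).trans (min_le_left _ _)) (hlow E hE)
      upν := fun E hE => le_trans (hup E hE) (by gcongr)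
      lowF := fun g => le_trans (ENNReal.ofReal_le_ofReal (by
        have := (A.t_pos g).le
        gcongr
        exact (min_le_left _ _).trans (min_le_right _ _))) (hF' g)
      upF := fun g => le_trans (hF g) (ENNReal.ofReal_le_ofReal (by
        have := (A.t_pos g).le
        gcongr)) }

theorem regularity (h : Std A W ν) :
    ∃ (φ : ℂ → ℝ) (H κ : ℝ), 0 < κ ∧ κ ≤ 1 ∧ Measurable φ ∧ (∀ ξ, 0 ≤ φ ξ) ∧ (∀ ξ, φ ξ ≤ H) ∧
      (∀ ξ η : ℂ, ‖ξ‖ = 1 → ‖η‖ = 1 → |φ ξ - φ η| ≤ H * ‖ξ - η‖ ^ κ) ∧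
      ν = circ.withDensity (fun ξ => ENNReal.ofReal (φ ξ)) := by
  haveI := h.prob
  obtain ⟨c, C, hB⟩ := exists_bds h
  have htr := transient h
  obtain ⟨ξL, L, hL⟩ := exists_lebPt ν h.ac
  obtain ⟨c₀, hc₀, hc₀1, hfar⟩ := exists_far A h.nofix
  obtain ⟨κ, C₁, hκ, hκ1, hC₁, hiter⟩ := ratio_iter h htr hB hc₀ (by linarith)
  obtain ⟨C₂, hC₂, hlim⟩ := ratio_lim h hL hc₀ hc₀1 hfar
  have hCpos : 0 < C := lt_of_lt_of_le hB.c_pos hB.c_le
  have key : ∀ (ξ₀ : ℂ) (r₀ : ℝ) (E E' : Set ℂ), ‖ξ₀‖ = 1 → 0 < r₀ → r₀ ≤ c₀ / 2 →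
      MeasurableSet E → MeasurableSet E' → E ⊆ Metric.closedBall ξ₀ r₀ →
      E' ⊆ Metric.closedBall ξ₀ r₀ →
      |(ν E).toReal * (circ E').toReal - (ν E').toReal * (circ E).toReal| ≤
        (C * (C₁ + C₂)) * r₀ ^ κ * (circ E).toReal * (circ E').toReal := by
    intro ξ₀ r₀ E E' hξ₀ hr₀ hr₀c hE hE' hEs hEs'
    have hνE : ν E ≤ ENNReal.ofReal C * circ E := hB.upν E hE
    have hνE' : ν E' ≤ ENNReal.ofReal C * circ E' := hB.upν E' hE'
    have e1 : (ν E').toReal ≤ C * (circ E').toReal := by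
      have := ENNReal.toReal_mono (ENNReal.mul_ne_top ENNReal.ofReal_ne_top
        (measure_ne_top circ E')) hνE'
      rwa [ENNReal.toReal_mul, ENNReal.toReal_ofReal hCpos.le] at this
    by_cases hz : circ E' = 0
    · have h0 : ν E' = 0 := h.ac hz
      rw [hz, h0]; simp
    obtain ⟨a, b, ha, hab, hdiff, hw⟩ := hiter ξ₀ r₀ E E' hξ₀ hr₀ hr₀c hE hE' hEs hEs' hz
    obtain ⟨l1, l2⟩ := hlim ξ₀ r₀ E E' a b hξ₀ hr₀ hr₀c hE hE' hEs hEs' ha hab hw
    obtain ⟨w1, w2⟩ := hw 1 (by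
      have : ‖(0 : ℂ) - ξ₀‖ = 1 := by simpa using hξ₀
      rw [A.one 0 (by simp), this]; linarith)
    rw [pf_one h hE, pf_one h hE'] at w1 w2
    set p := (circ E).toReal with hp
    set p' := (circ E').toReal with hp'
    have hp0 : 0 ≤ p := ENNReal.toReal_nonneg
    have hp'0 : 0 < p' := ENNReal.toReal_pos hz (measure_ne_top _ _)
    have hn0 : 0 ≤ (ν E').toReal := ENNReal.toReal_nonneg
    have hr1 : r₀ ≤ r₀ ^ κ := by
      have h1 : r₀ ≤ 1 := by linarith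
      calc r₀ = r₀ ^ (1:ℝ) := (Real.rpow_one _).symm
        _ ≤ r₀ ^ κ := Real.rpow_le_rpow_of_exponent_ge hr₀ h1 hκ1
    have hd : (b - a) * p' ≤ C₁ * r₀ ^ κ * p := by
      have := mul_le_mul_of_nonneg_right hdiff hp'0.le
      calc (b - a) * p' ≤ C₁ * r₀ ^ κ * (p / p') * p' := this
        _ = C₁ * r₀ ^ κ * p := by field_simp
    have hb0 : 0 ≤ b := ha.trans hab
    have hrk : 0 ≤ r₀ ^ κ := Real.rpow_nonneg hr₀.le _
    -- upper bound: ν E p' - ν E' p ≤ ν E' (b p' - p)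
    have up1 : b * p' - p ≤ (C₁ + C₂) * r₀ ^ κ * p := by
      have : b * p' = a * p' + (b - a) * p' := by ring
      have hh : C₂ * r₀ * p ≤ C₂ * r₀ ^ κ * p := by
        have := mul_le_mul_of_nonneg_left hr1 hC₂.le
        exact mul_le_mul_of_nonneg_right this hp0
      nlinarith
    have lo1 : p - a * p' ≤ (C₁ + C₂) * r₀ ^ κ * p := by
      -- p ≤ (1 + C₂ r₀) b p'
      by_cases hbp : b * p' ≤ p
      · have hh : C₂ * r₀ * (b * p') ≤ C₂ * r₀ ^ κ * p := by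
          have e1 := mul_le_mul_of_nonneg_left hr1 hC₂.le
          have e2 : 0 ≤ C₂ * r₀ := by positivity
          calc C₂ * r₀ * (b * p') ≤ C₂ * r₀ * p := mul_le_mul_of_nonneg_left hbp e2
            _ ≤ C₂ * r₀ ^ κ * p := mul_le_mul_of_nonneg_right e1 hp0
        have : b * p' = a * p' + (b - a) * p' := by ring
        nlinarith
      · push Not at hbp
        have : b * p' = a * p' + (b - a) * p' := by ring
        have h3 : 0 ≤ C₂ * r₀ ^ κ * p := by positivity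
        nlinarith
    have hD : 0 ≤ (C₁ + C₂) * r₀ ^ κ * p := by positivity
    have t1 : (ν E').toReal * ((C₁ + C₂) * r₀ ^ κ * p) ≤
        (C * p') * ((C₁ + C₂) * r₀ ^ κ * p) := mul_le_mul_of_nonneg_right e1 hD
    have t2 : (ν E').toReal * (p - a * p') ≤ (ν E').toReal * ((C₁ + C₂) * r₀ ^ κ * p) :=
      mul_le_mul_of_nonneg_left lo1 hn0
    have t3 : (ν E').toReal * (b * p' - p) ≤ (ν E').toReal * ((C₁ + C₂) * r₀ ^ κ * p) :=
      mul_le_mul_of_nonneg_left up1 hn0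
    have s1 := mul_le_mul_of_nonneg_right w1 hp'0.le
    have s2 := mul_le_mul_of_nonneg_right w2 hp'0.le
    rw [abs_le]
    constructor <;> nlinarith
  obtain ⟨φ, H, h1, h2, h3, h4, h5⟩ := holder_density ν hCpos (half_pos hc₀) hκ hκ1
    (by positivity) hB.upν key
  exact ⟨φ, H, κ, hκ, hκ1, h1, h2, h3, h4, h5⟩

end Pool.Agent.Lib.KLP
end

section

/-!
# The theorem in the disc model
-/

set_option autoImplicit false
open MeasureTheory Set Filter Topology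
open scoped ENNReal ComplexConjugate

namespace Pool.Agent.Lib.KLP

theorem no_ac {Γ : Type} [Group Γ] (A : DAct Γ) (W : Walk Γ)
    (hfaith : ∀ g : Γ, (∀ z, ‖z‖ < 1 → A.act g z = z) → g = 1)
    (hlin : ∃ (n : ℕ) (R : Γ →* GL (Fin n) ℝ), Function.Injective R)
    (ν : Measure ℂ) (hν : IsProbabilityMeasure ν) (hac : ν ≪ circ) (hst : Stationary A W ν) :
    False := by
  classical
  have h : Std A W ν := ⟨hν, hac, hst, noFix A W⟩
  obtain ⟨φ, H, κ, hκ, hκ1, hm, h0, hb, hH, hφ⟩ := regularity h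
  have hfg : Group.FG Γ := by
    refine ⟨W.S, ?_⟩
    rw [eq_top_iff]
    intro x _
    have : x ∈ Submonoid.closure (W.S : Set Γ) := by rw [W.gen]; trivial
    have hle : Submonoid.closure (W.S : Set Γ) ≤ (Subgroup.closure (W.S : Set Γ)).toSubmonoid :=
      (Submonoid.closure_le).2 Subgroup.subset_closure
    exact hle this
  obtain ⟨ι, _, _, ⟨D⟩⟩ := exists_blochData A hfaith hfg hlin
  have h1 := det_zero W hst hκ hκ1 hm h0 hb hH hφ D
  exact contra D (max_pr W D fun θ hθ0 hθ _ => det_char W D h1 hθ0 hθ)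

theorem disc_main {Γ : Type} [Group Γ] (A : DAct Γ) (W : Walk Γ)
    (hfaith : ∀ g : Γ, (∀ z, ‖z‖ < 1 → A.act g z = z) → g = 1)
    (hlin : ∃ (n : ℕ) (R : Γ →* GL (Fin n) ℝ), Function.Injective R)
    (ν : Measure ℂ) [IsProbabilityMeasure ν] (hT : ∀ᵐ z ∂ν, ‖z‖ = 1)
    (hst : Stationary A W ν) : ν ⟂ₘ circ :=
  singular_of_no_ac A W (fun ν' h1 h2 h3 => no_ac A W hfaith hlin ν' h1 h2 h3) ν hT hst

end Pool.Agent.Lib.KLP
end

section

/-!
# The theorem in the disc model, for all discrete groups without fixed boundary point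
-/

set_option autoImplicit false
open MeasureTheory Set Filter Topology
open scoped ENNReal ComplexConjugate

namespace Pool.Agent.Lib.KLG

open Pool.Agent.Lib.KLP

theorem circ_singleton (z : ℂ) : circ {z} = 0 := by
  have h := circ_closedBall_le z (ρ := 0) le_rfl
  rw [Metric.closedBall_zero, ENNReal.ofReal_zero] at h
  exact le_antisymm h zero_le

theorem no_ac {Γ : Type} [Group Γ] [Infinite Γ] (A : Act Γ) (W : Walk Γ)
    (hgen : Submonoid.closure (W.S : Set Γ) = ⊤)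
    (hfaith : ∀ g : Γ, (∀ z, ‖z‖ < 1 → A.act g z = z) → g = 1)
    (hlin : ∃ (n : ℕ) (R : Γ →* GL (Fin n) ℝ), Function.Injective R)
    (hnofix : ∀ ζ : ℂ, ‖ζ‖ = 1 → ∃ s ∈ W.S, A.act s ζ ≠ ζ)
    (ν : Measure ℂ) (hν : IsProbabilityMeasure ν) (hac : ν ≪ circ) (hst : Stationary A W ν) :
    False := by
  have hsub : Subgroup.closure (W.S : Set Γ) = ⊤ := by
    rw [eq_top_iff]
    intro x _
    have hx : x ∈ Submonoid.closure (W.S : Set Γ) := by rw [hgen]; trivial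
    have hle : Submonoid.closure (W.S : Set Γ) ≤ (Subgroup.closure (W.S : Set Γ)).toSubmonoid :=
      (Submonoid.closure_le).2 Subgroup.subset_closure
    exact hle hx
  have hinf : Infinite (Subgroup.closure (W.S : Set Γ)) := by
    rw [hsub]
    exact (Subgroup.topEquiv (G := Γ)).toEquiv.infinite_iff.2 inferInstance
  have h : Std A W ν :=
    { prob := hν
      onT := ae_norm_of_ac' hac
      stat := hst
      na := fun z => hac (circ_singleton z)
      nofix := hnofix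
      inf := hinf }
  have hc : A.Coc := coc_of_ac h hac
  let W' : KLP.Walk Γ :=
    { S := W.S
      μ := W.μ
      pos := W.pos
      sum_eq := W.sum_eq
      gen := hgen }
  exact KLP.no_ac (A.toDAct hc) W' hfaith hlin ν hν hac hst

theorem disc_all {Γ : Type} [Group Γ] [Infinite Γ] (A : Act Γ) (W : Walk Γ)
    (hgen : Submonoid.closure (W.S : Set Γ) = ⊤)
    (hfaith : ∀ g : Γ, (∀ z, ‖z‖ < 1 → A.act g z = z) → g = 1)
    (hlin : ∃ (n : ℕ) (R : Γ →* GL (Fin n) ℝ), Function.Injective R)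
    (hnofix : ∀ ζ : ℂ, ‖ζ‖ = 1 → ∃ s ∈ W.S, A.act s ζ ≠ ζ)
    (ν : Measure ℂ) [IsProbabilityMeasure ν] (hT : ∀ᵐ z ∂ν, ‖z‖ = 1)
    (hst : Stationary A W ν) : ν ⟂ₘ circ :=
  singular_of_no_ac A W
    (fun ν' h1 h2 h3 => no_ac A W hgen hfaith hlin hnofix ν' h1 h2 h3) ν hT hst

end Pool.Agent.Lib.KLG
end
end

section

/-!
# The disc action of a discrete group of isometries
-/

set_option autoImplicit false
open MeasureTheory Set Filter Topology
open scoped ENNReal ComplexConjugate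

namespace Pool.Agent.Lib.KLG

open Pool.Agent.Lib.KLP

private lemma mka_ext {f f' : ℂ → ℂ} (hf : ContinuousOn f (Metric.closedBall 0 1))
    (hf' : ContinuousOn f' (Metric.closedBall 0 1)) (h : ∀ z, ‖z‖ < 1 → f z = f' z) :
    ∀ z, ‖z‖ ≤ 1 → f z = f' z := by
  have h1 : Set.EqOn f f' (Metric.ball 0 1) := by
    intro z hz
    exact h z (by simpa using hz)
  have h2 : Set.EqOn f f' (Metric.closedBall 0 1) := by
    refine Set.EqOn.of_subset_closure h1 hf hf' Metric.ball_subset_closedBall ?_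
    rw [closure_ball _ one_ne_zero]
  intro z hz
  exact h2 (by simpa using hz)

theorem exists_act (Γ : Subgroup (UpperHalfPlane ≃ᵢ UpperHalfPlane))
    (hdisc : ∀ K : Set UpperHalfPlane, IsCompact K →
      {g : Γ | (((g : UpperHalfPlane ≃ᵢ UpperHalfPlane) '' K) ∩ K).Nonempty}.Finite) :
    ∃ A : Act Γ, ∀ (g : Γ) (z : UpperHalfPlane),
      toDisc ((g : UpperHalfPlane ≃ᵢ UpperHalfPlane) z) = A.act g (toDisc z) := by
  have h0 : ∀ g : Γ, ∃ f : ℂ → ℂ, IsDiscIso f ∧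
      ∀ z : UpperHalfPlane, toDisc ((g : UpperHalfPlane ≃ᵢ UpperHalfPlane) z) = f (toDisc z) := by
    intro g
    obtain ⟨A, hA⟩ := isom_class (g : UpperHalfPlane ≃ᵢ UpperHalfPlane)
    obtain ⟨f, hf, hfz⟩ := exists_disc_of_GL A
    refine ⟨f, hf, fun z => ?_⟩
    rw [hA z, hfz z]
  choose f hf hfz using h0
  refine ⟨⟨f, hf, ?_, ?_, ?_⟩, hfz⟩
  · -- one
    apply mka_ext (hf 1).continuousOn continuousOn_id
    intro z hz
    obtain ⟨w, rfl⟩ := toDisc_surj hz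
    rw [← hfz 1 w]
    rfl
  · -- mul
    intro g h
    have hmaps : Set.MapsTo (f h) (Metric.closedBall 0 1) (Metric.closedBall 0 1) := by
      intro z hz
      have : ‖z‖ ≤ 1 := by simpa using hz
      simpa using (hf h).norm_le_one this
    apply mka_ext (f' := fun z => f g (f h z)) (hf (g * h)).continuousOn
      ((hf g).continuousOn.comp (hf h).continuousOn hmaps)
    intro z hz
    obtain ⟨w, rfl⟩ := toDisc_surj hz
    show f (g * h) (toDisc w) = f g (f h (toDisc w))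
    rw [← hfz (g * h) w, ← hfz h w, ← hfz g]
    rfl
  · -- discrete
    intro ρ hρ
    have hK : IsCompact {z : UpperHalfPlane | ‖toDisc z‖ ≤ max ρ 0} :=
      isCompact_preimage_toDisc (max_lt hρ one_pos)
    refine (hdisc _ hK).subset ?_
    intro g hg
    have hg' : ‖f g 0‖ ≤ ρ := hg
    refine ⟨(g : UpperHalfPlane ≃ᵢ UpperHalfPlane) UpperHalfPlane.I,
      ⟨UpperHalfPlane.I, ?_, rfl⟩, ?_⟩
    · show ‖toDisc UpperHalfPlane.I‖ ≤ max ρ 0
      rw [toDisc_I, norm_zero]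
      exact le_max_right _ _
    · show ‖toDisc ((g : UpperHalfPlane ≃ᵢ UpperHalfPlane) UpperHalfPlane.I)‖ ≤ max ρ 0
      rw [hfz g, toDisc_I]
      exact hg'.trans (le_max_left _ _)

end Pool.Agent.Lib.KLG
end
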