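import Pool.Agent.Lib.MP_b16327_pr.Defs
import Pool.Agent.Lib.MP_b16327_pr.GoodNear
import Pool.Agent.Lib.MP_a137af_pr.Leb
import Pool.Agent.Lib.MP_b16327_pr.PushCirc

/-!
# 2.4: the density is bounded above
-/

set_option autoImplicit false
open MeasureTheory Set Filter Topology
open scoped ENNReal ComplexConjugate

namespace Pool.Agent.Lib.KLG

open Pool.Agent.Lib.KLP

variable {Γ : Type*} [Group Γ] {A : Act Γ} {W : Walk Γ} {ν : Measure ℂ}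

private theorem upper_circle_meas : MeasurableSet {z : ℂ | ‖z‖ = 1} :=
  measurableSet_eq_fun measurable_norm measurable_const

/-- A measure absolutely continuous with respect to `circ` lives on the circle. -/
private theorem upper_inter (hac : ν ≪ circ) (E : Set ℂ) : ν (E ∩ {z : ℂ | ‖z‖ = 1}) = ν E := by
  apply measure_congr
  filter_upwards [ae_norm_of_ac' hac] with z hz
  exact propext ⟨fun h => h.1, fun h => ⟨h, hz⟩⟩

/-- One good element `γ` near the Lebesgue point bounds `ν` away from `ζ`. -/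
private theorem upper_step (h : Std A W ν) (hac : ν ≪ circ) {ξ₀ ζ : ℂ} {L c r ε e : ℝ} (hξ₀ : ‖ξ₀‖ = 1)
    (hL : 0 < L) (hc : 0 < c) (hr : 0 < r) (hε : 0 < ε) {γ : Γ} (hγ : γ ∈ A.U ξ₀ r)
    (hF : ENNReal.ofReal (c * r) ≤ W.F 1 γ) (hζ : ‖A.act γ⁻¹ 0 - ζ‖ ≤ ε / 2)
    (hleb : ∀ E : Set ℂ, MeasurableSet E → E ⊆ Metric.closedBall ξ₀ ((1 + 4 / ε) * r) →
      |(ν E).toReal - L * (circ E).toReal| ≤ e * r)
    {E : Set ℂ} (hE : MeasurableSet E) (hE1 : ∀ ξ ∈ E, ‖ξ‖ = 1) (hE2 : ∀ ξ ∈ E, ε ≤ ‖ξ - ζ‖) :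
    c * (ν E).toReal ≤ L * (8 / ε ^ 2) * (circ E).toReal + e := by
  have := h.prob
  set E₁ : Set ℂ := A.act γ⁻¹ ⁻¹' E with hE₁
  set E₂ : Set ℂ := E₁ ∩ {z : ℂ | ‖z‖ = 1} with hE₂
  have hmE₁ : MeasurableSet E₁ := A.measurable_act γ⁻¹ hE
  have hmE₂ : MeasurableSet E₂ := hmE₁.inter upper_circle_meas
  have htpos : 0 < A.t γ := A.t_pos γ
  have ht : A.t γ ≤ 2 * r := by
    have h1 : ‖A.act γ 0 - ξ₀‖ < r := hγ
    have h2 : ‖A.act γ 0‖ ≤ 1 := A.norm_act_le γ (by simp)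
    have h3 : ‖ξ₀‖ - ‖A.act γ 0‖ ≤ ‖A.act γ 0 - ξ₀‖ := by
      rw [norm_sub_rev]
      exact norm_sub_norm_le _ _
    have h4 : 0 ≤ ‖A.act γ 0‖ := norm_nonneg _
    unfold Act.t
    nlinarith
  -- the lower bound for `ν E₂`
  have hlow : ENNReal.ofReal (c * r) * ν E ≤ ν E₂ := by
    have h1 := F_mul_pf_le h hE γ⁻¹ 1
    rw [pf_one h hE, pf_eq hE] at h1
    have h2 : W.F γ⁻¹ 1 = W.F 1 γ := by
      have := W.F_mul_left γ γ⁻¹ 1
      rw [mul_inv_cancel, mul_one] at this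
      exact this.symm
    rw [h2] at h1
    calc ENNReal.ofReal (c * r) * ν E ≤ W.F 1 γ * ν E := mul_le_mul_left hF _
      _ ≤ ν E₁ := h1
      _ = ν E₂ := (upper_inter hac E₁).symm
  -- distance of points of `E` to the centre
  have hdist : ∀ η ∈ E, ε / 2 ≤ ‖η - A.act γ⁻¹ 0‖ := by
    intro η hη
    have h1 := hE2 η hη
    have h2 : ‖η - ζ‖ ≤ ‖η - A.act γ⁻¹ 0‖ + ‖A.act γ⁻¹ 0 - ζ‖ := norm_sub_le_norm_sub_add_norm_sub _ _ _
    linarith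
  have hsub : E₂ ⊆ Metric.closedBall ξ₀ ((1 + 4 / ε) * r) := by
    rintro ξ ⟨hξE, hξ1⟩
    have hξ1' : ‖ξ‖ = 1 := hξ1
    have hη : A.act γ⁻¹ ξ ∈ E := hξE
    have hη1 := hE1 _ hη
    have h1 := A.circle_dist γ hη1
    rw [A.act_inv_act γ hξ1'.le] at h1
    have h2 := hdist _ hη
    have h3 : ‖ξ - A.act γ 0‖ ≤ 4 / ε * r := by
      have h4 : ‖ξ - A.act γ 0‖ * (ε / 2) ≤ 2 * r :=
        (mul_le_mul_of_nonneg_left h2 (norm_nonneg _)).trans (h1.le.trans ht)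
      have h5 : 4 / ε * r = 2 * r / (ε / 2) := by field_simp; ring
      rw [h5, le_div_iff₀ (by positivity)]
      exact h4
    have h6 : ‖A.act γ 0 - ξ₀‖ < r := hγ
    rw [Metric.mem_closedBall, dist_eq_norm]
    have h7 : ‖ξ - ξ₀‖ ≤ ‖ξ - A.act γ 0‖ + ‖A.act γ 0 - ξ₀‖ := norm_sub_le_norm_sub_add_norm_sub _ _ _
    nlinarith
  have hup := (abs_le.mp (hleb E₂ hmE₂ hsub)).2
  -- the circle measure of `E₂`
  have hcirc : circ E₂ ≤ ENNReal.ofReal (8 / ε ^ 2 * r) * circ E := by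
    calc circ E₂ ≤ circ E₁ := measure_mono inter_subset_left
      _ ≤ ENNReal.ofReal (A.t γ⁻¹ / (ε / 2) ^ 2) * circ E :=
        circ_preimage_le A γ⁻¹ hE (by positivity) fun ξ hξ _ => hdist ξ hξ
      _ ≤ ENNReal.ofReal (8 / ε ^ 2 * r) * circ E := by
        apply mul_le_mul_left
        apply ENNReal.ofReal_le_ofReal
        rw [A.t_inv]
        have h5 : 8 / ε ^ 2 * r = 2 * r / (ε / 2) ^ 2 := by field_simp; ring
        rw [h5]
        gcongr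
  have hcirc' : (circ E₂).toReal ≤ 8 / ε ^ 2 * r * (circ E).toReal := by
    have h1 := ENNReal.toReal_mono (ENNReal.mul_ne_top ENNReal.ofReal_ne_top (measure_ne_top _ _))
      hcirc
    rw [ENNReal.toReal_mul, ENNReal.toReal_ofReal (by positivity)] at h1
    exact h1
  have hlow' : c * r * (ν E).toReal ≤ (ν E₂).toReal := by
    have h1 := ENNReal.toReal_mono (measure_ne_top _ _) hlow
    rw [ENNReal.toReal_mul, ENNReal.toReal_ofReal (by positivity)] at h1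
    exact h1
  have hfin : c * r * (ν E).toReal ≤ L * (8 / ε ^ 2 * r * (circ E).toReal) + e * r := by
    have h1 := mul_le_mul_of_nonneg_left hcirc' hL.le
    linarith
  have h8 : r * (c * (ν E).toReal) ≤ r * (L * (8 / ε ^ 2) * (circ E).toReal + e) := by
    calc r * (c * (ν E).toReal) = c * r * (ν E).toReal := by ring
      _ ≤ L * (8 / ε ^ 2 * r * (circ E).toReal) + e * r := hfin
      _ = r * (L * (8 / ε ^ 2) * (circ E).toReal + e) := by ring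
  exact le_of_mul_le_mul_left h8 hr

/-- Claim A: the bound away from a point `ζ` of the circle. -/
private theorem upper_away (h : Std A W ν) (hac : ν ≪ circ) : ∃ ζ : ℂ, ‖ζ‖ = 1 ∧ ∃ c L : ℝ, 0 < c ∧ 0 < L ∧
    ∀ ε : ℝ, 0 < ε → ∀ E : Set ℂ, MeasurableSet E → (∀ ξ ∈ E, ‖ξ‖ = 1) →
      (∀ ξ ∈ E, ε ≤ ‖ξ - ζ‖) → ν E ≤ ENNReal.ofReal (L * (8 / ε ^ 2) / c) * circ E := by
  have := h.prob
  obtain ⟨ξ₀, L, hLeb⟩ := exists_lebPt ν hac
  obtain ⟨c, δ, r₀, hc, hδ, hr₀, hgood⟩ := good_near h hLeb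
  obtain ⟨hξ₀, hL, hleb⟩ := hLeb
  let r : ℕ → ℝ := fun n => r₀ / (n + 2)
  have hrpos : ∀ n, 0 < r n := fun n => by positivity
  have hrlt : ∀ n, r n < r₀ := fun n => by
    have : (0 : ℝ) ≤ n := Nat.cast_nonneg n
    change r₀ / (n + 2) < r₀
    rw [div_lt_iff₀ (by positivity)]
    nlinarith
  have hr0 : Tendsto r atTop (𝓝 0) := by
    apply Tendsto.div_atTop tendsto_const_nhds
    exact tendsto_atTop_add_const_right _ _ tendsto_natCast_atTop_atTop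
  choose γ hγU hγt hγF using fun n => hgood (r n) (hrpos n) (hrlt n)
  obtain ⟨ζ, -, φ, hφ, hζ⟩ := (isCompact_closedBall (0 : ℂ) 1).tendsto_subseq
    (x := fun n => A.act (γ n)⁻¹ 0) (fun n => by
      rw [mem_closedBall_zero_iff]
      exact A.norm_act_le _ (by simp))
  have hrφ : Tendsto (fun n => r (φ n)) atTop (𝓝 0) := hr0.comp hφ.tendsto_atTop
  have ht0 : ∀ n, ‖A.act (γ n)⁻¹ 0‖ ^ 2 = 1 - A.t (γ n) := by
    intro n
    rw [← A.t_inv]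
    unfold Act.t
    ring
  have htle : ∀ n, A.t (γ n) ≤ 2 * r n := by
    intro n
    have h1 : ‖A.act (γ n) 0 - ξ₀‖ < r n := hγU n
    have h2 : ‖A.act (γ n) 0‖ ≤ 1 := A.norm_act_le _ (by simp)
    have h3 : ‖ξ₀‖ - ‖A.act (γ n) 0‖ ≤ ‖A.act (γ n) 0 - ξ₀‖ := by
      rw [norm_sub_rev]
      exact norm_sub_norm_le _ _
    have h4 : 0 ≤ ‖A.act (γ n) 0‖ := norm_nonneg _
    unfold Act.t
    nlinarith
  have hζ1 : ‖ζ‖ = 1 := by
    have h1 : Tendsto (fun n => ‖A.act (γ (φ n))⁻¹ 0‖ ^ 2) atTop (𝓝 (‖ζ‖ ^ 2)) :=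
      (hζ.norm).pow 2
    have h2 : Tendsto (fun n => ‖A.act (γ (φ n))⁻¹ 0‖ ^ 2) atTop (𝓝 1) := by
      have h3 : Tendsto (fun n => A.t (γ (φ n))) atTop (𝓝 0) := by
        refine tendsto_of_tendsto_of_tendsto_of_le_of_le tendsto_const_nhds
          (by simpa using hrφ.const_mul 2) (fun n => (A.t_pos _).le) (fun n => htle _)
      have h4 := h3.const_sub 1
      rw [sub_zero] at h4
      exact h4.congr fun n => (ht0 _).symm
    have h3 : ‖ζ‖ ^ 2 = 1 := tendsto_nhds_unique h1 h2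
    have h4 : 0 ≤ ‖ζ‖ := norm_nonneg _
    nlinarith
  refine ⟨ζ, hζ1, c, L, hc, hL, ?_⟩
  intro ε hε E hE hE1 hE2
  -- real inequality
  have hreal : c * (ν E).toReal ≤ L * (8 / ε ^ 2) * (circ E).toReal := by
    apply le_of_forall_pos_le_add
    intro e he
    obtain ⟨r₁, hr₁, hleb1⟩ := hleb (1 + 4 / ε) (by positivity) e he
    have hev1 : ∀ᶠ n in atTop, r (φ n) < r₁ := hrφ.eventually_lt_const hr₁
    have hev2 : ∀ᶠ n in atTop, ‖A.act (γ (φ n))⁻¹ 0 - ζ‖ ≤ ε / 2 := by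
      have h1 : Tendsto (fun n => ‖A.act (γ (φ n))⁻¹ 0 - ζ‖) atTop (𝓝 0) := by
        rw [← tendsto_iff_norm_sub_tendsto_zero]
        exact hζ
      exact (h1.eventually_lt_const (by positivity : (0 : ℝ) < ε / 2)).mono fun _ h => h.le
    obtain ⟨n, hn1, hn2⟩ := (hev1.and hev2).exists
    exact upper_step h hac hξ₀ hL hc (hrpos (φ n)) hε (hγU (φ n)) (hγF (φ n)) hn2
      (hleb1 (r (φ n)) (hrpos _) hn1) hE hE1 hE2
  rw [← ENNReal.ofReal_toReal (measure_ne_top ν E), ← ENNReal.ofReal_toReal (measure_ne_top circ E),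
    ← ENNReal.ofReal_mul (by positivity)]
  apply ENNReal.ofReal_le_ofReal
  rw [div_mul_eq_mul_div, le_div_iff₀ hc]
  linarith

theorem upper (h : Std A W ν) (hac : ν ≪ circ) : ∃ M : ℝ, 0 < M ∧ ∀ E : Set ℂ, MeasurableSet E →
    ν E ≤ ENNReal.ofReal M * circ E := by
  have := h.prob
  obtain ⟨ζ, hζ, c, L, hc, hL, haway⟩ := upper_away h hac
  obtain ⟨g, hgS, hg⟩ := h.nofix ζ hζ
  set ε : ℝ := ‖A.act g ζ - ζ‖ / 2 with hε
  have hεpos : 0 < ε := by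
    have : 0 < ‖A.act g ζ - ζ‖ := norm_pos_iff.mpr (sub_ne_zero.mpr hg)
    positivity
  -- continuity at `ζ`
  obtain ⟨ρ, hρ, hcont⟩ : ∃ ρ : ℝ, 0 < ρ ∧ ∀ ξ : ℂ, ‖ξ‖ = 1 → ‖ξ - ζ‖ < ρ →
      ε ≤ ‖A.act g ξ - ζ‖ := by
    have h1 := (A.iso g).continuousOn ζ (by rw [mem_closedBall_zero_iff]; exact hζ.le)
    obtain ⟨ρ, hρ, h2⟩ := Metric.continuousWithinAt_iff.mp h1 ε hεpos
    refine ⟨ρ, hρ, ?_⟩
    intro ξ hξ hξρ
    have h3 := h2 (x := ξ) (by rw [mem_closedBall_zero_iff]; exact hξ.le)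
      (by rw [dist_eq_norm]; exact hξρ)
    rw [dist_eq_norm] at h3
    have h4 : ‖A.act g ζ - ζ‖ ≤ ‖A.act g ξ - ζ‖ + ‖A.act g ξ - A.act g ζ‖ := by
      have := norm_sub_le (A.act g ξ - ζ) (A.act g ξ - A.act g ζ)
      have e1 : A.act g ξ - ζ - (A.act g ξ - A.act g ζ) = A.act g ζ - ζ := by ring
      rwa [e1] at this
    have h5 : ‖A.act g ζ - ζ‖ = 2 * ε := by rw [hε]; ring
    linarith
  have hFne : W.F g⁻¹ 1 ≠ 0 := by
    have h1 := W.F_step_ne_zero hgS g⁻¹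
    rwa [inv_mul_cancel] at h1
  -- the element `s = g⁻¹`
  set d : ℝ := 1 - ‖A.act g⁻¹ 0‖ with hd
  have hdpos : 0 < d := by
    have := A.norm_act_lt g⁻¹ (z := 0) (by simp)
    linarith
  set K : ℝ≥0∞ := (W.F g⁻¹ 1)⁻¹ * (ENNReal.ofReal (L * (8 / ε ^ 2) / c) *
    ENNReal.ofReal (A.t g⁻¹ / d ^ 2)) with hK
  have hKtop : K ≠ ∞ := by
    apply ENNReal.mul_ne_top
    · exact ENNReal.inv_ne_top.mpr hFne
    · exact ENNReal.mul_ne_top ENNReal.ofReal_ne_top ENNReal.ofReal_ne_top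
  have hnear : ∀ E : Set ℂ, MeasurableSet E → (∀ ξ ∈ E, ‖ξ‖ = 1) → (∀ ξ ∈ E, ‖ξ - ζ‖ < ρ) →
      ν E ≤ K * circ E := by
    intro E hE hE1 hE2
    have h1 := F_mul_pf_le h hE g⁻¹ 1
    rw [pf_one h hE, pf_eq hE] at h1
    set E₁ : Set ℂ := A.act g⁻¹ ⁻¹' E with hE₁
    have hmE₁ : MeasurableSet E₁ := A.measurable_act g⁻¹ hE
    have h2 : ν E₁ ≤ ENNReal.ofReal (L * (8 / ε ^ 2) / c) *
        (ENNReal.ofReal (A.t g⁻¹ / d ^ 2) * circ E) := by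
      rw [← upper_inter hac E₁]
      refine (haway ε hεpos _ (hmE₁.inter upper_circle_meas) (fun ξ hξ => hξ.2) ?_).trans ?_
      · rintro ξ ⟨hξE, hξ1⟩
        have hξ1' : ‖ξ‖ = 1 := hξ1
        have h3 := hcont (A.act g⁻¹ ξ) (hE1 _ hξE) (hE2 _ hξE)
        rwa [A.act_inv_act g hξ1'.le] at h3
      · apply mul_le_mul_right
        refine (measure_mono inter_subset_left).trans ?_
        apply circ_preimage_le A g⁻¹ hE hdpos
        intro ξ hξ hξ1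
        have h3 := norm_sub_norm_le ξ (A.act g⁻¹ 0)
        rw [hξ1] at h3
        exact h3
    have h3 : W.F g⁻¹ 1 ≠ ∞ := ne_top_of_le_ne_top ENNReal.one_ne_top (W.F_le_one _ _)
    have h4 := hFne
    calc ν E = (W.F g⁻¹ 1)⁻¹ * (W.F g⁻¹ 1 * ν E) := by
          rw [← mul_assoc, ENNReal.inv_mul_cancel h4 h3, one_mul]
      _ ≤ (W.F g⁻¹ 1)⁻¹ * (ENNReal.ofReal (L * (8 / ε ^ 2) / c) *
        (ENNReal.ofReal (A.t g⁻¹ / d ^ 2) * circ E)) := mul_le_mul_right (h1.trans h2) _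
      _ = K * circ E := by rw [hK]; ring
  refine ⟨L * (8 / ρ ^ 2) / c + K.toReal + 1, by positivity, ?_⟩
  intro E hE
  have hmb : MeasurableSet {ξ : ℂ | ‖ξ - ζ‖ < ρ} :=
    measurableSet_lt (measurable_id.sub_const ζ).norm measurable_const
  have hmE : MeasurableSet (E ∩ {z : ℂ | ‖z‖ = 1}) := hE.inter upper_circle_meas
  have h1 : ν ((E ∩ {z : ℂ | ‖z‖ = 1}) ∩ {ξ : ℂ | ‖ξ - ζ‖ < ρ}) ≤ K * circ E :=
    (hnear _ (hmE.inter hmb) (fun ξ hξ => hξ.1.2) (fun ξ hξ => hξ.2)).trans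
      (mul_le_mul_right (measure_mono fun ξ hξ => hξ.1.1) _)
  have h2 : ν ((E ∩ {z : ℂ | ‖z‖ = 1}) \ {ξ : ℂ | ‖ξ - ζ‖ < ρ}) ≤
      ENNReal.ofReal (L * (8 / ρ ^ 2) / c) * circ E :=
    (haway ρ hρ _ (hmE.diff hmb) (fun ξ hξ => hξ.1.2) (fun ξ hξ => not_lt.mp hξ.2)).trans
      (mul_le_mul_right (measure_mono fun ξ hξ => hξ.1.1) _)
  calc ν E = ν (E ∩ {z : ℂ | ‖z‖ = 1}) := (upper_inter hac E).symm
    _ = ν ((E ∩ {z : ℂ | ‖z‖ = 1}) ∩ {ξ : ℂ | ‖ξ - ζ‖ < ρ}) +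
        ν ((E ∩ {z : ℂ | ‖z‖ = 1}) \ {ξ : ℂ | ‖ξ - ζ‖ < ρ}) :=
      (measure_inter_add_sdiff _ hmb).symm
    _ ≤ K * circ E + ENNReal.ofReal (L * (8 / ρ ^ 2) / c) * circ E := add_le_add h1 h2
    _ = (ENNReal.ofReal (L * (8 / ρ ^ 2) / c) + ENNReal.ofReal K.toReal) * circ E := by
      rw [ENNReal.ofReal_toReal hKtop]; ring
    _ ≤ ENNReal.ofReal (L * (8 / ρ ^ 2) / c + K.toReal + 1) * circ E := by
      apply mul_le_mul_left
      rw [← ENNReal.ofReal_add (by positivity) ENNReal.toReal_nonneg]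
      apply ENNReal.ofReal_le_ofReal
      linarith

end Pool.Agent.Lib.KLG
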